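import Pool.Agent.RCG.PairIneq
import Pool.Agent.RCG.Gam2

/-! Polymorphic polynomials for checks and for calculus (MP_73ccd0_lc). -/

namespace Pool.Agent.RCG

open Set Pool.Agent.RCRSHalf

/-- rational constants -/
class QC (R : Type) where
  q : ℤ → ℕ → R

instance instQCQE : QC QE := ⟨QE.c⟩
noncomputable instance instQCReal : QC ℝ := ⟨fun n d => (n : ℝ) / (d : ℝ)⟩

section poly

variable {R : Type} [Add R] [Mul R] [QC R]

/-- Horner value -/
def hor : List R → R → R
  | [], _ => QC.q 0 1
  | c :: cs, m => c + m * hor cs m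

/-- antiderivative divided by the variable -/
def hin : ℕ → List R → R → R
  | _, [], _ => QC.q 0 1
  | n, c :: cs, m => QC.q 1 (n + 1) * c + m * hin (n + 1) cs m

/-- antiderivative -/
def hint (cs : List R) (m : R) : R := m * hin 0 cs m

/-- coefficients of the antiderivative divided by the variable -/
def lint : ℕ → List R → List R
  | _, [] => []
  | n, c :: cs => (QC.q 1 (n + 1) * c) :: lint (n + 1) cs

/-- coefficients of the antiderivative -/
def lI (cs : List R) : List R := QC.q 0 1 :: lint 0 cs

/-- sum of coefficient lists -/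
def ladd : List R → List R → List R
  | [], b => b
  | a, [] => a
  | x :: a, y :: b => (x + y) :: ladd a b

/-- multiple of a coefficient list -/
def lsc (c : R) : List R → List R
  | [] => []
  | x :: a => (c * x) :: lsc c a

/-- product of coefficient lists -/
def lmul : List R → List R → List R
  | [], _ => []
  | x :: a, b => ladd (lsc x b) (QC.q 0 1 :: lmul a b)

/-- negation -/
def ng (a : R) : R := QC.q (-1) 1 * a

end poly

theorem hor_lint (cs : List ℝ) (n : ℕ) (m : ℝ) : hor (lint n cs) m = hin n cs m := by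
  induction cs generalizing n with
  | nil => simp [lint, hor, hin]
  | cons c cs ih => simp only [lint, hor, hin, ih]

theorem hor_lI (cs : List ℝ) (m : ℝ) : hor (lI cs) m = hint cs m := by
  simp only [lI, hor, hint, hor_lint, QC.q]
  push_cast
  ring

/-! ### Evaluation of the symbolic polynomials -/

section ev

variable {x y z w : ℝ}

theorem ev_q (n : ℤ) (d : ℕ) : QE.eval x y z w (QC.q n d) = (QC.q n d : ℝ) := rfl
theorem ev_add (a b : QE) : QE.eval x y z w (a + b) = QE.eval x y z w a + QE.eval x y z w b := rfl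
theorem ev_mul (a b : QE) : QE.eval x y z w (a * b) = QE.eval x y z w a * QE.eval x y z w b := rfl
theorem ev_ng (a : QE) : QE.eval x y z w (ng a) = ng (QE.eval x y z w a) := rfl

theorem ev_hor (cs : List QE) (m : QE) :
    QE.eval x y z w (hor cs m) = hor (cs.map (QE.eval x y z w)) (QE.eval x y z w m) := by
  induction cs with
  | nil => rfl
  | cons c cs ih => simp only [hor, List.map_cons, ev_add, ev_mul, ih]

theorem ev_hin (cs : List QE) (n : ℕ) (m : QE) :
    QE.eval x y z w (hin n cs m) = hin n (cs.map (QE.eval x y z w)) (QE.eval x y z w m) := by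
  induction cs generalizing n with
  | nil => rfl
  | cons c cs ih => simp only [hin, List.map_cons, ev_add, ev_mul, ih, ev_q]

theorem ev_hint (cs : List QE) (m : QE) :
    QE.eval x y z w (hint cs m) = hint (cs.map (QE.eval x y z w)) (QE.eval x y z w m) := by
  simp only [hint, ev_mul, ev_hin]

theorem map_lint (cs : List QE) (n : ℕ) :
    (lint n cs).map (QE.eval x y z w) = lint n (cs.map (QE.eval x y z w)) := by
  induction cs generalizing n with
  | nil => rfl
  | cons c cs ih => simp only [lint, List.map_cons, ih, ev_mul, ev_q]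

theorem map_lI (cs : List QE) :
    (lI cs).map (QE.eval x y z w) = lI (cs.map (QE.eval x y z w)) := by
  simp only [lI, List.map_cons, map_lint, ev_q]

theorem map_ladd (a b : List QE) :
    (ladd a b).map (QE.eval x y z w)
      = ladd (a.map (QE.eval x y z w)) (b.map (QE.eval x y z w)) := by
  induction a generalizing b with
  | nil => simp [ladd]
  | cons c a ih =>
    cases b with
    | nil => simp [ladd]
    | cons d b => simp only [ladd, List.map_cons, ih, ev_add]

theorem map_lsc (c : QE) (a : List QE) :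
    (lsc c a).map (QE.eval x y z w) = lsc (QE.eval x y z w c) (a.map (QE.eval x y z w)) := by
  induction a with
  | nil => rfl
  | cons d a ih => simp only [lsc, List.map_cons, ih, ev_mul]

theorem map_lmul (a b : List QE) :
    (lmul a b).map (QE.eval x y z w)
      = lmul (a.map (QE.eval x y z w)) (b.map (QE.eval x y z w)) := by
  induction a with
  | nil => rfl
  | cons c a ih => simp only [lmul, List.map_cons, map_ladd, map_lsc, ih, ev_q]

end ev

theorem hin_deriv (cs : List ℝ) (n : ℕ) (m : ℝ) :
    HasDerivAt (fun m => m ^ (n + 1) * hin n cs m) (m ^ n * hor cs m) m := by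
  induction cs generalizing n with
  | nil =>
    have : (fun m : ℝ => m ^ (n + 1) * hin n ([] : List ℝ) m) = fun _ => 0 := by
      funext m
      simp [hin, QC.q]
    rw [this]
    simpa [hor, QC.q] using hasDerivAt_const m (0 : ℝ)
  | cons c cs ih =>
    have h1 := ih (n + 1)
    have h2 : HasDerivAt (fun m : ℝ => m ^ (n + 1)) (((n + 1 : ℕ) : ℝ) * m ^ n) m := by
      simpa using hasDerivAt_pow (n + 1) m
    have h3 := (h2.mul_const (1 / ((n : ℝ) + 1) * c)).add h1
    refine (h3.congr_deriv ?_).congr_of_eventuallyEq (Filter.Eventually.of_forall fun y => ?_)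
    · simp only [hor]
      have : ((n : ℝ) + 1) ≠ 0 := by positivity
      push_cast
      field_simp
      ring
    · simp only [Pi.add_apply, hin, QC.q]
      push_cast
      ring

theorem hint_deriv (cs : List ℝ) (m : ℝ) : HasDerivAt (fun m => hint cs m) (hor cs m) m := by
  have := hin_deriv cs 0 m
  simpa [hint] using this

theorem hor_ladd (a b : List ℝ) (m : ℝ) : hor (ladd a b) m = hor a m + hor b m := by
  induction a generalizing b with
  | nil => simp [ladd, hor, QC.q]
  | cons x a ih =>
    cases b with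
    | nil => simp [ladd, hor, QC.q]
    | cons y b => simp only [ladd, hor, ih]; ring

theorem hor_lsc (c : ℝ) (a : List ℝ) (m : ℝ) : hor (lsc c a) m = c * hor a m := by
  induction a with
  | nil => simp [lsc, hor, QC.q]
  | cons x a ih => simp only [lsc, hor, ih]; ring

theorem hor_lmul (a b : List ℝ) (m : ℝ) : hor (lmul a b) m = hor a m * hor b m := by
  induction a with
  | nil => simp [lmul, hor, QC.q]
  | cons x a ih =>
    simp only [lmul, hor_ladd, hor_lsc, hor, ih, QC.q]
    push_cast
    ring

theorem hint_zero (cs : List ℝ) : hint cs 0 = 0 := by simp [hint]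

/-- coordinates in the unit square -/
theorem unit_xy {m T : ℝ} (hm : 0 ≤ m) (hmT : m ≤ T) (hT : T ≤ 213 / 200) :
    ∃ x y : ℝ, 0 ≤ x ∧ x ≤ 1 ∧ 0 ≤ y ∧ y ≤ 1 ∧ 213 / 200 * (x * y) = m ∧ 213 / 200 * y = T := by
  rcases (hm.trans hmT).eq_or_lt with h0 | h0
  · refine ⟨0, 0, le_rfl, zero_le_one, le_rfl, zero_le_one, ?_, ?_⟩
    · have : m = 0 := le_antisymm (hmT.trans h0.symm.le) hm
      rw [this]; ring
    · rw [← h0]; ring
  · refine ⟨m / T, T / (213 / 200), by positivity, (div_le_one h0).2 hmT, by positivity,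
      (div_le_one (by norm_num)).2 hT, ?_, ?_⟩
    · field_simp
    · field_simp

def mQ : QE := QE.c 213 200 * (QE.A * QE.B)
def TQ : QE := QE.c 213 200 * QE.B

theorem chk2 {n1 n2 : ℕ} {e : QE} (h : QE.nonnegB n1 n2 0 0 e = true) {m T : ℝ} (hm : 0 ≤ m)
    (hmT : m ≤ T) (hT : T ≤ 213 / 200) :
    ∃ x y : ℝ, 0 ≤ QE.eval x y 0 0 e ∧ QE.eval x y 0 0 mQ = m ∧ QE.eval x y 0 0 TQ = T := by
  obtain ⟨x, y, hx0, hx1, hy0, hy1, h1, h2⟩ := unit_xy hm hmT hT
  refine ⟨x, y, QE.nonneg_of_check h hx0 hx1 hy0 hy1 (le_refl (0 : ℝ)) zero_le_one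
    (le_refl (0 : ℝ)) zero_le_one, ?_, ?_⟩
  · simp only [mQ, QE.eval]; rw [← h1]; push_cast; ring
  · simp only [TQ, QE.eval]; rw [← h2]; push_cast; ring

theorem add_ng (a b : ℝ) : a + ng b = a - b := by
  simp only [ng, QC.q]; push_cast; ring

end Pool.Agent.RCG
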