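import Pool.Agent.RCGF.Em10
import Pool.Agent.RCG.S1P

/-! The estimate for small edges, all parts together (MP_73ccd0_lc, general graphs). -/

namespace Pool.Agent.RCG

open Set Finset Matrix Pool.Agent.RCRSHalf

set_option linter.unusedSectionVars false

section poly

variable {R : Type} [Add R] [Mul R] [QC R]

/-- lower bound of `log (1 + t)` -/
def lel (t : R) : R := t * (QC.q 1 1 + t * (QC.q (-1) 2 + QC.q 15 100 * t))
/-- the error of type `S`, in units of `log² (1 + t)` -/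
def lep (t : R) : R := t * t * (QC.q 98 10000 + QC.q 345 10000 * t)
/-- the coefficient of the common neighbours, in units of `log² (1 + t)` -/
def lcS (t : R) : R := QC.q 1035 1000 + t * (QC.q 3 100 + QC.q 1 20 * (t * t))
/-- product of the two factors -/
def lPi (T : R) : R := (QC.q 1 1 + eqT T) * (QC.q 1 1 + alT T)

def c_F0 (t : R) : R := QC.q 1 50 * (t * (t * (t * t))) + ng (QC.q 2 1 * KoT (clM t))
def c_F4 (t : R) : R := QC.q 81 100 * K0p t + ng (lPi (clM t) * E4T (clM t))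
def c_F1 (t : R) : R := lep t * (lel t * lel t) + ng (lPi (clM t) * (QC.q 2 1 * E1T (clM t)))
def c_F2 (t : R) : R := lcS t + ng (lPi (clM t) * (QC.q 101505 100000 * QC.q 101505 100000 *
  ((QC.q 1 1 + QC.q 1021 100000 * hint gl (clM t)) *
    (QC.q 1 1 + QC.q 1021 100000 * hint gl (clM t)))) + lep t)

end poly

set_option maxRecDepth 100000 in
theorem ck_F0 : QE.nonnegB 60 0 0 0 (c_F0 QE.A) = true := by decide +kernel
set_option maxRecDepth 100000 in
theorem ck_F4 : QE.nonnegB 60 0 0 0 (c_F4 QE.A) = true := by decide +kernel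
set_option maxRecDepth 100000 in
theorem ck_F1 : QE.nonnegB 60 0 0 0 (c_F1 QE.A) = true := by decide +kernel
set_option maxRecDepth 100000 in
theorem ck_F2 : QE.nonnegB 60 0 0 0 (c_F2 QE.A) = true := by decide +kernel

theorem psS_le {T : ℝ} (h0 : 0 ≤ T) (h1 : T ≤ 213 / 200) : hint (psS T) T ≤ E1T T := by
  obtain ⟨x, hc, e1⟩ := chkT ck_E1 h0 h1
  have e : QE.eval x 0 0 0 (c_E1 T1Q) = c_E1 (QE.eval x 0 0 0 T1Q) := by
    simp only [c_E1, E1T, psS, chl, Dl', Dpl, del, Gl, fdl, fcl, gl, ev_add, ev_mul, ev_ng,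
      ev_hint, map_lsc, map_lmul, map_ladd, map_lI, List.map_cons, List.map_nil, ev_q]
  rw [e, e1] at hc
  unfold c_E1 at hc
  rw [add_ng] at hc
  linarith

theorem ps4_le {T : ℝ} (h0 : 0 ≤ T) (h1 : T ≤ 213 / 200) : hint (ps4 T) T ≤ E4T T := by
  obtain ⟨x, hc, e1⟩ := chkT ck_E4 h0 h1
  have e : QE.eval x 0 0 0 (c_E4 T1Q) = c_E4 (QE.eval x 0 0 0 T1Q) := by
    simp only [c_E4, E4T, ps4, nhl, bKl, Dl', Dpl, del, Gl, fdl, gl, ev_add, ev_mul, ev_ng,
      ev_hint, map_lsc, map_lmul, map_ladd, map_lI, List.map_cons, List.map_nil, ev_q]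
  rw [e, e1] at hc
  unfold c_E4 at hc
  rw [add_ng] at hc
  linarith

variable {V : Type*} [Fintype V] [DecidableEq V]
variable {h : ℝ → V → V → ℝ} {H : V → V → ℝ → ℝ} {X : V → V → ℝ} {M μ : ℝ → ℝ} {t : ℝ}
variable {re : V → Prop}

theorem S1.t_mem (hS : S1 re h H X M μ t) : t ∈ Icc (0 : ℝ) 1 := ⟨hS.cx.t0, hS.cx.t1⟩

theorem S1.F0 (hS : S1 re h H X M μ t) : 2 * KoT (M t) ≤ t ^ 4 / 50 := by
  have h := chk1 ck_F0 hS.t_mem.1 hS.t_mem.2
  have e : QE.eval t 0 0 0 (c_F0 QE.A) = c_F0 t := by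
    have e0 : QE.eval t 0 0 0 QE.A = t := rfl
    simp only [c_F0, KoT, eqT, ownl, own2l, nul, dUl, dVl, Wl, gl, bKl, nrl, clM, ev_add,
      ev_mul, ev_ng, ev_hint, map_lsc, map_lmul, List.map_cons, List.map_nil, ev_q, e0]
  rw [e] at h
  unfold c_F0 at h
  rw [add_ng, hS.cM_eq ⟨hS.cx.t0, le_rfl⟩] at h
  obtain ⟨K, hK⟩ : ∃ K, K = KoT (M t) := ⟨_, rfl⟩
  rw [← hK] at h ⊢
  simp only [QC.q] at h
  push_cast at h
  linarith

theorem S1.F4 (hS : S1 re h H X M μ t) : lPi (M t) * E4T (M t) ≤ 81 / 100 * K0p t := by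
  have h := chk1 ck_F4 hS.t_mem.1 hS.t_mem.2
  have e : QE.eval t 0 0 0 (c_F4 QE.A) = c_F4 t := by
    have e0 : QE.eval t 0 0 0 QE.A = t := rfl
    simp only [c_F4, lPi, eqT, alT, E4T, K0p, gl, clM, ev_add,
      ev_mul, ev_ng, ev_hint, List.map_cons, List.map_nil, ev_q, e0]
  rw [e] at h
  unfold c_F4 at h
  rw [add_ng, hS.cM_eq ⟨hS.cx.t0, le_rfl⟩] at h
  obtain ⟨K, hK⟩ : ∃ K, K = lPi (M t) * E4T (M t) := ⟨_, rfl⟩
  obtain ⟨K', hK'⟩ : ∃ K', K' = K0p t := ⟨_, rfl⟩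
  rw [← hK, ← hK'] at h ⊢
  simp only [QC.q] at h
  push_cast at h
  linarith

theorem S1.F1 (hS : S1 re h H X M μ t) :
    lPi (M t) * (2 * E1T (M t)) ≤ lep t * (lel t) ^ 2 := by
  have h := chk1 ck_F1 hS.t_mem.1 hS.t_mem.2
  have e : QE.eval t 0 0 0 (c_F1 QE.A) = c_F1 t := by
    have e0 : QE.eval t 0 0 0 QE.A = t := rfl
    simp only [c_F1, lPi, eqT, alT, E1T, lep, lel, gl, clM, ev_add,
      ev_mul, ev_ng, ev_hint, List.map_cons, List.map_nil, ev_q, e0]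
  rw [e] at h
  unfold c_F1 at h
  rw [add_ng, hS.cM_eq ⟨hS.cx.t0, le_rfl⟩] at h
  have e2 : (QC.q 2 1 : ℝ) = 2 := by simp only [QC.q]; norm_num
  rw [e2] at h
  linarith

theorem S1.F2 (hS : S1 re h H X M μ t) :
    lPi (M t) * ((101505 / 100000) ^ 2 * (1 + 1021 / 100000 * hint gl (M t)) ^ 2) + lep t
      ≤ lcS t := by
  have h := chk1 ck_F2 hS.t_mem.1 hS.t_mem.2
  have e : QE.eval t 0 0 0 (c_F2 QE.A) = c_F2 t := by
    have e0 : QE.eval t 0 0 0 QE.A = t := rfl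
    simp only [c_F2, lPi, eqT, alT, lep, lcS, gl, clM, ev_add,
      ev_mul, ev_ng, ev_hint, List.map_cons, List.map_nil, ev_q, e0]
  rw [e] at h
  unfold c_F2 at h
  rw [add_ng, hS.cM_eq ⟨hS.cx.t0, le_rfl⟩] at h
  have e2 : (QC.q 101505 100000 : ℝ) = 101505 / 100000 := by simp only [QC.q]; norm_num
  have e3 : (QC.q 1021 100000 : ℝ) = 1021 / 100000 := by simp only [QC.q]; norm_num
  rw [e2, e3, q_one] at h
  linarith

theorem lel_le {t : ℝ} (ht : t ∈ Icc (0 : ℝ) 1) : lel t ≤ Real.log (1 + t) := by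
  have key := nonneg_of_forward (U := fun s => Real.log (1 + s) - (s - s ^ 2 / 2 + 15 / 100 * s ^ 3))
    (U' := fun s => 1 / (1 + s) - (1 - s + 45 / 100 * s ^ 2)) (a := 0) (s := 1)
    (fun r hr => by
      have h1 : (1 : ℝ) + r ≠ 0 := by linarith [hr.1]
      have h2 : HasDerivAt (fun s : ℝ => Real.log (1 + s)) (1 / (1 + r)) r :=
        ((hasDerivAt_id r).const_add 1).log h1
      have h3 : HasDerivAt (fun s : ℝ => s - s ^ 2 / 2 + 15 / 100 * s ^ 3)
          (1 - (2 * r) / 2 + 15 / 100 * (3 * r ^ 2)) r := by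
        have a1 := hasDerivAt_id r
        have a2 : HasDerivAt (fun s : ℝ => s ^ 2) (2 * r) r := by
          simpa using hasDerivAt_pow 2 r
        have a3 : HasDerivAt (fun s : ℝ => s ^ 3) (3 * r ^ 2) r := by
          simpa using hasDerivAt_pow 3 r
        exact (a1.sub (a2.div_const 2)).add (a3.const_mul _)
      refine (h2.sub h3).congr_deriv ?_
      ring)
    (by simp)
    (fun r hr _ => by
      have h1 : 0 < 1 + r := by linarith [hr.1]
      have : 1 - r + 45 / 100 * r ^ 2 ≤ 1 / (1 + r) := by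
        rw [le_div_iff₀ h1]
        nlinarith [hr.1, hr.2, mul_nonneg (sq_nonneg r) (sub_nonneg.2 hr.2), sq_nonneg r]
      linarith) t ht
  have e : lel t = t - t ^ 2 / 2 + 15 / 100 * t ^ 3 := by
    simp only [lel, QC.q]; push_cast; ring
  rw [e]; linarith

theorem lel_nn {t : ℝ} (ht : t ∈ Icc (0 : ℝ) 1) : 0 ≤ lel t := by
  have e : lel t = t * (1 - t / 2 + 15 / 100 * t ^ 2) := by
    simp only [lel, QC.q]; push_cast; ring
  rw [e]
  exact mul_nonneg ht.1 (by nlinarith [ht.1, ht.2, sq_nonneg t])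

theorem lep_nn {t : ℝ} (ht : t ∈ Icc (0 : ℝ) 1) : 0 ≤ lep t := by
  have e : lep t = t ^ 2 * (98 / 10000 + 345 / 10000 * t) := by
    simp only [lep, QC.q]; push_cast; ring
  rw [e]
  have := ht.1
  positivity

theorem lPi_nn {T : ℝ} (h0 : 0 ≤ T) (h1 : T ≤ 213 / 200) : 0 ≤ lPi T := by
  have h2 := LG_nn h0 h1
  have h3 : 0 ≤ eqT T := by rw [eqT_eq]; positivity
  have h4 := alT_nonneg h0
  unfold lPi
  rw [q_one]
  positivity

theorem lcS_eq (t : ℝ) : lcS t = 1035 / 1000 + 3 / 100 * t + 1 / 20 * t ^ 3 := by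
  simp only [lcS, QC.q]; push_cast; ring

/-- the coefficient of the common neighbours -/
theorem S1.FS (hS : S1 re h H X M μ t) :
    lPi (M t) * (mnT t + 2 * hint (psS (M t)) (M t)) ≤ Real.log (1 + t) ^ 2 * lcS t := by
  have ht : t ∈ Icc 0 t := ⟨hS.cx.t0, le_rfl⟩
  have h0 := hS.cx.Mnn ht
  have h1 := hS.Mt
  have hP := lPi_nn h0 h1
  have a1 := hS.F1
  have a2 := hS.F2
  have a3 := psS_le h0 h1
  have a4 := hS.log_le ht
  have a5 := hS.log_nn ht
  have a6 := lel_le hS.t_mem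
  have a7 := lel_nn hS.t_mem
  have a8 := lep_nn hS.t_mem
  set L := Real.log (1 + t) with hL
  have b1 : lel t ^ 2 ≤ L ^ 2 := pow_le_pow_left₀ a7 a6 2
  have b2 : lPi (M t) * (2 * hint (psS (M t)) (M t)) ≤ lep t * L ^ 2 :=
    ((mul_le_mul_of_nonneg_left (by linarith) hP).trans a1).trans
      (mul_le_mul_of_nonneg_left b1 a8)
  have b3 : (1 + 1021 / 100000 * L) ^ 2 ≤ (1 + 1021 / 100000 * hint gl (M t)) ^ 2 :=
    pow_le_pow_left₀ (by positivity) (by linarith) 2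
  have b4 : lPi (M t) * mnT t ≤ L ^ 2 * (lPi (M t) * ((101505 / 100000) ^ 2 *
      (1 + 1021 / 100000 * hint gl (M t)) ^ 2)) := by
    have c1 : 0 ≤ lPi (M t) * (101505 / 100000) ^ 2 * L ^ 2 := by positivity
    have c2 := mul_le_mul_of_nonneg_left b3 c1
    calc lPi (M t) * mnT t = lPi (M t) * (101505 / 100000) ^ 2 * L ^ 2 *
          (1 + 1021 / 100000 * L) ^ 2 := by unfold mnT; ring
      _ ≤ _ := c2
      _ = _ := by ring
  have b5 := mul_le_mul_of_nonneg_left a2 (sq_nonneg L)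
  have e : lPi (M t) * (mnT t + 2 * hint (psS (M t)) (M t)) = lPi (M t) * mnT t
      + lPi (M t) * (2 * hint (psS (M t)) (M t)) := by ring
  rw [e]
  linarith

/-- the walk form of one deleted vertex is bounded by the two-step vector -/
theorem NA_le (hX : Wt X) {u v w : V} (hw : w ∈ ({u, v} : Finset V)ᶜ) (p : V) :
    NA X ({u, v, w} : Finset V)ᶜ w p ≤ Zs X ({u, v} : Finset V)ᶜ p w := by
  have hsub : ({u, v, w} : Finset V)ᶜ ⊆ ({u, v} : Finset V)ᶜ := by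
    intro z hz
    simp only [Finset.mem_compl, Finset.mem_insert, Finset.mem_singleton, not_or] at hz ⊢
    exact ⟨hz.1, hz.2.1⟩
  have hR : ∀ b, 0 ≤ Rh X ({u, v, w} : Finset V)ᶜ p b := Rh_nonneg hX _ p
  have hRR : ∀ b, Rh X ({u, v, w} : Finset V)ᶜ p b ≤ Rh X ({u, v} : Finset V)ᶜ p b := fun b => by
    unfold Rh
    exact Res_mono (hX.rm_nonneg _) (hX.rm_nonneg _) (hX.rm_mono hsub) (hX.rm_row _) (hX.rm_row _)
      (by norm_num) (by norm_num) (fun b => Fc_nonneg (hX.nonneg p b)) (fun _ => le_rfl) b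
  have h1 : ∀ c, (rm X ({u, v, w} : Finset V)ᶜ *ᵥ Rh X ({u, v, w} : Finset V)ᶜ p) c
      ≤ (rm X ({u, v} : Finset V)ᶜ *ᵥ Rh X ({u, v} : Finset V)ᶜ p) c := fun c =>
    mulVec_mono2 (hX.rm_nonneg _) (hX.rm_mono hsub) hR hRR c
  have h2 : ∀ c, 0 ≤ (rm X ({u, v} : Finset V)ᶜ *ᵥ Rh X ({u, v} : Finset V)ᶜ p) c := fun c =>
    mulVec_nonneg (hX.rm_nonneg _) (fun b => Rh_nonneg hX _ p b) c
  unfold NA Zs
  rw [mulVec_rm_eq _ _ hw]
  refine (Finset.sum_le_sum fun c _ => mul_le_mul_of_nonneg_left (h1 c) (hX.nonneg w c)).trans ?_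
  exact Finset.sum_le_sum_of_subset_of_nonneg hsub fun c _ _ => mul_nonneg (hX.nonneg w c) (h2 c)

/-- **The estimate for small edges.** -/
theorem S1.est (hS : S1 re h H X M μ t) (hδ : ∀ a b, X a b ≤ 1 / 100)
    (hE1 : ERate h X t (102 / 100)) {u v : V} (hu : re u) (hv : re v) (huv : u ≠ v)
    {E E' : ℝ → ℝ} (hE : ∀ s ∈ Icc 0 t, HasDerivAt E (dE h u v s) s) (hE0 : E 0 = 0)
    (hE' : ∀ s ∈ Icc 0 t, HasDerivAt E' (dE h v u s) s) (hE'0 : E' 0 = 0) :
    bb h ∅ u t * bb h ∅ v t * Real.exp (E t + E' t) *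
      (1 - (t ^ 4 / 50 * X u v
        + Real.log (1 + t) ^ 2 * (1035 / 1000 + 3 / 100 * t + 1 / 20 * t ^ 3) *
          ∑ w ∈ ({u, v} : Finset V)ᶜ, X u w * X v w
        + K0p t * (
          81 / 100 * (∑ w ∈ ({u, v} : Finset V)ᶜ, X u w * Zs X ({u, v} : Finset V)ᶜ v w
            + ∑ w ∈ ({u, v} : Finset V)ᶜ, X v w * Zs X ({u, v} : Finset V)ᶜ u w)
          + 3174 / 1000 * F12 X ({u, v} : Finset V)ᶜ (X u) (X v)
          + 446 / 1000 * (F12 X ({u, v} : Finset V)ᶜ (X u) (Zs X ({u, v} : Finset V)ᶜ v)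
            + F12 X ({u, v} : Finset V)ᶜ (X v) (Zs X ({u, v} : Finset V)ᶜ u))
          + 69 / 1000 * F12 X ({u, v} : Finset V)ᶜ (Zs X ({u, v} : Finset V)ᶜ u)
            (Zs X ({u, v} : Finset V)ᶜ v))))
      ≤ Real.exp (H u v t) * pp h u v t := by
  have hC := hS.cx
  have hh := hC.hh
  have hX := hC.hX
  have ht : t ∈ Icc 0 t := ⟨hC.t0, le_rfl⟩
  obtain ⟨a, b, ha, hb, wa, wb, hab⟩ := hS.WX hu hv huv hE hE0 hE' hE'0
  have hG := hC.gx_s hδ hS.clk hE1 huv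
  have f0 := hS.F0
  have fS := hS.FS
  have f4 := hS.F4
  have g4 := ps4_le (hC.Mnn ht) hS.Mt
  have hP := lPi_nn (hC.Mnn ht) hS.Mt
  rw [lcS_eq] at fS
  set D := ({u, v} : Finset V)ᶜ with hD
  obtain ⟨G, hGd⟩ : ∃ G, G = K0p t * (
        3174 / 1000 * F12 X D (X u) (X v)
        + 446 / 1000 * (F12 X D (X u) (Zs X D v) + F12 X D (X v) (Zs X D u))
        + 69 / 1000 * F12 X D (Zs X D u) (Zs X D v)) := ⟨_, rfl⟩
  rw [← hGd] at hG
  obtain ⟨S, hSd⟩ : ∃ S, S = ∑ w ∈ D, X u w * X v w := ⟨_, rfl⟩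
  obtain ⟨Q, hQd⟩ : ∃ Q, Q = ∑ w ∈ D, X u w * Zs X D v w + ∑ w ∈ D, X v w * Zs X D u w :=
    ⟨_, rfl⟩
  have hS0 : 0 ≤ S := by
    rw [hSd]; exact Finset.sum_nonneg fun w _ => mul_nonneg (hX.nonneg _ _) (hX.nonneg _ _)
  have hQ0 : 0 ≤ Q := by
    rw [hQd]
    exact add_nonneg
      (Finset.sum_nonneg fun w _ => mul_nonneg (hX.nonneg _ _) (Zs_nonneg hX D v w))
      (Finset.sum_nonneg fun w _ => mul_nonneg (hX.nonneg _ _) (Zs_nonneg hX D u w))
  have hx := hX.nonneg u v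
  -- the bound of `a + b`
  have hab2 : a + b ≤ t ^ 4 / 50 * X u v
      + Real.log (1 + t) ^ 2 * (1035 / 1000 + 3 / 100 * t + 1 / 20 * t ^ 3) * S
      + 81 / 100 * K0p t * Q := by
    have n1 : ∑ w ∈ D, X v w * NA X ({u, v, w} : Finset V)ᶜ w u
          + ∑ w ∈ D, X u w * NA X ({u, v, w} : Finset V)ᶜ w v ≤ Q := by
      rw [hQd, add_comm]
      exact add_le_add
        (Finset.sum_le_sum fun w hw => mul_le_mul_of_nonneg_left (NA_le hX hw v) (hX.nonneg _ _))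
        (Finset.sum_le_sum fun w hw => mul_le_mul_of_nonneg_left (NA_le hX hw u) (hX.nonneg _ _))
    have e4 : 0 ≤ ∑ w ∈ D, X v w * NA X ({u, v, w} : Finset V)ᶜ w u
          + ∑ w ∈ D, X u w * NA X ({u, v, w} : Finset V)ᶜ w v :=
      add_nonneg
        (Finset.sum_nonneg fun w _ => mul_nonneg (hX.nonneg _ _) (NA_nonneg hX _ _ _))
        (Finset.sum_nonneg fun w _ => mul_nonneg (hX.nonneg _ _) (NA_nonneg hX _ _ _))
    obtain ⟨q, hq⟩ : ∃ q, q = ∑ w ∈ D, X v w * NA X ({u, v, w} : Finset V)ᶜ w u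
          + ∑ w ∈ D, X u w * NA X ({u, v, w} : Finset V)ᶜ w v := ⟨_, rfl⟩
    rw [← hq] at n1 e4 hab
    rw [← hSd] at hab
    have p1 : lPi (M t) = (1 + eqT (M t)) * (1 + alT (M t)) := by
      unfold lPi; rw [q_one]
    rw [← p1] at hab
    have m1 := mul_le_mul_of_nonneg_right f0 hx
    have m2 := mul_le_mul_of_nonneg_right fS hS0
    have m3 : lPi (M t) * hint (ps4 (M t)) (M t) ≤ 81 / 100 * K0p t :=
      (mul_le_mul_of_nonneg_left g4 hP).trans f4
    have m4 := mul_le_mul_of_nonneg_right m3 e4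
    have m5 : 81 / 100 * K0p t * q ≤ 81 / 100 * K0p t * Q := by
      refine mul_le_mul_of_nonneg_left n1 ?_
      rw [K0p_real]
      have ht1 := hS.t_mem
      have h1 : t ^ 2 ≤ 1 := by nlinarith [ht1.1, ht1.2]
      have h3 : t ^ 3 ≤ t ^ 2 := by nlinarith [ht1.1, ht1.2, sq_nonneg t]
      have : 0 ≤ 1 / 8 - 3 / 20 * t + 1 / 10 * t ^ 2 - 27 / 1000 * t ^ 3 := by
        nlinarith [sq_nonneg (t - 1), ht1.1, ht1.2]
      have h4 := pow_nonneg ht1.1 4
      positivity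
    refine hab.trans ?_
    calc _ = 2 * KoT (M t) * X u v
          + lPi (M t) * (mnT t + 2 * hint (psS (M t)) (M t)) * S
          + lPi (M t) * hint (ps4 (M t)) (M t) * q := by ring
      _ ≤ _ := by linarith
  have hK0 : 0 ≤ K0p t := by
    rw [K0p_real]
    have ht1 := hS.t_mem
    have h1 : t ^ 2 ≤ 1 := by nlinarith [ht1.1, ht1.2]
    have h3 : t ^ 3 ≤ t ^ 2 := by nlinarith [ht1.1, ht1.2, sq_nonneg t]
    have : 0 ≤ 1 / 8 - 3 / 20 * t + 1 / 10 * t ^ 2 - 27 / 1000 * t ^ 3 := by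
      nlinarith [sq_nonneg (t - 1), ht1.1, ht1.2]
    have h4 := pow_nonneg ht1.1 4
    positivity
  have hG0 : 0 ≤ G := by
    rw [hGd]
    have f1 := F12_nonneg hX D (hX.nonneg u) (hX.nonneg v)
    have f2 := F12_nonneg hX D (hX.nonneg u) (Zs_nonneg hX D v)
    have f3 := F12_nonneg hX D (hX.nonneg v) (Zs_nonneg hX D u)
    have f4 := F12_nonneg hX D (Zs_nonneg hX D u) (Zs_nonneg hX D v)
    positivity
  -- the product
  have B1 : 0 < bb h {v} u t := bb_pos hh (by simpa using huv) hC.ht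
  have B2 : 0 < bb h {u} v t := bb_pos hh (by simpa using huv.symm) hC.ht
  have q1 : bb h ∅ u t * Real.exp (E t) ≤ (1 + a) * bb h {v} u t := by
    unfold Wr at wa
    rw [div_le_iff₀ B1] at wa
    have := mul_le_mul_of_nonneg_right wa (Real.exp_pos (E t)).le
    refine this.trans (le_of_eq ?_)
    have e : Real.exp (-E t) * Real.exp (E t) = 1 := by
      rw [← Real.exp_add, neg_add_cancel, Real.exp_zero]
    calc _ = (Real.exp (-E t) * Real.exp (E t)) * ((1 + a) * bb h {v} u t) := by ring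
      _ = _ := by rw [e, one_mul]
  have q2 : bb h ∅ v t * Real.exp (E' t) ≤ (1 + b) * bb h {u} v t := by
    unfold Wr at wb
    rw [div_le_iff₀ B2] at wb
    have := mul_le_mul_of_nonneg_right wb (Real.exp_pos (E' t)).le
    refine this.trans (le_of_eq ?_)
    have e : Real.exp (-E' t) * Real.exp (E' t) = 1 := by
      rw [← Real.exp_add, neg_add_cancel, Real.exp_zero]
    calc _ = (Real.exp (-E' t) * Real.exp (E' t)) * ((1 + b) * bb h {u} v t) := by ring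
      _ = _ := by rw [e, one_mul]
  have q3 : bb h ∅ u t * bb h ∅ v t * Real.exp (E t + E' t)
      ≤ (1 + a) * (1 + b) * (bb h {v} u t * bb h {u} v t) := by
    have u0 : 0 ≤ bb h ∅ v t * Real.exp (E' t) :=
      mul_nonneg (bb_nonneg hh _ _ hC.ht) (Real.exp_pos _).le
    have u1 : 0 ≤ (1 + a) * bb h {v} u t := mul_nonneg (by linarith) B1.le
    calc _ = (bb h ∅ u t * Real.exp (E t)) * (bb h ∅ v t * Real.exp (E' t)) := by
          rw [Real.exp_add]; ring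
      _ ≤ ((1 + a) * bb h {v} u t) * ((1 + b) * bb h {u} v t) := mul_le_mul q1 q2 u0 u1
      _ = _ := by ring
  have q0 : 0 ≤ bb h ∅ u t * bb h ∅ v t * Real.exp (E t + E' t) :=
    mul_nonneg (mul_nonneg (bb_nonneg hh _ _ hC.ht) (bb_nonneg hh _ _ hC.ht)) (Real.exp_pos _).le
  have hpp : 0 ≤ Real.exp (H u v t) * pp h u v t :=
    mul_nonneg (Real.exp_pos _).le (pp_nonneg hh _ _ hC.ht)
  have hBB : 0 ≤ bb h {v} u t * bb h {u} v t := mul_nonneg B1.le B2.le
  -- replace the cost by `a + b + G`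
  have r1 : 1 - (t ^ 4 / 50 * X u v
        + Real.log (1 + t) ^ 2 * (1035 / 1000 + 3 / 100 * t + 1 / 20 * t ^ 3) *
          ∑ w ∈ D, X u w * X v w
        + K0p t * (
          81 / 100 * (∑ w ∈ D, X u w * Zs X D v w + ∑ w ∈ D, X v w * Zs X D u w)
          + 3174 / 1000 * F12 X D (X u) (X v)
          + 446 / 1000 * (F12 X D (X u) (Zs X D v) + F12 X D (X v) (Zs X D u))
          + 69 / 1000 * F12 X D (Zs X D u) (Zs X D v))) ≤ 1 - (a + b + G) := by
    rw [hSd, hQd] at hab2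
    rw [hGd]
    linarith
  refine (mul_le_mul_of_nonneg_left r1 q0).trans ?_
  by_cases hneg : 1 - (a + b + G) ≤ 0
  · exact (mul_nonpos_of_nonneg_of_nonpos q0 hneg).trans hpp
  · push Not at hneg
    refine (mul_le_mul_of_nonneg_right q3 hneg.le).trans ?_
    refine le_trans ?_ hG
    have r2 : (1 + a) * (1 + b) * (1 - (a + b + G)) ≤ 1 - G := by
      have s1 : 0 ≤ a * b := mul_nonneg ha hb
      have s2 : 0 ≤ (a + b) * G := mul_nonneg (by linarith) hG0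
      have s3 : 0 ≤ a * b * (a + b) := mul_nonneg s1 (by linarith)
      have s4 : 0 ≤ a * b * G := mul_nonneg s1 hG0
      nlinarith [sq_nonneg a, sq_nonneg b]
    calc _ = (bb h {v} u t * bb h {u} v t) * ((1 + a) * (1 + b) * (1 - (a + b + G))) := by ring
      _ ≤ _ := mul_le_mul_of_nonneg_left r2 hBB

end Pool.Agent.RCG
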