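import Pool.Agent.RCG.FamY
import Pool.Agent.RCG.SupR

/-! Sup-level bounds for small weights `x ≤ 1/10` (MP_73ccd0_lc, general graphs). -/

namespace Pool.Agent.RCG

open Set Finset Matrix Pool.Agent.RCRSHalf

set_option linter.unusedSectionVars false

variable {V : Type*} [Fintype V] [DecidableEq V]
variable {h : ℝ → V → V → ℝ} {H : V → V → ℝ → ℝ} {X : V → V → ℝ} {M μ : ℝ → ℝ} {t : ℝ}

/-- `p` has only small weights, except to its pendant vertices -/
def Rl (X : V → V → ℝ) (p : V) : Prop := ∀ a, X p a ≤ 1 / 10 ∨ ∀ r, r ≠ p → X a r = 0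

/-- for a vertex `a ≠ p` with another neighbour -/
theorem Rl.le {p : V} (hp : Rl X p) {a b : V} (hb : b ≠ p) (hab : X a b ≠ 0) :
    X p a ≤ 1 / 10 := (hp a).resolve_right fun h => hab (h b hb)

/-! ### Data of a target function at the horizon `m` -/

structure Dv (X : V → V → ℝ) (H0 : Finset V) (P N : V → ℝ) (pb S nb SN : ℝ) : Prop where
  ex : ∃ p : V → ℝ, (∀ a ∈ H0, 0 ≤ p a) ∧ (∀ a ∈ H0, 1 + P a ≤ Real.exp (p a)) ∧
    (∀ a ∈ H0, ∀ b ∈ H0, X a b ≠ 0 → p a ≤ pb) ∧ ∑ a ∈ H0, rho X H0 a * p a ≤ S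
  P0 : ∀ a ∈ H0, 0 ≤ P a
  N0 : ∀ a ∈ H0, 0 ≤ N a
  nb : ∀ a ∈ H0, N a ≤ nb
  sN : ∑ a ∈ H0, rho X H0 a * N a ≤ SN

theorem half_rho (hX : Wt X) {H0 : Finset V} (f : V → ℝ) :
    (1 / 2) * ∑ a ∈ H0, ∑ b ∈ H0, X a b * (f a + f b) = ∑ a ∈ H0, rho X H0 a * f a := by
  have e1 : ∑ a ∈ H0, ∑ b ∈ H0, X a b * f b = ∑ a ∈ H0, ∑ b ∈ H0, X a b * f a := by
    rw [Finset.sum_comm]
    refine Finset.sum_congr rfl fun a _ => Finset.sum_congr rfl fun b _ => ?_
    rw [hX.symm]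
  have e2 : ∑ a ∈ H0, ∑ b ∈ H0, X a b * (f a + f b)
      = ∑ a ∈ H0, ∑ b ∈ H0, X a b * f a + ∑ a ∈ H0, ∑ b ∈ H0, X a b * f b := by
    rw [← Finset.sum_add_distrib]
    refine Finset.sum_congr rfl fun a _ => ?_
    rw [← Finset.sum_add_distrib]
    exact Finset.sum_congr rfl fun b _ => by ring
  rw [e2, e1]
  have e3 : ∑ a ∈ H0, ∑ b ∈ H0, X a b * f a = ∑ a ∈ H0, rho X H0 a * f a := by
    refine Finset.sum_congr rfl fun a ha => ?_
    rw [rho_in ha, Finset.sum_mul]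
  rw [e3]; ring

/-- the upper pair rate -/
theorem Dv.ru2 (hX : Wt X) {H0 : Finset V} {P N P' N' : V → ℝ} {pb S nb SN pb' S' nb' SN' : ℝ}
    (hD : Dv X H0 P N pb S nb SN) (hD' : Dv X H0 P' N' pb' S' nb' SN') (hpb : 0 ≤ pb)
    (hpb' : 0 ≤ pb') (hnb : 0 ≤ nb) (hnb' : 0 ≤ nb')
    {κ κ' : ℝ} (hκ0 : 0 ≤ κ) (hκ0' : 0 ≤ κ')
    (hκ : ∀ x ∈ Icc 0 (2 * pb), Real.exp x - 1 ≤ κ * x)
    (hκ' : ∀ x ∈ Icc 0 (2 * pb'), Real.exp x - 1 ≤ κ' * x)
    {hr : V → V → ℝ} (h0 : ∀ a b, 0 ≤ hr a b) {μr : ℝ} (hμ : 0 ≤ μr)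
    (hle : ∀ a b, hr a b ≤ μr * X a b) :
    ru2 hr H0 P N P' N' ≤ μr * (κ * κ' * (pb * S' + pb' * S) + (nb * SN' + nb' * SN)) := by
  obtain ⟨p, p0, pe, pa, ps⟩ := hD.ex
  obtain ⟨p', p0', pe', pa', ps'⟩ := hD'.ex
  have key : ∀ a ∈ H0, ∀ b ∈ H0, hr a b *
      (((1 + P a) * (1 + P b) - 1) * ((1 + P' a) * (1 + P' b) - 1) + (N a + N b) * (N' a + N' b))
      ≤ μr * (κ * κ' * pb * (X a b * (p' a + p' b)) + κ * κ' * pb' * (X a b * (p a + p b))
        + nb * (X a b * (N' a + N' b)) + nb' * (X a b * (N a + N b))) := by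
    intro a ha b hb
    by_cases hx : X a b = 0
    · have : hr a b = 0 := le_antisymm (by simpa [hx] using hle a b) (h0 a b)
      rw [this, hx]; simp
    have hx' : X b a ≠ 0 := by rwa [hX.symm b a]
    have a1 := pa a ha b hb hx
    have a2 := pa b hb a ha hx'
    have b1 := pa' a ha b hb hx
    have b2 := pa' b hb a ha hx'
    have q1 := p0 a ha; have q2 := p0 b hb; have r1 := p0' a ha; have r2 := p0' b hb
    have c1 : (1 + P a) * (1 + P b) - 1 ≤ κ * (p a + p b) := by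
      have h1 : (1 + P a) * (1 + P b) ≤ Real.exp (p a) * Real.exp (p b) :=
        mul_le_mul (pe a ha) (pe b hb) (by linarith [hD.P0 b hb]) (Real.exp_pos _).le
      rw [← Real.exp_add] at h1
      have h2 := hκ (p a + p b) ⟨by linarith, by linarith⟩
      linarith
    have c2 : (1 + P' a) * (1 + P' b) - 1 ≤ κ' * (p' a + p' b) := by
      have h1 : (1 + P' a) * (1 + P' b) ≤ Real.exp (p' a) * Real.exp (p' b) :=
        mul_le_mul (pe' a ha) (pe' b hb) (by linarith [hD'.P0 b hb]) (Real.exp_pos _).le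
      rw [← Real.exp_add] at h1
      have h2 := hκ' (p' a + p' b) ⟨by linarith, by linarith⟩
      linarith
    have d1 : 0 ≤ (1 + P a) * (1 + P b) - 1 := by
      have h1 := hD.P0 a ha; have h2 := hD.P0 b hb
      nlinarith [mul_nonneg h1 h2]
    have d2 : 0 ≤ (1 + P' a) * (1 + P' b) - 1 := by
      have h1 := hD'.P0 a ha; have h2 := hD'.P0 b hb
      nlinarith [mul_nonneg h1 h2]
    have n1 := hD.N0 a ha; have n2 := hD.N0 b hb; have n3 := hD'.N0 a ha; have n4 := hD'.N0 b hb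
    have m1 := hD.nb a ha; have m2 := hD.nb b hb; have m3 := hD'.nb a ha; have m4 := hD'.nb b hb
    have hxn := hX.nonneg a b
    have e1 : ((1 + P a) * (1 + P b) - 1) * ((1 + P' a) * (1 + P' b) - 1)
        ≤ κ * κ' * ((p a + p b) * (p' a + p' b)) := by
      have := mul_le_mul c1 c2 d2 (d1.trans c1)
      linarith
    have e2 : (p a + p b) * (p' a + p' b) ≤ pb * (p' a + p' b) + pb' * (p a + p b) := by
      nlinarith [mul_nonneg (show 0 ≤ 2 * pb - (p a + p b) by linarith)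
        (show 0 ≤ p' a + p' b by linarith), mul_nonneg (show 0 ≤ 2 * pb' - (p' a + p' b) by linarith)
        (show 0 ≤ p a + p b by linarith)]
    have e3 : (N a + N b) * (N' a + N' b) ≤ nb * (N' a + N' b) + nb' * (N a + N b) := by
      nlinarith [mul_nonneg (show 0 ≤ 2 * nb - (N a + N b) by linarith)
        (show 0 ≤ N' a + N' b by linarith), mul_nonneg (show 0 ≤ 2 * nb' - (N' a + N' b) by linarith)
        (show 0 ≤ N a + N b by linarith)]
    have e4 := mul_le_mul_of_nonneg_left e2 (mul_nonneg hκ0 hκ0')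
    have hin : 0 ≤ ((1 + P a) * (1 + P b) - 1) * ((1 + P' a) * (1 + P' b) - 1)
        + (N a + N b) * (N' a + N' b) := by
      have := mul_nonneg d1 d2
      have := mul_nonneg (show 0 ≤ N a + N b by linarith) (show 0 ≤ N' a + N' b by linarith)
      linarith
    calc _ ≤ (μr * X a b) * (((1 + P a) * (1 + P b) - 1) * ((1 + P' a) * (1 + P' b) - 1)
          + (N a + N b) * (N' a + N' b)) := mul_le_mul_of_nonneg_right (hle a b) hin
      _ ≤ (μr * X a b) * (κ * κ' * (pb * (p' a + p' b) + pb' * (p a + p b))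
          + (nb * (N' a + N' b) + nb' * (N a + N b))) := by
          refine mul_le_mul_of_nonneg_left ?_ (mul_nonneg hμ hxn)
          linarith
      _ = _ := by ring
  unfold Pool.Agent.RCG.ru2 k2R
  have s1 : ∑ a ∈ H0, ∑ b ∈ H0, hr a b *
      (((1 + P a) * (1 + P b) - 1) * ((1 + P' a) * (1 + P' b) - 1) + (N a + N b) * (N' a + N' b))
      ≤ ∑ a ∈ H0, ∑ b ∈ H0, μr * (κ * κ' * pb * (X a b * (p' a + p' b))
        + κ * κ' * pb' * (X a b * (p a + p b))
        + nb * (X a b * (N' a + N' b)) + nb' * (X a b * (N a + N b))) :=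
    Finset.sum_le_sum fun a ha => Finset.sum_le_sum fun b hb => key a ha b hb
  have s2 : ∑ a ∈ H0, ∑ b ∈ H0, μr * (κ * κ' * pb * (X a b * (p' a + p' b))
        + κ * κ' * pb' * (X a b * (p a + p b))
        + nb * (X a b * (N' a + N' b)) + nb' * (X a b * (N a + N b)))
      = μr * (κ * κ' * pb * ∑ a ∈ H0, ∑ b ∈ H0, X a b * (p' a + p' b)
        + κ * κ' * pb' * ∑ a ∈ H0, ∑ b ∈ H0, X a b * (p a + p b)
        + nb * ∑ a ∈ H0, ∑ b ∈ H0, X a b * (N' a + N' b)
        + nb' * ∑ a ∈ H0, ∑ b ∈ H0, X a b * (N a + N b)) := by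
    simp only [Finset.mul_sum, ← Finset.sum_add_distrib]
  have t1 := half_rho hX (H0 := H0) p'
  have t2 := half_rho hX (H0 := H0) p
  have t3 := half_rho hX (H0 := H0) N'
  have t4 := half_rho hX (H0 := H0) N
  have u1 := mul_le_mul_of_nonneg_left ps' (mul_nonneg (mul_nonneg hκ0 hκ0') hpb)
  have u2 := mul_le_mul_of_nonneg_left ps (mul_nonneg (mul_nonneg hκ0 hκ0') hpb')
  have u3 := mul_le_mul_of_nonneg_left hD'.sN hnb
  have u4 := mul_le_mul_of_nonneg_left hD.sN hnb'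
  rw [← t1] at u1
  rw [← t2] at u2
  rw [← t3] at u3
  rw [← t4] at u4
  have s3 := mul_le_mul_of_nonneg_left (s1.trans s2.le) (show (0 : ℝ) ≤ 1 / 2 by norm_num)
  have s4 := mul_le_mul_of_nonneg_left (add_le_add (add_le_add u1 u2) (add_le_add u3 u4)) hμ
  refine s3.trans (le_trans (le_of_eq ?_) (s4.trans (le_of_eq ?_)))
  · ring
  · ring

/-- the lower pair rate -/
theorem Dv.rl2 (hX : Wt X) {H0 : Finset V} {P N P' N' : V → ℝ} {pb S nb SN pb' S' nb' SN' : ℝ}
    (hD : Dv X H0 P N pb S nb SN) (hD' : Dv X H0 P' N' pb' S' nb' SN') (hpb : 0 ≤ pb)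
    (hpb' : 0 ≤ pb') (hnb : 0 ≤ nb) (hnb' : 0 ≤ nb')
    {κ κ' : ℝ} (hκ0 : 0 ≤ κ) (hκ0' : 0 ≤ κ')
    (hκ : ∀ x ∈ Icc 0 (2 * pb), Real.exp x - 1 ≤ κ * x)
    (hκ' : ∀ x ∈ Icc 0 (2 * pb'), Real.exp x - 1 ≤ κ' * x)
    {hr : V → V → ℝ} (h0 : ∀ a b, 0 ≤ hr a b) {μr : ℝ} (hμ : 0 ≤ μr)
    (hle : ∀ a b, hr a b ≤ μr * X a b) :
    rl2 hr H0 P N P' N' ≤ μr * (κ' * (nb * S' + pb' * SN) + κ * (nb' * S + pb * SN')) := by
  obtain ⟨p, p0, pe, pa, ps⟩ := hD.ex
  obtain ⟨p', p0', pe', pa', ps'⟩ := hD'.ex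
  have key : ∀ a ∈ H0, ∀ b ∈ H0, hr a b *
      ((N a + N b) * ((1 + P' a) * (1 + P' b) - 1)
          + (N' a + N' b) * ((1 + P a) * (1 + P b) - 1))
      ≤ μr * (κ' * nb * (X a b * (p' a + p' b)) + κ' * pb' * (X a b * (N a + N b))
        + κ * nb' * (X a b * (p a + p b)) + κ * pb * (X a b * (N' a + N' b))) := by
    intro a ha b hb
    by_cases hx : X a b = 0
    · have : hr a b = 0 := le_antisymm (by simpa [hx] using hle a b) (h0 a b)
      rw [this, hx]; simp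
    have hx' : X b a ≠ 0 := by rwa [hX.symm b a]
    have a1 := pa a ha b hb hx
    have a2 := pa b hb a ha hx'
    have b1 := pa' a ha b hb hx
    have b2 := pa' b hb a ha hx'
    have q1 := p0 a ha; have q2 := p0 b hb; have r1 := p0' a ha; have r2 := p0' b hb
    have c1 : (1 + P a) * (1 + P b) - 1 ≤ κ * (p a + p b) := by
      have h1 : (1 + P a) * (1 + P b) ≤ Real.exp (p a) * Real.exp (p b) :=
        mul_le_mul (pe a ha) (pe b hb) (by linarith [hD.P0 b hb]) (Real.exp_pos _).le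
      rw [← Real.exp_add] at h1
      have h2 := hκ (p a + p b) ⟨by linarith, by linarith⟩
      linarith
    have c2 : (1 + P' a) * (1 + P' b) - 1 ≤ κ' * (p' a + p' b) := by
      have h1 : (1 + P' a) * (1 + P' b) ≤ Real.exp (p' a) * Real.exp (p' b) :=
        mul_le_mul (pe' a ha) (pe' b hb) (by linarith [hD'.P0 b hb]) (Real.exp_pos _).le
      rw [← Real.exp_add] at h1
      have h2 := hκ' (p' a + p' b) ⟨by linarith, by linarith⟩
      linarith
    have d1 : 0 ≤ (1 + P a) * (1 + P b) - 1 := by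
      have h1 := hD.P0 a ha; have h2 := hD.P0 b hb
      nlinarith [mul_nonneg h1 h2]
    have d2 : 0 ≤ (1 + P' a) * (1 + P' b) - 1 := by
      have h1 := hD'.P0 a ha; have h2 := hD'.P0 b hb
      nlinarith [mul_nonneg h1 h2]
    have n1 := hD.N0 a ha; have n2 := hD.N0 b hb; have n3 := hD'.N0 a ha; have n4 := hD'.N0 b hb
    have m1 := hD.nb a ha; have m2 := hD.nb b hb; have m3 := hD'.nb a ha; have m4 := hD'.nb b hb
    have hxn := hX.nonneg a b
    have e1 : (N a + N b) * ((1 + P' a) * (1 + P' b) - 1)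
        ≤ κ' * ((N a + N b) * (p' a + p' b)) := by
      have := mul_le_mul_of_nonneg_left c2 (show 0 ≤ N a + N b by linarith)
      linarith
    have e1' : (N' a + N' b) * ((1 + P a) * (1 + P b) - 1)
        ≤ κ * ((N' a + N' b) * (p a + p b)) := by
      have := mul_le_mul_of_nonneg_left c1 (show 0 ≤ N' a + N' b by linarith)
      linarith
    have e2 : (N a + N b) * (p' a + p' b) ≤ nb * (p' a + p' b) + pb' * (N a + N b) := by
      nlinarith [mul_nonneg (show 0 ≤ 2 * nb - (N a + N b) by linarith)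
        (show 0 ≤ p' a + p' b by linarith), mul_nonneg (show 0 ≤ 2 * pb' - (p' a + p' b) by linarith)
        (show 0 ≤ N a + N b by linarith)]
    have e2' : (N' a + N' b) * (p a + p b) ≤ nb' * (p a + p b) + pb * (N' a + N' b) := by
      nlinarith [mul_nonneg (show 0 ≤ 2 * nb' - (N' a + N' b) by linarith)
        (show 0 ≤ p a + p b by linarith), mul_nonneg (show 0 ≤ 2 * pb - (p a + p b) by linarith)
        (show 0 ≤ N' a + N' b by linarith)]
    have e4 := mul_le_mul_of_nonneg_left e2 hκ0'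
    have e4' := mul_le_mul_of_nonneg_left e2' hκ0
    have hin : 0 ≤ (N a + N b) * ((1 + P' a) * (1 + P' b) - 1)
          + (N' a + N' b) * ((1 + P a) * (1 + P b) - 1) := by
      have := mul_nonneg (show 0 ≤ N a + N b by linarith) d2
      have := mul_nonneg (show 0 ≤ N' a + N' b by linarith) d1
      linarith
    calc _ ≤ (μr * X a b) * ((N a + N b) * ((1 + P' a) * (1 + P' b) - 1)
          + (N' a + N' b) * ((1 + P a) * (1 + P b) - 1)) :=
          mul_le_mul_of_nonneg_right (hle a b) hin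
      _ ≤ (μr * X a b) * (κ' * (nb * (p' a + p' b) + pb' * (N a + N b))
          + κ * (nb' * (p a + p b) + pb * (N' a + N' b))) := by
          refine mul_le_mul_of_nonneg_left ?_ (mul_nonneg hμ hxn)
          linarith
      _ = _ := by ring
  unfold Pool.Agent.RCG.rl2
  have s1 : ∑ a ∈ H0, ∑ b ∈ H0, hr a b *
      ((N a + N b) * ((1 + P' a) * (1 + P' b) - 1)
          + (N' a + N' b) * ((1 + P a) * (1 + P b) - 1))
      ≤ ∑ a ∈ H0, ∑ b ∈ H0, μr * (κ' * nb * (X a b * (p' a + p' b))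
        + κ' * pb' * (X a b * (N a + N b))
        + κ * nb' * (X a b * (p a + p b)) + κ * pb * (X a b * (N' a + N' b))) :=
    Finset.sum_le_sum fun a ha => Finset.sum_le_sum fun b hb => key a ha b hb
  have s2 : ∑ a ∈ H0, ∑ b ∈ H0, μr * (κ' * nb * (X a b * (p' a + p' b))
        + κ' * pb' * (X a b * (N a + N b))
        + κ * nb' * (X a b * (p a + p b)) + κ * pb * (X a b * (N' a + N' b)))
      = μr * (κ' * nb * ∑ a ∈ H0, ∑ b ∈ H0, X a b * (p' a + p' b)
        + κ' * pb' * ∑ a ∈ H0, ∑ b ∈ H0, X a b * (N a + N b)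
        + κ * nb' * ∑ a ∈ H0, ∑ b ∈ H0, X a b * (p a + p b)
        + κ * pb * ∑ a ∈ H0, ∑ b ∈ H0, X a b * (N' a + N' b)) := by
    simp only [Finset.mul_sum, ← Finset.sum_add_distrib]
  have t1 := half_rho hX (H0 := H0) p'
  have t2 := half_rho hX (H0 := H0) p
  have t3 := half_rho hX (H0 := H0) N'
  have t4 := half_rho hX (H0 := H0) N
  have u1 := mul_le_mul_of_nonneg_left ps' (mul_nonneg hκ0' hnb)
  have u2 := mul_le_mul_of_nonneg_left hD.sN (mul_nonneg hκ0' hpb')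
  have u3 := mul_le_mul_of_nonneg_left ps (mul_nonneg hκ0 hnb')
  have u4 := mul_le_mul_of_nonneg_left hD'.sN (mul_nonneg hκ0 hpb)
  rw [← t1] at u1
  rw [← t4] at u2
  rw [← t2] at u3
  rw [← t3] at u4
  have s3 := mul_le_mul_of_nonneg_left (s1.trans s2.le) (show (0 : ℝ) ≤ 1 / 2 by norm_num)
  have s4 := mul_le_mul_of_nonneg_left (add_le_add (add_le_add u1 u2) (add_le_add u3 u4)) hμ
  refine s3.trans (le_trans (le_of_eq ?_) (s4.trans (le_of_eq ?_)))
  · ring
  · ring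

end Pool.Agent.RCG
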