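import Pool.Agent.RCGF.Em9

/-! The own gains of both ends of a real edge at stage 1 (MP_73ccd0_lc, general graphs). -/

namespace Pool.Agent.RCG

open Set Finset Matrix Pool.Agent.RCRSHalf

set_option linter.unusedSectionVars false

variable {V : Type*} [Fintype V] [DecidableEq V]
variable {h : ℝ → V → V → ℝ} {H : V → V → ℝ → ℝ} {X : V → V → ℝ} {M μ : ℝ → ℝ} {t : ℝ}
variable {re : V → Prop}

/-- the symmetric density that bounds both `dE h p q` and `dE h q p` -/
noncomputable def sE (h : ℝ → V → V → ℝ) (p q : V) (s : ℝ) : ℝ := (1 + s) * (h s p q * pp h p q s)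

theorem sE_symm (hh : Haz h H) (p q : V) (s : ℝ) : sE h p q s = sE h q p s := by
  unfold sE pp
  rw [hh.symm s p q, Finset.pair_comm p q]

theorem sE_cont (hh : Haz h H) (p q : V) : ContinuousOn (sE h p q) (Icc 0 1) := by
  have h1 : ContinuousOn (fun s => h s p q) (Icc (0 : ℝ) 1) := (hh.cont p q).continuousOn
  have h2 : ContinuousOn (fun s : ℝ => 1 + s) (Icc (0 : ℝ) 1) := by fun_prop
  exact h2.mul (h1.mul (pp_cont hh p q))

theorem S1.dE_sE (hS : S1 re h H X M μ t) {p q : V} (hp : re p) {s : ℝ} (hs : s ∈ Icc 0 t) :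
    dE h p q s ≤ sE h p q s := by
  have hh := hS.cx.hh
  have h1 : 0 < 1 + s := by linarith [hs.1]
  have h2 := hS.b_lo p hp s hs
  have h3 : 0 < bb h ∅ p s := lt_of_lt_of_le (by positivity) h2
  have h4 : 0 ≤ h s p q * pp h p q s :=
    mul_nonneg (hh.nonneg _ _ _) (pp_nonneg hh _ _ (hS.cx.mem hs))
  unfold dE sE
  rw [div_le_iff₀ h3]
  have h5 : 1 ≤ (1 + s) * bb h ∅ p s := by
    rw [div_le_iff₀ h1] at h2; linarith
  nlinarith

theorem S1.sE_dE (hS : S1 re h H X M μ t) {p q : V} (hp : re p) {s : ℝ} (hs : s ∈ Icc 0 t) :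
    sE h p q s ≤ 1005 / 1000 * dE h p q s := by
  have hh := hS.cx.hh
  have h1 : 0 < 1 + s := by linarith [hs.1]
  have h2 := hS.b_lo p hp s hs
  have h3 : 0 < bb h ∅ p s := lt_of_lt_of_le (by positivity) h2
  have h4 : 0 ≤ h s p q * pp h p q s :=
    mul_nonneg (hh.nonneg _ _ _) (pp_nonneg hh _ _ (hS.cx.mem hs))
  have h5 := hS.b_up p hp s hs
  unfold dE sE
  rw [← mul_div_assoc, le_div_iff₀ h3]
  have h6 : (1 + s) * bb h ∅ p s ≤ 1005 / 1000 := by
    rw [le_div_iff₀ h1] at h5; linarith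
  nlinarith

/-- a pendant vertex has no positive term in the N-part -/
theorem S1.T1p (hS : S1 re h H X M μ t) {u v w : V} (hw : ∃ c, ∀ r, r ≠ c → X w r = 0)
    (huv : u ≠ v) (huw : u ≠ w) {s : ℝ} (hs : s ∈ Icc 0 t) :
    h s v w * ex (lw h ∅ s) {u, v, w}
        (fun F => RCG.tgt h u t F s - RCG.tgt h u t (insert w F) s) ≤ 0 := by
  have hC := hS.cx
  have hh := hC.hh
  obtain ⟨c, hc⟩ := hw
  by_cases hvc : v = c
  · subst hvc
    have hμ0 := fun F => (hh.lw (∅ : Finset V)).nonneg F s (hC.mem hs)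
    have e0 : ex (lw h ∅ s) {u, v, w} (fun F => RCG.tgt h u t F s
        - RCG.tgt h u t (insert w F) s) ≤ 0 := by
      refine (ex_mono hμ0 (ψ' := fun _ => (0 : ℝ)) fun F _ _ => ?_).trans (le_of_eq ?_)
      · have hsub : F \ {u, v, w} ⊆ ({u, v, w} : Finset V)ᶜ := by
          intro z hz
          rw [Finset.mem_compl]
          exact (Finset.mem_sdiff.1 hz).2
        have := hC.xiF hsub (u := u) (w := w) (by simp) (by simp) huw
          (T := t) (s := s) ⟨hC.t0, le_rfl⟩ hs (Γ := fun _ => 0) (g := fun _ => 0)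
          (fun r _ => hasDerivAt_const r 0) (fun r hr => by
            have hr0 : r ∈ Icc 0 t := ⟨hs.1.trans hr.1, hr.2⟩
            have e1 : h r u w = 0 := by
              rw [hh.symm]; exact hC.hz0 (hc u huv) hr0
            have e2 : ∑ c ∈ ({u, v, w} : Finset V)ᶜ, h r w c
                * Nt X ({u, v, w} : Finset V)ᶜ u (M t - M r) c = 0 := by
              refine Finset.sum_eq_zero fun c hc' => ?_
              have : c ≠ v := by
                intro e
                rw [e] at hc'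
                simp at hc'
              rw [hC.hz0 (hc c this) hr0, zero_mul]
            rw [e1, e2]
            simp)
        simpa using this
      · unfold ex; simp
    exact mul_nonpos_of_nonneg_of_nonpos (hh.nonneg _ _ _) e0
  · have : h s v w = 0 := by
      rw [hh.symm]; exact hC.hz0 (hc v hvc) hs
    rw [this, zero_mul]

/-- the coefficient of the common neighbours, both main terms together -/
noncomputable def mnT (t : ℝ) : ℝ :=
  (101505 / 100000) ^ 2 * Real.log (1 + t) ^ 2 * (1 + 1021 / 100000 * Real.log (1 + t)) ^ 2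

theorem S1.em (hS : S1 re h H X M μ t) {p q : V} (hp : re p) (hq : re q) (hpq : p ≠ q)
    {E F : ℝ → ℝ} (hE : ∀ s ∈ Icc 0 t, HasDerivAt E (dE h p q s) s) (hE0 : E 0 = 0)
    (hF : ∀ s ∈ Icc 0 t, HasDerivAt F (sE h p q s) s) (hF0 : F 0 = 0) :
    Real.exp (F t) - 1 ≤ X p q *
      (101505 / 100000 * Real.log (1 + t) * (1 + 1021 / 100000 * Real.log (1 + t))) := by
  have ht : t ∈ Icc 0 t := ⟨hS.cx.t0, le_rfl⟩
  have h0 : 0 ≤ F t := nonneg_of_forward (U := F) (U' := sE h p q) (a := 0) (s := t) hF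
    (by rw [hF0]) (fun r hr _ => (dE_nonneg hS.cx.hh p q (hS.cx.mem hr)).trans
      (hS.dE_sE hp hr)) t ht
  have hFE : F t ≤ 1005 / 1000 * E t := by
    have := nonneg_of_forward (U := fun s => 1005 / 1000 * E s - F s)
      (U' := fun s => 1005 / 1000 * dE h p q s - sE h p q s) (a := 0) (s := t)
      (fun r hr => ((hE r hr).const_mul _).sub (hF r hr)) (by simp [hE0, hF0])
      (fun r hr _ => by have := hS.sE_dE (q := q) hp hr; linarith) t ht
    linarith
  have h1 := hS.it p q hp hq hpq t ht E hE hE0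
  have hL0 := hS.log_nn ht
  have hL1 := hS.log_le ht
  have hL2 := LG_max (hS.cx.Mnn ht) hS.Mt
  have hx := hS.cx.hX.nonneg p q
  have hx1 := hS.sm p q
  set L := Real.log (1 + t) with hL
  have h1' : F t ≤ 101505 / 100000 * X p q * L := by linarith
  have h2 : F t ≤ 20301 / 1000000 * L := by
    have := mul_le_mul_of_nonneg_right hx1 hL0
    linarith
  have h3 := exp_chord h0 h2 (by linarith)
  have h4 : (20301 / 1000000 * L * (1 / 2 + 20301 / 1000000 * L *
      (1 / 6 + 20301 / 1000000 * L / 18))) ≤ 1021 / 100000 * L := by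
    have h5 : 20301 / 1000000 * L * (1 / 6 + 20301 / 1000000 * L / 18) ≤ 24 / 10000 := by nlinarith
    nlinarith
  have h6 : 0 ≤ 101505 / 100000 * X p q * L := by positivity
  calc Real.exp (F t) - 1 ≤ (1 + 1021 / 100000 * L) * F t := by
        have := mul_le_mul_of_nonneg_right h4 h0
        linarith
    _ ≤ (1 + 1021 / 100000 * L) * (101505 / 100000 * X p q * L) :=
        mul_le_mul_of_nonneg_left h1' (by positivity)
    _ = _ := by ring

/-- The own gains of both ends. -/
theorem S1.WX (hS : S1 re h H X M μ t) {u v : V} (hu : re u) (hv : re v) (huv : u ≠ v)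
    {E E' : ℝ → ℝ} (hE : ∀ s ∈ Icc 0 t, HasDerivAt E (dE h u v s) s) (hE0 : E 0 = 0)
    (hE' : ∀ s ∈ Icc 0 t, HasDerivAt E' (dE h v u s) s) (hE'0 : E' 0 = 0) :
    ∃ a b : ℝ, 0 ≤ a ∧ 0 ≤ b ∧ Wr h u v t ≤ Real.exp (-E t) * (1 + a) ∧
      Wr h v u t ≤ Real.exp (-E' t) * (1 + b) ∧
      a + b ≤ 2 * KoT (M t) * X u v + (1 + eqT (M t)) * (1 + alT (M t)) *
        ((mnT t + 2 * hint (psS (M t)) (M t)) * ∑ w ∈ ({u, v} : Finset V)ᶜ, X u w * X v w
        + hint (ps4 (M t)) (M t) *
          (∑ w ∈ ({u, v} : Finset V)ᶜ, X v w * NA X ({u, v, w} : Finset V)ᶜ w u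
          + ∑ w ∈ ({u, v} : Finset V)ᶜ, X u w * NA X ({u, v, w} : Finset V)ᶜ w v)) := by
  classical
  have hC := hS.cx
  have hh := hC.hh
  have hX := hC.hX
  have ht : t ∈ Icc 0 t := ⟨hC.t0, le_rfl⟩
  have hM := hS.Mt
  have hT0 := hC.Mnn ht
  set α := alT (M t) with hα
  have hα0 : 0 ≤ α := alT_nonneg hT0
  -- choose the functions
  have exP : ∀ p q : V, ∃ P : ℝ → ℝ, P 0 = 0 ∧ ∀ s ∈ Icc 0 t, HasDerivAt P (dE h p q s) s :=
    fun p q => exists_E hh p q hC.ht
  choose P hP0 hP using exP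
  have exF : ∀ p q : V, ∃ F : ℝ → ℝ, F 0 = 0 ∧ ∀ s ∈ Icc 0 t, HasDerivAt F (sE h p q s) s :=
    fun p q => exists_prim' hC.t0 ((sE_cont hh p q).mono (Icc_subset_Icc le_rfl hC.t1))
  choose F hF0 hF using exF
  have exI : ∀ p q r : V, ∃ I : ℝ → ℝ, I 0 = 0 ∧ ∀ s ∈ Icc 0 t, HasDerivAt I
      (dE h p q s * Real.exp (-P p q s + P q r s)) s := fun p q r => by
    have hPc : ∀ p q, ContinuousOn (P p q) (Icc 0 t) := fun p q s hs =>
      (hP p q s hs).continuousAt.continuousWithinAt
    refine exists_prim' hC.t0 (((dE_cont hh p q).mono (Icc_subset_Icc le_rfl hC.t1)).mul ?_)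
    exact Real.continuous_exp.comp_continuousOn ((hPc p q).neg.add (hPc q r))
  choose I hI0 hI using exI
  -- comparison with the symmetric exponent
  have PF : ∀ p q : V, re p → ∀ s ∈ Icc 0 t, P p q s ≤ F q p s := fun p q hp s hs => by
    have := nonneg_of_forward (U := fun s => F q p s - P p q s)
      (U' := fun s => sE h q p s - dE h p q s) (a := 0) (s := t)
      (fun r hr => (hF q p r hr).sub (hP p q r hr)) (by simp [hP0, hF0])
      (fun r hr _ => by
        have := hS.dE_sE (q := q) hp hr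
        rw [sE_symm hh] at this
        linarith) s hs
    linarith
  set ES := hint (psS (M t)) (M t) with hES
  set E4 := hint (ps4 (M t)) (M t) with hE4
  -- one side
  have side : ∀ p q : V, re p → re q → p ≠ q → ∃ Γ g : ℝ → ℝ,
      (∀ s ∈ Icc 0 t, HasDerivAt Γ (g s) s) ∧
      (∀ s ∈ Icc 0 t, ∑ w ∈ ({p, q} : Finset V)ᶜ, h s q w * ex (lw h ∅ s) {p, q, w}
        (fun F => RCG.tgt h p t F s - RCG.tgt h p t (insert w F) s) ≤ bb h {q} p t * g s) ∧
      Γ t - Γ 0 = ∑ w ∈ ({p, q} : Finset V)ᶜ, (1 + α) * (if re w then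
        uI (P p w) (I p w q) t + (X p w * X w q * ES
          + X w q * (NA X ({p, q, w} : Finset V)ᶜ w p * E4)) else 0) := by
    intro p q hp hq hpq
    refine t1_collect (α := fun _ => α) fun w hw => ?_
    have hw' : w ≠ p ∧ w ≠ q := by
      rw [Finset.mem_compl, Finset.mem_insert, Finset.mem_singleton] at hw
      push Not at hw
      exact hw
    by_cases hrw : re w
    · rw [if_pos hrw]
      exact hS.T1w hp hq hrw hpq hw'.1.symm hw'.2.symm (P := P p w) (R := P w q) (hP p w)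
        (hP0 p w) (hP w q) (hP0 w q) (hI p w q) (hI0 p w q)
    · rw [if_neg hrw]
      refine ⟨fun _ => 0, fun _ => 0, fun s _ => hasDerivAt_const s 0, fun s hs => ?_, by simp⟩
      rw [mul_zero, mul_zero]
      exact hS.T1p ((hS.pd w).resolve_left hrw) hpq hw'.1.symm hs
  have pos : ∀ p q : V, re p → re q → p ≠ q → 0 ≤ ∑ w ∈ ({p, q} : Finset V)ᶜ, (1 + α) *
      (if re w then uI (P p w) (I p w q) t + (X p w * X w q * ES
          + X w q * (NA X ({p, q, w} : Finset V)ᶜ w p * E4)) else 0) := by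
    intro p q hp hq hpq
    refine Finset.sum_nonneg fun w hw => ?_
    have hw' : w ≠ p ∧ w ≠ q := by
      rw [Finset.mem_compl, Finset.mem_insert, Finset.mem_singleton] at hw
      push Not at hw
      exact hw
    refine mul_nonneg (by linarith) ?_
    split_ifs with hrw
    · have u0 := uI_nonneg (P := P p w) (P' := dE h p w) (R := P w q) (I := I p w q) (t := t)
        (hP p w) (hP0 p w) (fun s hs => dE_nonneg hh p w (hC.mem hs))
        (fun s hs => hS.E_nn (hP w q) (hP0 w q) hs) (hI p w q) (hI0 p w q) t ht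
      have hD0 : ∀ m ∈ Icc 0 (M t), 0 ≤ hint (Dpl (M t)) m := fun m hm =>
        hint_nonneg hm.1 fun m' hm' => by
          rw [Dp_eq]
          have a1 := gl_nn hm'.1 (hm'.2.trans (hm.2.trans hM))
          have a2 := del_nn hm'.1 (hm'.2.trans hm.2)
          positivity
      have e1 : 0 ≤ ES := hint_nonneg hT0 fun m hm => by
        rw [psS_eq]
        have a1 := gl_nn hm.1 (hm.2.trans hM)
        have a2 := LG_nn hm.1 (hm.2.trans hM)
        have a3 := hD0 m hm
        have a4 := chl_nn hm.1 hm.2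
        positivity
      have e2 : 0 ≤ E4 := hint_nonneg hT0 fun m hm => by
        rw [ps4_eq, nhl_eq]
        have a2 := LG_nn hm.1 (hm.2.trans hM)
        have a3 := hD0 m hm
        have a4 := bKl_nn hm.1 (hm.2.trans hM)
        have a5 := alT_nonneg hm.1
        positivity
      have x1 := hX.nonneg p w
      have x2 := hX.nonneg w q
      have x3 := NA_nonneg hX ({p, q, w} : Finset V)ᶜ w p
      positivity
    · exact le_rfl
  obtain ⟨Γ1, g1, d1, b1, v1⟩ := side u v hu hv huv
  obtain ⟨Γ2, g2, d2, b2, v2⟩ := side v u hv hu huv.symm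
  have w1 := hS.W_own hu hv huv hE hE0 d1 b1
  have w2 := hS.W_own hv hu huv.symm hE' hE'0 d2 b2
  have p1 := pos u v hu hv huv
  have p2 := pos v u hv hu huv.symm
  rw [← v1] at p1
  rw [← v2] at p2
  have hKo : 0 ≤ KoT (M t) := by
    have hL0 := LG_nn hT0 hM
    have h3 : 0 ≤ eqT (M t) := by rw [eqT_eq]; positivity
    have hon : 0 ≤ hint (ownl (M t)) (M t) := hint_nonneg hT0 fun m hm => by
      unfold ownl
      rw [hor_lsc, hor_lmul, hor_lmul, dU_eq]
      have a1 := gl_nn hm.1 (hm.2.trans hM)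
      have a2 : hor Wl m = 1 + 128 / 10000 * m ^ 2 := by
        simp only [hor, Wl, QC.q]; push_cast; ring
      rw [a2]
      have a3 := add_nonneg (kU_nonneg hm.1 (le_refl m)) (qU_nonneg hm.1 hT0)
      have a4 : (0 : ℝ) ≤ QC.q 103 100 := by simp only [QC.q]; norm_num
      positivity
    have hon2 : 0 ≤ hint (own2l (M t)) (M t) := hint_nonneg hT0 fun m hm => by
      unfold own2l
      rw [hor_lsc, hor_lmul, hor_lmul, dV_eq]
      have a1 := gl_nn hm.1 (hm.2.trans hM)
      have a2 : hor Wl m = 1 + 128 / 10000 * m ^ 2 := by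
        simp only [hor, Wl, QC.q]; push_cast; ring
      rw [a2]
      have a3 := add_nonneg (kU_nonneg hm.1 hm.2) (qU_nonneg hm.1 hm.1)
      have a4 : (0 : ℝ) ≤ QC.q 10542 10000 := by simp only [QC.q]; norm_num
      positivity
    have hnu : 0 ≤ hint (nul (M t)) (M t) := hint_nonneg hT0 fun m hm => by
      unfold nul
      rw [hor_lmul, nrl_eq]
      exact mul_nonneg (nr1_nonneg _) (bKl_nn hm.1 (hm.2.trans hM))
    unfold KoT
    simp only [QC.q]
    push_cast
    positivity
  have hx := hX.nonneg u v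
  have hx' := hX.nonneg v u
  have hEt := hS.eE1 hu hv huv hE hE0
  have hEt' := hS.eE1 hv hu huv.symm hE' hE'0
  refine ⟨Real.exp (E t) * (Γ1 t - Γ1 0) + X u v * KoT (M t),
    Real.exp (E' t) * (Γ2 t - Γ2 0) + X v u * KoT (M t), by positivity, by positivity, ?_, ?_, ?_⟩
  · rw [← add_assoc]; exact w1
  · rw [← add_assoc]; exact w2
  -- the sum
  have hsum : (Γ1 t - Γ1 0) + (Γ2 t - Γ2 0) ≤ (1 + α) *
      ((mnT t + 2 * ES) * ∑ w ∈ ({u, v} : Finset V)ᶜ, X u w * X v w
        + E4 * (∑ w ∈ ({u, v} : Finset V)ᶜ, X v w * NA X ({u, v, w} : Finset V)ᶜ w u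
          + ∑ w ∈ ({u, v} : Finset V)ᶜ, X u w * NA X ({u, v, w} : Finset V)ᶜ w v)) := by
    rw [v1, v2, Finset.pair_comm v u, ← Finset.sum_add_distrib]
    have e3 : (1 + α) *
      ((mnT t + 2 * ES) * ∑ w ∈ ({u, v} : Finset V)ᶜ, X u w * X v w
        + E4 * (∑ w ∈ ({u, v} : Finset V)ᶜ, X v w * NA X ({u, v, w} : Finset V)ᶜ w u
          + ∑ w ∈ ({u, v} : Finset V)ᶜ, X u w * NA X ({u, v, w} : Finset V)ᶜ w v))
        = ∑ w ∈ ({u, v} : Finset V)ᶜ, (1 + α) * ((mnT t + 2 * ES) * (X u w * X v w)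
          + E4 * (X v w * NA X ({u, v, w} : Finset V)ᶜ w u
            + X u w * NA X ({u, v, w} : Finset V)ᶜ w v)) := by
      rw [← Finset.sum_add_distrib, Finset.mul_sum, Finset.mul_sum, ← Finset.sum_add_distrib,
        Finset.mul_sum]
    rw [e3]
    refine Finset.sum_le_sum fun w hw => ?_
    have hw' : w ≠ u ∧ w ≠ v := by
      rw [Finset.mem_compl, Finset.mem_insert, Finset.mem_singleton] at hw
      push Not at hw
      exact hw
    rw [← mul_add]
    refine mul_le_mul_of_nonneg_left ?_ (by linarith)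
    have e4 : ({v, u, w} : Finset V) = {u, v, w} := by
      ext z; simp only [Finset.mem_insert, Finset.mem_singleton]; tauto
    rw [e4, hX.symm w v, hX.symm w u]
    have x1 := hX.nonneg u w
    have x2 := hX.nonneg v w
    have hD0 : ∀ m ∈ Icc 0 (M t), 0 ≤ hint (Dpl (M t)) m := fun m hm =>
      hint_nonneg hm.1 fun m' hm' => by
        rw [Dp_eq]
        have a1 := gl_nn hm'.1 (hm'.2.trans (hm.2.trans hM))
        have a2 := del_nn hm'.1 (hm'.2.trans hm.2)
        positivity
    have hES0 : 0 ≤ ES := hint_nonneg hT0 fun m hm => by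
      rw [psS_eq]
      have a1 := gl_nn hm.1 (hm.2.trans hM)
      have a2 := LG_nn hm.1 (hm.2.trans hM)
      have a3 := hD0 m hm
      have a4 := chl_nn hm.1 hm.2
      positivity
    have hE40 : 0 ≤ E4 := hint_nonneg hT0 fun m hm => by
      rw [ps4_eq, nhl_eq]
      have a2 := LG_nn hm.1 (hm.2.trans hM)
      have a3 := hD0 m hm
      have a4 := bKl_nn hm.1 (hm.2.trans hM)
      have a5 := alT_nonneg hm.1
      positivity
    have n1 := NA_nonneg hX ({u, v, w} : Finset V)ᶜ w u
    have n2 := NA_nonneg hX ({u, v, w} : Finset V)ᶜ w v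
    have hmn : 0 ≤ mnT t := by unfold mnT; positivity
    by_cases hrw : re w
    · rw [if_pos hrw, if_pos hrw]
      have hprod := t1_prod (P := P u w) (P' := dE h u w) (R := P w v) (I := I u w v)
        (P2 := P v w) (P2' := dE h v w) (R2 := P w u) (I2 := I v w u)
        (Fy := F u w) (Fy' := sE h u w) (Fz := F v w) (Fz' := sE h v w) hC.t0
        (hP u w) (hP0 u w) (fun s hs => dE_nonneg hh u w (hC.mem hs))
        (fun s hs => hS.E_nn (hP w v) (hP0 w v) hs) (hI u w v) (hI0 u w v)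
        (hP v w) (hP0 v w) (fun s hs => dE_nonneg hh v w (hC.mem hs))
        (fun s hs => hS.E_nn (hP w u) (hP0 w u) hs) (hI v w u) (hI0 v w u)
        (hF u w) (hF0 u w) (hF v w) (hF0 v w) (fun s hs => hS.dE_sE hu hs)
        (fun s hs => PF w v hrw s hs) (fun s hs => hS.dE_sE hv hs)
        (fun s hs => PF w u hrw s hs)
      have m1 := hS.em hu hrw hw'.1.symm (hP u w) (hP0 u w) (hF u w) (hF0 u w)
      have m2 := hS.em hv hrw hw'.2.symm (hP v w) (hP0 v w) (hF v w) (hF0 v w)
      have z1 : 0 ≤ Real.exp (F v w t) - 1 := by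
        have z2 : 0 ≤ F v w t := (hS.E_nn (hP w v) (hP0 w v) ht).trans (PF w v hrw t ht)
        linarith [Real.one_le_exp z2]
      have hL0 := hS.log_nn ht
      have m3 := mul_le_mul m1 m2 z1 (by positivity)
      have m4 : X u w * (101505 / 100000 * Real.log (1 + t) *
          (1 + 1021 / 100000 * Real.log (1 + t))) *
          (X v w * (101505 / 100000 * Real.log (1 + t) * (1 + 1021 / 100000 * Real.log (1 + t))))
          = mnT t * (X u w * X v w) := by unfold mnT; ring
      rw [m4] at m3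
      linarith
    · rw [if_neg hrw, if_neg hrw, add_zero]
      positivity
  rw [hX.symm v u]
  calc Real.exp (E t) * (Γ1 t - Γ1 0) + X u v * KoT (M t)
        + (Real.exp (E' t) * (Γ2 t - Γ2 0) + X u v * KoT (M t))
      = 2 * KoT (M t) * X u v + (Real.exp (E t) * (Γ1 t - Γ1 0)
        + Real.exp (E' t) * (Γ2 t - Γ2 0)) := by ring
    _ ≤ 2 * KoT (M t) * X u v + (1 + eqT (M t)) * ((Γ1 t - Γ1 0) + (Γ2 t - Γ2 0)) := by
        have q1 := mul_le_mul_of_nonneg_right hEt p1
        have q2 := mul_le_mul_of_nonneg_right hEt' p2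
        linarith
    _ ≤ _ := by
        have h3 : 0 ≤ 1 + eqT (M t) := (Real.exp_pos _).le.trans hEt
        have := mul_le_mul_of_nonneg_left hsum h3
        linarith

end Pool.Agent.RCG
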