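import Pool.Agent.RCGF.Dl1
import Pool.Agent.RCG.Jint

/-! Sup-level data of the target functions for weights at most 1/50 (MP_73ccd0_lc, general
graphs). -/

namespace Pool.Agent.RCG

open Set Finset Matrix Pool.Agent.RCRSHalf

set_option linter.unusedSectionVars false

variable {V : Type*} [Fintype V] [DecidableEq V]
variable {h : ℝ → V → V → ℝ} {H : V → V → ℝ → ℝ} {X : V → V → ℝ} {M μ : ℝ → ℝ} {t : ℝ}

section res

variable {H0 : Finset V} {F : V → ℝ} {f g : ℝ}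

theorem AR_le (hX : Wt X) (hF0 : ∀ a, 0 ≤ F a) (hf0 : 0 ≤ f)
    (hf : ∀ a ∈ H0, ∀ b ∈ H0, X b a ≠ 0 → F a ≤ f) (a : V) :
    (rm X H0 *ᵥ Res (13 / 100) (rm X H0 * rm X H0) F) a ≤ f / (1 - 13 / 100) := by
  refine AResA_le (by norm_num) (by norm_num) (hX.rm_nonneg H0) (hX.rm_row H0) hF0 hf0 ?_ a
  intro b
  by_cases hb : b ∈ H0
  · rw [mulVec_rm_eq H0 F hb]
    calc ∑ c ∈ H0, X b c * F c ≤ ∑ c ∈ H0, X b c * f := by
          refine Finset.sum_le_sum fun c hc => ?_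
          by_cases hx : X b c = 0
          · simp [hx]
          · exact mul_le_mul_of_nonneg_left (hf c hc b hb hx) (hX.nonneg b c)
      _ = (∑ c ∈ H0, X b c) * f := by rw [Finset.sum_mul]
      _ ≤ 1 * f := mul_le_mul_of_nonneg_right (hX.row_le b H0) hf0
      _ = f := one_mul f
  · rw [rm_mulVec_out H0 _ hb]; exact hf0

theorem sum_Af (hX : Wt X) (f : V → ℝ) :
    ∑ a, (rm X H0 *ᵥ f) a = ∑ a, rho X H0 a * f a := by
  have := sum_A hX H0 (fun _ => 1) f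
  simp only [one_mul] at this
  exact this

theorem sum_Af_le (hX : Wt X) {f : V → ℝ} (hf : ∀ a, 0 ≤ f a) :
    ∑ a, (rm X H0 *ᵥ f) a ≤ ∑ a, f a := by
  rw [sum_Af hX]
  refine Finset.sum_le_sum fun a _ => ?_
  have := mul_le_mul_of_nonneg_right (rho_le_one hX H0 a) (hf a)
  linarith

theorem sR_le (hX : Wt X) (hF0 : ∀ a, 0 ≤ F a) (hg : ∑ a, rho X H0 a * F a ≤ g) :
    ∑ a, (rm X H0 *ᵥ Res (13 / 100) (rm X H0 * rm X H0) F) a ≤ g / (1 - 13 / 100) := by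
  have hA := hX.rm_nonneg H0
  have hR0 : ∀ a, 0 ≤ Res (13 / 100) (rm X H0 * rm X H0) F a :=
    Res_nonneg (by norm_num) (hA.mul hA) hF0
  set R := Res (13 / 100) (rm X H0 * rm X H0) F with hR
  have hAR0 : ∀ a, 0 ≤ (rm X H0 *ᵥ R) a := mulVec_nonneg hA hR0
  have e : ∀ a, R a = F a + 13 / 100 * (rm X H0 *ᵥ (rm X H0 *ᵥ R)) a := fun a =>
    Res_sq (by norm_num) (by norm_num) hA (hX.rm_row H0) hF0 a
  have h1 : ∑ a, (rm X H0 *ᵥ R) a = ∑ a, rho X H0 a * F a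
      + 13 / 100 * ∑ a, rho X H0 a * (rm X H0 *ᵥ (rm X H0 *ᵥ R)) a := by
    rw [sum_Af hX, Finset.mul_sum, ← Finset.sum_add_distrib]
    refine Finset.sum_congr rfl fun a _ => ?_
    conv_lhs => rw [e a]
    ring
  have h2 : ∑ a, rho X H0 a * (rm X H0 *ᵥ (rm X H0 *ᵥ R)) a ≤ ∑ a, (rm X H0 *ᵥ R) a := by
    refine le_trans (Finset.sum_le_sum fun a _ => ?_) (sum_Af_le (H0 := H0) hX hAR0)
    have := mul_le_mul_of_nonneg_right (rho_le_one hX H0 a)
      (mulVec_nonneg hA hAR0 a)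
    linarith
  rw [le_div_iff₀ (by norm_num)]
  linarith

end res

theorem rho_act {H0 : Finset V} {a : V} (ha : rho X H0 a ≠ 0) :
    a ∈ H0 ∧ ∃ b ∈ H0, X a b ≠ 0 := by
  by_cases h : a ∈ H0
  · refine ⟨h, ?_⟩
    by_contra hc
    push Not at hc
    exact ha (by rw [rho_in h]; exact Finset.sum_eq_zero hc)
  · exact absurd (rho_out h) ha

theorem Fc_small {y δ : ℝ} (hy : 0 ≤ y) (hy1 : y ≤ δ) : Fc y ≤ (1 + 877 / 1000 * δ) * y := by
  unfold Fc
  nlinarith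

/-- all weights are small -/
def Sm (X : V → V → ℝ) : Prop := ∀ a b, X a b ≤ 1 / 50

/-! ### One target -/

theorem Sm.AR (hX : Wt X) (hs : Sm X) (H0 : Finset V) (p a : V) :
    (rm X H0 *ᵥ Rh X H0 p) a ≤ 23392 / 1000000 := by
  refine (AR_le hX (F := fun b => Fc (X p b)) (f := 203508 / 10000000)
    (fun b => Fc_nonneg (hX.nonneg p b)) (by norm_num) (fun b _ c hc hx => ?_) a).trans
    (by norm_num)
  have h2 := Fc_mono (hX.nonneg p b) (hs p b)
  refine h2.trans ?_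
  unfold Fc; norm_num

theorem Sm.sR (hX : Wt X) (hs : Sm X) (H0 : Finset V) (p : V) :
    ∑ a, (rm X H0 *ᵥ Rh X H0 p) a ≤ 11696 / 10000 := by
  refine (sR_le hX (F := fun b => Fc (X p b)) (g := 101754 / 100000)
    (fun b => Fc_nonneg (hX.nonneg p b)) ?_).trans (by norm_num)
  have h1 : ∀ a, rho X H0 a * Fc (X p a) ≤ 101754 / 100000 * X p a := by
    intro a
    have h2 := Fc_small (hX.nonneg p a) (hs p a)
    have h3 := mul_le_mul_of_nonneg_right (rho_le_one hX H0 a) (Fc_nonneg (hX.nonneg p a))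
    have h4 : (1 + 877 / 1000 * (1 / 50)) * X p a = 101754 / 100000 * X p a := by norm_num
    linarith
  refine (Finset.sum_le_sum fun a _ => h1 a).trans ?_
  rw [← Finset.mul_sum]
  have := hX.row p
  linarith

/-- sup-level exponent of the influence, one target -/
noncomputable def pb1 (m : ℝ) : ℝ := m / 50 + 408 / 100000 * m ^ 3
/-- sup-level lower influence, one target -/
noncomputable def nr1 (m : ℝ) : ℝ := 117 / 10000 * m ^ 2 + 76 / 100000 * m ^ 4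

theorem pb1_nonneg {m : ℝ} (hm : 0 ≤ m) : 0 ≤ pb1 m := by unfold pb1; positivity
theorem nr1_nonneg (m : ℝ) : 0 ≤ nr1 m := by unfold nr1; positivity

theorem B2_nr {m : ℝ} (hm : 0 ≤ m) (h1 : m ≤ 213 / 200) : B2 m * (23392 / 1000000) ≤ nr1 m := by
  have m4 : 0 ≤ m ^ 4 := pow_nonneg hm 4
  have m2 : 0 ≤ m ^ 2 := pow_nonneg hm 2
  have e5 : m ^ 5 ≤ 213 / 200 * m ^ 4 := by
    have : m ^ 5 = m * m ^ 4 := by ring
    rw [this]; exact mul_le_mul_of_nonneg_right h1 m4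
  unfold B2 b2 nr1
  norm_num at e5 ⊢
  linarith

theorem Cx.m1 (hC : Cx h H X M μ t) (hM : M t ≤ 213 / 200) {T r : ℝ} (hT : T ∈ Icc 0 t)
    (hr : r ∈ Icc 0 T) : 0 ≤ M T - M r ∧ M T - M r ≤ 213 / 200 := by
  have h1 := hC.mono hT r hr
  have h2 := hC.mono ⟨hC.t0, le_rfl⟩ T hT
  have h3 := hC.Mnn ⟨hr.1, hr.2.trans hT.2⟩
  exact ⟨by linarith, by linarith⟩

theorem Cx.dv1r (hC : Cx h H X M μ t) (hM : M t ≤ 213 / 200) (hs : Sm X) {H0 : Finset V} {p : V}
    (hp : p ∉ H0) {T r : ℝ} (hT : T ∈ Icc 0 t) (hr : r ∈ Icc 0 T) :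
    Dv X H0 (fun a => Pt H X M H0 p T a r) (fun a => Nt X H0 p (M T - M r) a)
      (pb1 (M T - M r)) (50 * pb1 (M T - M r)) (nr1 (M T - M r)) (50 * nr1 (M T - M r)) := by
  have hX := hC.hX
  have hm := hC.mm hT hr
  have htv := hC.tv hp hT hr
  obtain ⟨hm0, hm1⟩ := hC.m1 hM hT hr
  set m := M T - M r with hmdef
  have hA := hX.rm_nonneg H0
  have hR0 : ∀ a, 0 ≤ (rm X H0 *ᵥ Rh X H0 p) a := mulVec_nonneg hA (Rh_nonneg hX H0 p)
  have hAAR : ∀ a, (rm X H0 *ᵥ (rm X H0 *ᵥ Rh X H0 p)) a ≤ 23392 / 1000000 :=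
    A_const_le hA (hX.rm_row H0) (by norm_num) (hs.AR hX H0 p)
  have hG' := G3_le' hm
  have hm2 : 0 ≤ m ^ 2 := by positivity
  have hm3 : 0 ≤ m ^ 3 := pow_nonneg hm.1 3
  have hY : ∀ a ∈ H0, Yt X H0 p m a ≤ 1744 / 10000 * m ^ 3
      * (rm X H0 *ᵥ (rm X H0 *ᵥ Rh X H0 p)) a := fun a ha => by
    have h1 := htv.YR a ha
    have e2 : ((rm X H0) ^ 2 *ᵥ Rh X H0 p) a = (rm X H0 *ᵥ (rm X H0 *ᵥ Rh X H0 p)) a := by
      rw [pow_two, ← Matrix.mulVec_mulVec]
    rw [e2] at h1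
    exact h1.trans (mul_le_mul_of_nonneg_right hG' (mulVec_nonneg hA hR0 a))
  have hB0 := B2_nonneg hm0
  have hB := B2_nr hm0 hm1
  have hN : ∀ a ∈ H0, Nt X H0 p m a ≤ B2 m * (rm X H0 *ᵥ Rh X H0 p) a :=
    fun a ha => by
    have h1 := htv.NR a ha
    rwa [pow_one] at h1
  refine ⟨⟨fun a => m * X p a + Yt X H0 p m a, fun a ha => ?_, fun a ha => htv.PY a ha, ?_, ?_⟩,
    htv.P0, htv.N0, fun a ha => ?_, ?_⟩
  · exact add_nonneg (mul_nonneg hm.1 (hX.nonneg p a)) (htv.Y0 a ha)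
  · intro a ha b hb hx
    have h1 := mul_le_mul_of_nonneg_left (hs p a) hm.1
    have h2 := (hY a ha).trans (mul_le_mul_of_nonneg_left (hAAR a) (by positivity))
    show m * X p a + Yt X H0 p m a ≤ pb1 m
    unfold pb1
    nlinarith
  · have e1 : ∑ a ∈ H0, rho X H0 a * (m * X p a + Yt X H0 p m a)
        ≤ ∑ a ∈ H0, (m * X p a + 1744 / 10000 * m ^ 3
          * (rho X H0 a * (rm X H0 *ᵥ (rm X H0 *ᵥ Rh X H0 p)) a)) := by
      refine Finset.sum_le_sum fun a ha => ?_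
      have hρ0 := rho_nonneg hX H0 a
      have hρ1 := rho_le_one hX H0 a
      have h1 := mul_le_mul_of_nonneg_left (hY a ha) hρ0
      have h2 := mul_le_mul_of_nonneg_right hρ1 (mul_nonneg hm.1 (hX.nonneg p a))
      nlinarith
    refine e1.trans ?_
    rw [Finset.sum_add_distrib, ← Finset.mul_sum, ← Finset.mul_sum]
    have e2 := hX.row_le p H0
    have e3 : ∑ a ∈ H0, rho X H0 a * (rm X H0 *ᵥ (rm X H0 *ᵥ Rh X H0 p)) a ≤ 11696 / 10000 := by
      refine le_trans ?_ (hs.sR hX H0 p)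
      refine le_trans ?_ (sum_Af_le (H0 := H0) hX hR0)
      refine le_trans (Finset.sum_le_sum fun a _ =>
        (mul_le_mul_of_nonneg_right (rho_le_one hX H0 a) (mulVec_nonneg hA hR0 a))) ?_
      simp only [one_mul]
      exact Finset.sum_le_sum_of_subset_of_nonneg (Finset.subset_univ _)
        fun a _ _ => mulVec_nonneg hA hR0 a
    have e4 := mul_le_mul_of_nonneg_left e2 hm.1
    have e5 := mul_le_mul_of_nonneg_left e3 (show 0 ≤ 1744 / 10000 * m ^ 3 by positivity)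
    unfold pb1
    nlinarith
  · exact (hN a ha).trans ((mul_le_mul_of_nonneg_left (hs.AR hX H0 p a) hB0).trans hB)
  · have e1 : ∑ a ∈ H0, rho X H0 a * Nt X H0 p m a
        ≤ ∑ a ∈ H0, B2 m * (rm X H0 *ᵥ Rh X H0 p) a := by
      refine Finset.sum_le_sum fun a ha => ?_
      have h1 := mul_le_mul (rho_le_one hX H0 a) (hN a ha) (htv.N0 a ha) zero_le_one
      linarith
    refine e1.trans ?_
    rw [← Finset.mul_sum]
    have e3 : ∑ a ∈ H0, (rm X H0 *ᵥ Rh X H0 p) a ≤ 11696 / 10000 :=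
      (Finset.sum_le_sum_of_subset_of_nonneg (Finset.subset_univ _)
        fun a _ _ => hR0 a).trans (hs.sR hX H0 p)
    have e5 := mul_le_mul_of_nonneg_left e3 hB0
    linarith

/-! ### Two targets -/

theorem Sm.AR2 (hX : Wt X) (hs : Sm X) (H0 : Finset V) (p q a : V) :
    (rm X H0 *ᵥ Rh2 X H0 p q) a ≤ 4759 / 100000 := by
  refine (AR_le hX (F := fun b => Fc (X p b + X q b)) (f := 414032 / 10000000)
    (fun b => Fc_nonneg (add_nonneg (hX.nonneg p b) (hX.nonneg q b))) (by norm_num)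
    (fun b _ c hc hx => ?_) a).trans (by norm_num)
  have h2 := Fc_mono (add_nonneg (hX.nonneg p b) (hX.nonneg q b)) (show X p b + X q b ≤ 1 / 25 by
    linarith [hs p b, hs q b])
  refine h2.trans ?_
  unfold Fc; norm_num

theorem Sm.sR2 (hX : Wt X) (hs : Sm X) (H0 : Finset V) (p q : V) :
    ∑ a, (rm X H0 *ᵥ Rh2 X H0 p q) a ≤ 23795 / 10000 := by
  refine (sR_le hX (F := fun b => Fc (X p b + X q b)) (g := 207016 / 100000)
    (fun b => Fc_nonneg (add_nonneg (hX.nonneg p b) (hX.nonneg q b))) ?_).trans (by norm_num)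
  have h1 : ∀ a, rho X H0 a * Fc (X p a + X q a) ≤ 103508 / 100000 * (X p a + X q a) := by
    intro a
    have hpq := add_nonneg (hX.nonneg p a) (hX.nonneg q a)
    have h2 := Fc_small hpq (show X p a + X q a ≤ 1 / 25 by
      linarith [hs p a, hs q a])
    have h3 := mul_le_mul_of_nonneg_right (rho_le_one hX H0 a) (Fc_nonneg hpq)
    have h4 : (1 + 877 / 1000 * (1 / 25)) * (X p a + X q a)
        = 103508 / 100000 * (X p a + X q a) := by norm_num
    linarith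
  refine (Finset.sum_le_sum fun a _ => h1 a).trans ?_
  rw [← Finset.mul_sum, Finset.sum_add_distrib]
  have := hX.row p
  have := hX.row q
  linarith

/-- sup-level exponent of the influence, two targets -/
noncomputable def pb2 (m : ℝ) : ℝ := m / 25 + 852 / 100000 * m ^ 3
/-- sup-level lower influence, two targets -/
noncomputable def nr2 (m : ℝ) : ℝ := 238 / 10000 * m ^ 2 + 245 / 100000 * m ^ 4

theorem pb2_nonneg {m : ℝ} (hm : 0 ≤ m) : 0 ≤ pb2 m := by unfold pb2; positivity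
theorem nr2_nonneg (m : ℝ) : 0 ≤ nr2 m := by unfold nr2; positivity

theorem g3_2_le {m : ℝ} (hm : m ∈ Icc (0 : ℝ) (23 / 20)) :
    g3 (241 / 1000) m ≤ 1789 / 10000 * m ^ 3 := by
  have h3 : m ^ 3 ≤ (23 / 20) ^ 3 := pow_le_pow_left₀ hm.1 hm.2 3
  have h30 : 0 ≤ m ^ 3 := pow_nonneg hm.1 3
  unfold g3
  nlinarith [mul_le_mul_of_nonneg_left h3 h30]

theorem b2_nr2 {m : ℝ} (hm : 0 ≤ m) (h1 : m ≤ 213 / 200) :
    b2 (241 / 1000) m * (4759 / 100000) ≤ nr2 m := by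
  have m4 : 0 ≤ m ^ 4 := pow_nonneg hm 4
  have m2 : 0 ≤ m ^ 2 := pow_nonneg hm 2
  have e5 : m ^ 5 ≤ 213 / 200 * m ^ 4 := by
    have : m ^ 5 = m * m ^ 4 := by ring
    rw [this]; exact mul_le_mul_of_nonneg_right h1 m4
  unfold b2 nr2
  norm_num at e5 ⊢
  linarith

theorem Cx.dv2r (hC : Cx h H X M μ t) (hM : M t ≤ 213 / 200) (hs : Sm X) {H0 : Finset V}
    {p q : V} (hpq : p ≠ q) (hp : p ∉ H0) (hq : q ∉ H0) {T r : ℝ} (hT : T ∈ Icc 0 t)
    (hr : r ∈ Icc 0 T) :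
    Dv X H0 (fun a => Pt2 H X M H0 p q T a r) (fun a => Nt2 X H0 p q (M T - M r) a)
      (pb2 (M T - M r)) (50 * pb2 (M T - M r)) (nr2 (M T - M r)) (50 * nr2 (M T - M r)) := by
  have hX := hC.hX
  have hm := hC.mm hT hr
  have hcl := hC.clo2 hT hpq hp hq
  obtain ⟨hm0, hm1⟩ := hC.m1 hM hT hr
  set m := M T - M r with hmdef
  have hA := hX.rm_nonneg H0
  have hR0 : ∀ a, 0 ≤ (rm X H0 *ᵥ Rh2 X H0 p q) a := mulVec_nonneg hA (Rh2_nonneg hX H0 p q)
  have hAAR : ∀ a, (rm X H0 *ᵥ (rm X H0 *ᵥ Rh2 X H0 p q)) a ≤ 4759 / 100000 :=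
    A_const_le hA (hX.rm_row H0) (by norm_num) (hs.AR2 hX H0 p q)
  have hm2 : 0 ≤ m ^ 2 := by positivity
  have hm3 : 0 ≤ m ^ 3 := pow_nonneg hm.1 3
  have hG' := g3_2_le hm
  have hY : ∀ a, Yt2 X H0 p q m a ≤ 1789 / 10000 * m ^ 3
      * (rm X H0 *ᵥ (rm X H0 *ᵥ Rh2 X H0 p q)) a := fun a =>
    (Yt2_le hX H0 p q hm a).trans (mul_le_mul_of_nonneg_right hG' (mulVec_nonneg hA hR0 a))
  have hB0 : 0 ≤ b2 (241 / 1000) m := b2_nonneg (by norm_num) hm0
  have hB := b2_nr2 hm0 hm1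
  have hN : ∀ a, Nt2 X H0 p q m a ≤ b2 (241 / 1000) m * (rm X H0 *ᵥ Rh2 X H0 p q) a :=
    fun a => Nt2_le hX H0 p q hm a
  have hY0 : ∀ a, 0 ≤ Yt2 X H0 p q m a := fun a =>
    Yw_nonneg good2 hA (fun b => Fc_nonneg (add_nonneg (hX.nonneg p b) (hX.nonneg q b))) hm a
  have hP0 : ∀ a ∈ H0, 0 ≤ Pt2 H X M H0 p q T a r := fun a ha => hcl.P0 a ha r hr
  have hN0 : ∀ a ∈ H0, 0 ≤ Nt2 X H0 p q m a := fun a ha => hcl.N0 a ha r hr
  refine ⟨⟨fun a => m * (X p a + X q a) + Yt2 X H0 p q m a, fun a ha => ?_, fun a ha => ?_, ?_, ?_⟩,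
    hP0, hN0, fun a ha => ?_, ?_⟩
  · exact add_nonneg (mul_nonneg hm.1 (add_nonneg (hX.nonneg p a) (hX.nonneg q a))) (hY0 a)
  · show 1 + (Real.exp ((H p a T + H q a T) - (H p a r + H q a r) + Yt2 X H0 p q (M T - M r) a)
      - 1) ≤ Real.exp (m * (X p a + X q a) + Yt2 X H0 p q m a)
    have h1 := hC.dH p a hr.1 hr.2 hT.2
    have h2 := hC.dH q a hr.1 hr.2 hT.2
    have h3 : Real.exp ((H p a T + H q a T) - (H p a r + H q a r)
        + Yt2 X H0 p q (M T - M r) a)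
        ≤ Real.exp (m * (X p a + X q a) + Yt2 X H0 p q m a) :=
      Real.exp_le_exp.2 (by rw [← hmdef]; linarith)
    linarith
  · intro a ha b hb hx
    have h1 := mul_le_mul_of_nonneg_left (hs p a) hm.1
    have h1' := mul_le_mul_of_nonneg_left (hs q a) hm.1
    have h2 := (hY a).trans (mul_le_mul_of_nonneg_left (hAAR a) (by positivity))
    show m * (X p a + X q a) + Yt2 X H0 p q m a ≤ pb2 m
    unfold pb2
    nlinarith
  · have e1 : ∑ a ∈ H0, rho X H0 a * (m * (X p a + X q a) + Yt2 X H0 p q m a)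
        ≤ ∑ a ∈ H0, (m * X p a + m * X q a + 1789 / 10000 * m ^ 3
          * (rho X H0 a * (rm X H0 *ᵥ (rm X H0 *ᵥ Rh2 X H0 p q)) a)) := by
      refine Finset.sum_le_sum fun a ha => ?_
      have hρ0 := rho_nonneg hX H0 a
      have hρ1 := rho_le_one hX H0 a
      have h1 := mul_le_mul_of_nonneg_left (hY a) hρ0
      have h2 := mul_le_mul_of_nonneg_right hρ1 (mul_nonneg hm.1
        (add_nonneg (hX.nonneg p a) (hX.nonneg q a)))
      nlinarith
    refine e1.trans ?_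
    rw [Finset.sum_add_distrib, Finset.sum_add_distrib, ← Finset.mul_sum, ← Finset.mul_sum,
      ← Finset.mul_sum]
    have e2 := hX.row_le p H0
    have e2' := hX.row_le q H0
    have e3 : ∑ a ∈ H0, rho X H0 a * (rm X H0 *ᵥ (rm X H0 *ᵥ Rh2 X H0 p q)) a ≤ 23795 / 10000 := by
      refine le_trans ?_ (hs.sR2 hX H0 p q)
      refine le_trans ?_ (sum_Af_le (H0 := H0) hX hR0)
      refine le_trans (Finset.sum_le_sum fun a _ =>
        (mul_le_mul_of_nonneg_right (rho_le_one hX H0 a) (mulVec_nonneg hA hR0 a))) ?_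
      simp only [one_mul]
      exact Finset.sum_le_sum_of_subset_of_nonneg (Finset.subset_univ _)
        fun a _ _ => mulVec_nonneg hA hR0 a
    have e4 := mul_le_mul_of_nonneg_left e2 hm.1
    have e4' := mul_le_mul_of_nonneg_left e2' hm.1
    have e5 := mul_le_mul_of_nonneg_left e3 (show 0 ≤ 1789 / 10000 * m ^ 3 by positivity)
    unfold pb2
    nlinarith
  · exact (hN a).trans ((mul_le_mul_of_nonneg_left (hs.AR2 hX H0 p q a) hB0).trans hB)
  · have e1 : ∑ a ∈ H0, rho X H0 a * Nt2 X H0 p q m a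
        ≤ ∑ a ∈ H0, b2 (241 / 1000) m * (rm X H0 *ᵥ Rh2 X H0 p q) a := by
      refine Finset.sum_le_sum fun a ha => ?_
      have h1 := mul_le_mul (rho_le_one hX H0 a) (hN a) (hN0 a ha) zero_le_one
      linarith
    refine e1.trans ?_
    rw [← Finset.mul_sum]
    have e3 : ∑ a ∈ H0, (rm X H0 *ᵥ Rh2 X H0 p q) a ≤ 23795 / 10000 :=
      (Finset.sum_le_sum_of_subset_of_nonneg (Finset.subset_univ _)
        fun a _ _ => hR0 a).trans (hs.sR2 hX H0 p q)
    have e5 := mul_le_mul_of_nonneg_left e3 hB0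
    linarith

end Pool.Agent.RCG
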