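import Pool.Agent.RCGF.Em2
import Pool.Agent.RCGF.Pq

/-! Integrated pair rates for weights at most 1/50 (MP_73ccd0_lc, general graphs). -/

namespace Pool.Agent.RCG

open Set Finset Matrix Pool.Agent.RCRSHalf

set_option linter.unusedSectionVars false

section poly

variable {R : Type} [Add R] [Mul R] [QC R]

def krL (δ : R) : List R :=
  [QC.q 0 1,
    δ * (QC.q 1 25 + δ * (QC.q 51 62500 + δ * (QC.q 107 12500))),
    QC.q 1 25 + δ * (QC.q 153 62500 + δ * (QC.q 24616029 625000000 + δ * (QC.q 5457 31250000 + δ * (QC.q 2223 2500000)))),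
    QC.q 51 31250 + δ * (QC.q 19266029 312500000 + δ * (QC.q 5457 7812500 + δ * (QC.q 33679 6250000))),
    QC.q 19266029 625000000 + δ * (QC.q 5457 6250000 + δ * (QC.q 146499 12500000 + δ * (δ * (QC.q 361 6250000)))),
    QC.q 5457 15625000 + δ * (QC.q 16923 1562500 + δ * (δ * (QC.q 361 1562500))),
    QC.q 5641 1562500 + δ * (δ * (QC.q 1083 3125000)),
    δ * (QC.q 361 1562500),
    QC.q 361 6250000]

def qrL (δ : R) : List R :=
  [QC.q 0 1,
    δ * (δ * (QC.q 117 5000 + δ * (δ * (QC.q 19 12500)))),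
    δ * (QC.q 351 5000 + δ * (QC.q 5967 6250000 + δ * (QC.q 27719 2500000 + δ * (QC.q 969 31250000)))),
    QC.q 117 2500 + δ * (QC.q 5967 3125000 + δ * (QC.q 18219 625000 + δ * (QC.q 969 7812500 + δ * (QC.q 2033 6250000)))),
    QC.q 5967 6250000 + δ * (QC.q 16319 500000 + δ * (QC.q 6783 31250000 + δ * (QC.q 2033 1250000))),
    QC.q 16319 1250000 + δ * (QC.q 2907 15625000 + δ * (QC.q 18297 6250000)),
    QC.q 969 15625000 + δ * (QC.q 14231 6250000),
    QC.q 2033 3125000]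

def grL (δ : R) : List R :=
  [QC.q 0 1,
    δ * (QC.q 2 25 + δ * (QC.q 83 25000 + δ * (QC.q 47 2500))),
    QC.q 2 25 + δ * (QC.q 517 62500 + δ * (QC.q 658701 7812500 + δ * (QC.q 2397 6250000 + δ * (QC.q 5733 2000000)))),
    QC.q 619 125000 + δ * (QC.q 1010527 7812500 + δ * (QC.q 23263 12500000 + δ * (QC.q 38723 2500000))),
    QC.q 498701 7812500 + δ * (QC.q 2009 781250 + δ * (QC.q 155387 5000000 + δ * (δ * (QC.q 931 5000000)))),
    QC.q 547 500000 + δ * (QC.q 67883 2500000 + δ * (δ * (QC.q 931 1250000))),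
    QC.q 17397 2000000 + δ * (δ * (QC.q 2793 2500000)),
    δ * (QC.q 931 1250000),
    QC.q 931 5000000]

/-- bound of the integrated upper pair rate -/
def kU (m T : R) : R :=
  m * m * (QC.q 202 10000 * T + QC.q (-67) 10000 * m + QC.q 50 10000 * (T * T * T)
    + QC.q 23 10000 * (m * m * T))

/-- bound of the integrated upper rate with a group -/
def kG (m T : R) : R :=
  m * m * (QC.q 406 10000 * T + QC.q (-136) 10000 * m + QC.q 112 10000 * (T * T * T)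
    + QC.q 44 10000 * (m * m * T))

/-- bound of the integrated lower pair rate -/
def qU (m T : R) : R :=
  m * m * (T * T * (QC.q 126 10000 + QC.q 18 10000 * (m * T)))

def ckU (m T : R) : R := kU m T + ng (hint (krL (T + ng m)) m)
def ckG (m T : R) : R := kG m T + ng (hint (grL (T + ng m)) m)
def cqU (m T : R) : R := qU m T + ng (hint (qrL (T + ng m)) m)

end poly

set_option maxRecDepth 100000 in
theorem ck_kU : QE.nonnegB 12 6 0 0 (ckU mQ TQ) = true := by decide +kernel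
set_option maxRecDepth 100000 in
theorem ck_kG : QE.nonnegB 12 6 0 0 (ckG mQ TQ) = true := by decide +kernel
set_option maxRecDepth 100000 in
theorem ck_qU : QE.nonnegB 12 6 0 0 (cqU mQ TQ) = true := by decide +kernel


/-! ### The real versions -/

noncomputable def ph1 (m : ℝ) : ℝ := m / 50 + 408 / 1000000 * m ^ 2 + 428 / 100000 * m ^ 3
noncomputable def ph2 (m : ℝ) : ℝ := m / 25 + 166 / 100000 * m ^ 2 + 94 / 10000 * m ^ 3

theorem ph1_nonneg {m : ℝ} (hm : 0 ≤ m) : 0 ≤ ph1 m := by unfold ph1; positivity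
theorem ph2_nonneg {m : ℝ} (hm : 0 ≤ m) : 0 ≤ ph2 m := by unfold ph2; positivity

theorem krL_eq (y δ : ℝ) : hor (krL δ) y
    = 100 * (ph1 y * ph1 (y + δ)) + 100 * (nr1 y * nr1 (y + δ)) := by
  simp only [hor, krL, QC.q, ph1, nr1]
  push_cast
  ring

theorem qrL_eq (y δ : ℝ) : hor (qrL δ) y
    = 100 * (nr1 y * ph1 (y + δ)) + 100 * (ph1 y * nr1 (y + δ)) := by
  simp only [hor, qrL, QC.q, ph1, nr1]
  push_cast
  ring

theorem grL_eq (y δ : ℝ) : hor (grL δ) y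
    = 100 * (ph1 y * ph2 (y + δ)) + 100 * (nr1 y * nr2 (y + δ)) := by
  simp only [hor, grL, QC.q, ph1, nr1, ph2, nr2]
  push_cast
  ring

theorem kU_int {m T : ℝ} (hm : 0 ≤ m) (hmT : m ≤ T) (hT : T ≤ 213 / 200) :
    hint (krL (T - m)) m ≤ kU m T := by
  obtain ⟨x, y, h, e1, e2⟩ := chk2 ck_kU hm hmT hT
  have e : QE.eval x y 0 0 (ckU mQ TQ) = ckU (QE.eval x y 0 0 mQ) (QE.eval x y 0 0 TQ) := rfl
  rw [e, e1, e2] at h
  unfold ckU at h
  rw [add_ng, add_ng] at h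
  linarith

theorem kG_int {m T : ℝ} (hm : 0 ≤ m) (hmT : m ≤ T) (hT : T ≤ 213 / 200) :
    hint (grL (T - m)) m ≤ kG m T := by
  obtain ⟨x, y, h, e1, e2⟩ := chk2 ck_kG hm hmT hT
  have e : QE.eval x y 0 0 (ckG mQ TQ) = ckG (QE.eval x y 0 0 mQ) (QE.eval x y 0 0 TQ) := rfl
  rw [e, e1, e2] at h
  unfold ckG at h
  rw [add_ng, add_ng] at h
  linarith

theorem qU_int {m T : ℝ} (hm : 0 ≤ m) (hmT : m ≤ T) (hT : T ≤ 213 / 200) :
    hint (qrL (T - m)) m ≤ qU m T := by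
  obtain ⟨x, y, h, e1, e2⟩ := chk2 ck_qU hm hmT hT
  have e : QE.eval x y 0 0 (cqU mQ TQ) = cqU (QE.eval x y 0 0 mQ) (QE.eval x y 0 0 TQ) := rfl
  rw [e, e1, e2] at h
  unfold cqU at h
  rw [add_ng, add_ng] at h
  linarith

/-! ### Chords -/

theorem chord1 {b : ℝ} (hb : b ≤ 2623 / 100000) :
    ∀ x ∈ Icc 0 (2 * b), Real.exp x - 1 ≤ (1 + 1018 / 1000 * b) * x := by
  intro x hx
  have hx1 : x ≤ 5246 / 100000 := by linarith [hx.2]
  have h := Real.exp_bound' hx.1 (hx1.trans (by norm_num)) (n := 4) (by norm_num)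
  simp only [Finset.sum_range_succ, Finset.sum_range_zero, Nat.factorial] at h
  norm_num at h
  have h0 := hx.1
  have e2 : x ^ 2 ≤ 2 * b * x := by nlinarith [hx.2]
  have hb0 : 0 ≤ 2 * b * x := (sq_nonneg x).trans e2
  have step : ∀ c : ℝ, 0 ≤ c → ∀ n : ℕ, x ^ n ≤ c * (2 * b * x) →
      x ^ (n + 1) ≤ (5246 / 100000 * c) * (2 * b * x) := by
    intro c hc n hn
    have : x ^ (n + 1) = x * x ^ n := by ring
    rw [this]
    calc x * x ^ n ≤ x * (c * (2 * b * x)) := mul_le_mul_of_nonneg_left hn h0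
      _ ≤ 5246 / 100000 * (c * (2 * b * x)) := mul_le_mul_of_nonneg_right hx1 (by positivity)
      _ = _ := by ring
  have e3 := step 1 zero_le_one 2 (by linarith)
  have e4 := step _ (by norm_num) 3 e3
  norm_num at e3 e4
  nlinarith

theorem chord2 {b : ℝ} (hb : b ≤ 5290 / 100000) :
    ∀ x ∈ Icc 0 (2 * b), Real.exp x - 1 ≤ (1 + 1037 / 1000 * b) * x := by
  intro x hx
  have hx1 : x ≤ 10580 / 100000 := by linarith [hx.2]
  have h := Real.exp_bound' hx.1 (hx1.trans (by norm_num)) (n := 4) (by norm_num)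
  simp only [Finset.sum_range_succ, Finset.sum_range_zero, Nat.factorial] at h
  norm_num at h
  have h0 := hx.1
  have e2 : x ^ 2 ≤ 2 * b * x := by nlinarith [hx.2]
  have hb0 : 0 ≤ 2 * b * x := (sq_nonneg x).trans e2
  have step : ∀ c : ℝ, 0 ≤ c → ∀ n : ℕ, x ^ n ≤ c * (2 * b * x) →
      x ^ (n + 1) ≤ (10580 / 100000 * c) * (2 * b * x) := by
    intro c hc n hn
    have : x ^ (n + 1) = x * x ^ n := by ring
    rw [this]
    calc x * x ^ n ≤ x * (c * (2 * b * x)) := mul_le_mul_of_nonneg_left hn h0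
      _ ≤ 10580 / 100000 * (c * (2 * b * x)) := mul_le_mul_of_nonneg_right hx1 (by positivity)
      _ = _ := by ring
  have e3 := step 1 zero_le_one 2 (by linarith)
  have e4 := step _ (by norm_num) 3 e3
  norm_num at e3 e4
  nlinarith

theorem pb1_max {m : ℝ} (hm : 0 ≤ m) (h1 : m ≤ 213 / 200) : pb1 m ≤ 2623 / 100000 := by
  have h3 : m ^ 3 ≤ (213 / 200) ^ 3 := pow_le_pow_left₀ hm h1 3
  unfold pb1
  norm_num at h3 ⊢
  linarith

theorem pb2_max {m : ℝ} (hm : 0 ≤ m) (h1 : m ≤ 213 / 200) : pb2 m ≤ 5290 / 100000 := by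
  have h3 : m ^ 3 ≤ (213 / 200) ^ 3 := pow_le_pow_left₀ hm h1 3
  unfold pb2
  norm_num at h3 ⊢
  linarith

theorem pb1_ph {m : ℝ} (hm : 0 ≤ m) (h1 : m ≤ 213 / 200) :
    (1 + 1018 / 1000 * pb1 m) * pb1 m ≤ ph1 m := by
  have h3 : m ^ 3 ≤ (213 / 200) ^ 3 := pow_le_pow_left₀ hm h1 3
  have m3 : 0 ≤ m ^ 3 := pow_nonneg hm 3
  have e4 : m ^ 4 ≤ 213 / 200 * m ^ 3 := by
    have : m ^ 4 = m * m ^ 3 := by ring
    rw [this]; exact mul_le_mul_of_nonneg_right h1 m3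
  have e6 : m ^ 6 ≤ (213 / 200) ^ 3 * m ^ 3 := by
    have : m ^ 6 = m ^ 3 * m ^ 3 := by ring
    rw [this]; exact mul_le_mul_of_nonneg_right h3 m3
  have e : (1 + 1018 / 1000 * pb1 m) * pb1 m = m / 50 + 1018 / 1000 * (1 / 2500) * m ^ 2
      + 408 / 100000 * m ^ 3 + 1018 / 1000 * (2 * (1 / 50) * (408 / 100000)) * m ^ 4
      + 1018 / 1000 * (408 / 100000) ^ 2 * m ^ 6 := by unfold pb1; ring
  rw [e]
  unfold ph1
  have m2 : 0 ≤ m ^ 2 := by positivity
  norm_num at e4 e6 ⊢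
  linarith

theorem pb2_ph {m : ℝ} (hm : 0 ≤ m) (h1 : m ≤ 213 / 200) :
    (1 + 1037 / 1000 * pb2 m) * pb2 m ≤ ph2 m := by
  have h3 : m ^ 3 ≤ (213 / 200) ^ 3 := pow_le_pow_left₀ hm h1 3
  have m3 : 0 ≤ m ^ 3 := pow_nonneg hm 3
  have e4 : m ^ 4 ≤ 213 / 200 * m ^ 3 := by
    have : m ^ 4 = m * m ^ 3 := by ring
    rw [this]; exact mul_le_mul_of_nonneg_right h1 m3
  have e6 : m ^ 6 ≤ (213 / 200) ^ 3 * m ^ 3 := by
    have : m ^ 6 = m ^ 3 * m ^ 3 := by ring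
    rw [this]; exact mul_le_mul_of_nonneg_right h3 m3
  have e : (1 + 1037 / 1000 * pb2 m) * pb2 m = m / 25 + 1037 / 1000 * (1 / 625) * m ^ 2
      + 852 / 100000 * m ^ 3 + 1037 / 1000 * (2 * (1 / 25) * (852 / 100000)) * m ^ 4
      + 1037 / 1000 * (852 / 100000) ^ 2 * m ^ 6 := by unfold pb2; ring
  rw [e]
  unfold ph2
  have m2 : 0 ≤ m ^ 2 := by positivity
  norm_num at e4 e6 ⊢
  linarith

end Pool.Agent.RCG
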