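import Pool.Agent.RCGF.Em3
import Pool.Agent.RCG.Jint

/-! Integrated pair exponents for weights at most 1/50 (MP_73ccd0_lc, general graphs). -/

namespace Pool.Agent.RCG

open Set Finset Matrix Pool.Agent.RCRSHalf

set_option linter.unusedSectionVars false

variable {V : Type*} [Fintype V] [DecidableEq V]
variable {h : ℝ → V → V → ℝ} {H : V → V → ℝ → ℝ} {X : V → V → ℝ} {M μ : ℝ → ℝ} {t : ℝ}

/-- the upper pair exponent, `p` with horizon `T ≥ s`, `q` with horizon `s` -/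
theorem Cx.exU (hC : Cx h H X M μ t) (hM : M t ≤ 213 / 200) {H0 : Finset V} {p q : V}
    (hS : Sm X) (hp : p ∉ H0) (hq : q ∉ H0) {T s : ℝ} (hT : T ∈ Icc 0 t)
    (hs : s ∈ Icc 0 T) : Exq (cru2 h H X M H0 p T q s) s (kU (M s) (M T)) := by
  have hst : s ∈ Icc 0 t := ⟨hs.1, hs.2.trans hT.2⟩
  have := Exq.of_clock hC hst (rate := cru2 h H X M H0 p T q s)
    (Ψ := fun x => -hint (krL (M T - M s)) (M s - x))
    (Φ := fun x => hor (krL (M T - M s)) (M s - x))
    (fun x => by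
      have h1 : HasDerivAt (fun x : ℝ => M s - x) (-1) x := (hasDerivAt_id x).const_sub (M s)
      have h2 := ((hint_deriv (krL (M T - M s)) (M s - x)).comp x h1).neg
      refine h2.congr_deriv ?_
      ring) (fun r hr => by
      have hr' : r ∈ Icc 0 T := ⟨hr.1, hr.2.trans hs.2⟩
      obtain ⟨m0, m1⟩ := hC.m1 hM hT hr'
      obtain ⟨n0, n1⟩ := hC.m1 hM hst hr
      have h1 := (hC.dv1r hM hS hp hT hr').ru2 hC.hX (hC.dv1r hM hS hq hst hr)
        (pb1_nonneg m0) (pb1_nonneg n0) (nr1_nonneg _) (nr1_nonneg _)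
        (by have := pb1_nonneg m0; positivity) (by have := pb1_nonneg n0; positivity)
        (chord1 (pb1_max m0 m1)) (chord1 (pb1_max n0 n1)) (hC.hh.nonneg r)
        (hC.μ0 r ⟨hr.1, hr.2.trans hst.2⟩) (hC.le r ⟨hr.1, hr.2.trans hst.2⟩)
      refine h1.trans (mul_le_mul_of_nonneg_left ?_ (hC.μ0 r ⟨hr.1, hr.2.trans hst.2⟩))
      rw [krL_eq]
      have e : M s - M r + (M T - M s) = M T - M r := by ring
      rw [e]
      have p1 := pb1_ph m0 m1
      have p2 := pb1_ph n0 n1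
      have p3 : 0 ≤ (1 + 1018 / 1000 * pb1 (M s - M r)) * pb1 (M s - M r) := by
        have := pb1_nonneg n0; positivity
      have p4 := mul_le_mul p2 p1 (by have := pb1_nonneg m0; positivity) (ph1_nonneg n0)
      linarith)
  refine this.mono ?_
  have hM0 := hC.Mnn hst
  have h2 := hC.mono hT s hs
  have h3 := hC.mono ⟨hC.t0, le_rfl⟩ T hT
  have h4 := kU_int hM0 h2 (h3.trans hM)
  simp only [sub_self, hint_zero, neg_zero, sub_zero, zero_sub, neg_neg]
  exact h4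

/-- the lower pair exponent -/
theorem Cx.exL (hC : Cx h H X M μ t) (hM : M t ≤ 213 / 200) {H0 : Finset V} {p q : V}
    (hS : Sm X) (hp : p ∉ H0) (hq : q ∉ H0) {T s : ℝ} (hT : T ∈ Icc 0 t)
    (hs : s ∈ Icc 0 T) : Exq (crl2 h H X M H0 p T q s) s (qU (M s) (M T)) := by
  have hst : s ∈ Icc 0 t := ⟨hs.1, hs.2.trans hT.2⟩
  have := Exq.of_clock hC hst (rate := crl2 h H X M H0 p T q s)
    (Ψ := fun x => -hint (qrL (M T - M s)) (M s - x))
    (Φ := fun x => hor (qrL (M T - M s)) (M s - x))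
    (fun x => by
      have h1 : HasDerivAt (fun x : ℝ => M s - x) (-1) x := (hasDerivAt_id x).const_sub (M s)
      have h2 := ((hint_deriv (qrL (M T - M s)) (M s - x)).comp x h1).neg
      refine h2.congr_deriv ?_
      ring) (fun r hr => by
      have hr' : r ∈ Icc 0 T := ⟨hr.1, hr.2.trans hs.2⟩
      obtain ⟨m0, m1⟩ := hC.m1 hM hT hr'
      obtain ⟨n0, n1⟩ := hC.m1 hM hst hr
      have h1 := (hC.dv1r hM hS hp hT hr').rl2 hC.hX (hC.dv1r hM hS hq hst hr)
        (pb1_nonneg m0) (pb1_nonneg n0) (nr1_nonneg _) (nr1_nonneg _)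
        (by have := pb1_nonneg m0; positivity) (by have := pb1_nonneg n0; positivity)
        (chord1 (pb1_max m0 m1)) (chord1 (pb1_max n0 n1)) (hC.hh.nonneg r)
        (hC.μ0 r ⟨hr.1, hr.2.trans hst.2⟩) (hC.le r ⟨hr.1, hr.2.trans hst.2⟩)
      refine h1.trans (mul_le_mul_of_nonneg_left ?_ (hC.μ0 r ⟨hr.1, hr.2.trans hst.2⟩))
      rw [qrL_eq]
      have e : M s - M r + (M T - M s) = M T - M r := by ring
      rw [e]
      have p1 := mul_le_mul_of_nonneg_left (pb1_ph m0 m1) (nr1_nonneg (M s - M r))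
      have p2 := mul_le_mul_of_nonneg_left (pb1_ph n0 n1) (nr1_nonneg (M T - M r))
      linarith)
  refine this.mono ?_
  have hM0 := hC.Mnn hst
  have h2 := hC.mono hT s hs
  have h3 := hC.mono ⟨hC.t0, le_rfl⟩ T hT
  have h4 := qU_int hM0 h2 (h3.trans hM)
  simp only [sub_self, hint_zero, neg_zero, sub_zero, zero_sub, neg_neg]
  exact h4

/-- the exponent with a group: `v` has horizon `s`, the group `(u, w)` has horizon `T` -/
theorem Cx.exG (hC : Cx h H X M μ t) (hM : M t ≤ 213 / 200) {H0 : Finset V} {v u w : V}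
    (huw : u ≠ w) (hS : Sm X) (hv : v ∉ H0) (hu : u ∉ H0)
    (hw : w ∉ H0) {T s : ℝ} (hT : T ∈ Icc 0 t) (hs : s ∈ Icc 0 T) :
    Exq (fun x => ru2 (h x) H0 (fun a => Pt H X M H0 v s a x)
        (fun a => Nt X H0 v (M s - M x) a) (fun a => Pt2 H X M H0 u w T a x)
        (fun a => Nt2 X H0 u w (M T - M x) a)) s (kG (M s) (M T)) := by
  have hst : s ∈ Icc 0 t := ⟨hs.1, hs.2.trans hT.2⟩
  have := Exq.of_clock hC hst (rate := fun x => ru2 (h x) H0 (fun a => Pt H X M H0 v s a x)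
        (fun a => Nt X H0 v (M s - M x) a) (fun a => Pt2 H X M H0 u w T a x)
        (fun a => Nt2 X H0 u w (M T - M x) a))
    (Ψ := fun x => -hint (grL (M T - M s)) (M s - x))
    (Φ := fun x => hor (grL (M T - M s)) (M s - x))
    (fun x => by
      have h1 : HasDerivAt (fun x : ℝ => M s - x) (-1) x := (hasDerivAt_id x).const_sub (M s)
      have h2 := ((hint_deriv (grL (M T - M s)) (M s - x)).comp x h1).neg
      refine h2.congr_deriv ?_
      ring) (fun r hr => by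
      have hr' : r ∈ Icc 0 T := ⟨hr.1, hr.2.trans hs.2⟩
      obtain ⟨m0, m1⟩ := hC.m1 hM hT hr'
      obtain ⟨n0, n1⟩ := hC.m1 hM hst hr
      have h1 := (hC.dv1r hM hS hv hst hr).ru2 hC.hX (hC.dv2r hM hS huw hu hw hT hr')
        (pb1_nonneg n0) (pb2_nonneg m0) (nr1_nonneg _) (nr2_nonneg _)
        (by have := pb1_nonneg n0; positivity) (by have := pb2_nonneg m0; positivity)
        (chord1 (pb1_max n0 n1)) (chord2 (pb2_max m0 m1)) (hC.hh.nonneg r)
        (hC.μ0 r ⟨hr.1, hr.2.trans hst.2⟩) (hC.le r ⟨hr.1, hr.2.trans hst.2⟩)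
      refine h1.trans (mul_le_mul_of_nonneg_left ?_ (hC.μ0 r ⟨hr.1, hr.2.trans hst.2⟩))
      rw [grL_eq]
      have e : M s - M r + (M T - M s) = M T - M r := by ring
      rw [e]
      have p1 := pb2_ph m0 m1
      have p2 := pb1_ph n0 n1
      have p4 := mul_le_mul p2 p1 (by have := pb2_nonneg m0; positivity) (ph1_nonneg n0)
      linarith)
  refine this.mono ?_
  have hM0 := hC.Mnn hst
  have h2 := hC.mono hT s hs
  have h3 := hC.mono ⟨hC.t0, le_rfl⟩ T hT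
  have h4 := kG_int hM0 h2 (h3.trans hM)
  simp only [sub_self, hint_zero, neg_zero, sub_zero, zero_sub, neg_neg]
  exact h4

/-- sup of the closure exponent -/
theorem Cx.Y_d (hC : Cx h H X M μ t) {H0 : Finset V} {p : V} (hS : Sm X) (hp : p ∉ H0)
    {T r : ℝ} (hT : T ∈ Icc 0 t) (hr : r ∈ Icc 0 T) {a : V} (ha : a ∈ H0) :
    Yt X H0 p (M T - M r) a ≤ 408 / 100000 * (M T - M r) ^ 3 := by
  have hX := hC.hX
  have hm := hC.mm hT hr
  have hA := hX.rm_nonneg H0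
  have hR0 : ∀ a, 0 ≤ (rm X H0 *ᵥ Rh X H0 p) a := mulVec_nonneg hA (Rh_nonneg hX H0 p)
  have hAAR : ∀ a, (rm X H0 *ᵥ (rm X H0 *ᵥ Rh X H0 p)) a ≤ 23392 / 1000000 :=
    A_const_le hA (hX.rm_row H0) (by norm_num) (hS.AR hX H0 p)
  have h1 := (hC.tv hp hT hr).YR a ha
  have e2 : ((rm X H0) ^ 2 *ᵥ Rh X H0 p) a = (rm X H0 *ᵥ (rm X H0 *ᵥ Rh X H0 p)) a := by
    rw [pow_two, ← Matrix.mulVec_mulVec]
  rw [e2] at h1
  have hm3 : 0 ≤ (M T - M r) ^ 3 := pow_nonneg hm.1 3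
  have h2 := mul_le_mul_of_nonneg_left (hAAR a) (G3_nonneg hm.1)
  have h3 := G3_le' hm
  nlinarith

theorem Cx.Y_d0 (hC : Cx h H X M μ t) {H0 : Finset V} {p : V} (hS : Sm X) (hp : p ∉ H0)
    {T : ℝ} (hT : T ∈ Icc 0 t) {a : V} (ha : a ∈ H0) :
    Yt X H0 p (M T) a ≤ 408 / 100000 * (M T) ^ 3 := by
  have := hC.Y_d hS hp hT (r := 0) ⟨le_rfl, hT.1⟩ ha
  simpa only [hC.M0, sub_zero] using this

/-- sup of the lower influence -/
theorem Cx.N_d (hC : Cx h H X M μ t) (hM : M t ≤ 213 / 200) {H0 : Finset V} {p : V}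
    (hS : Sm X) (hp : p ∉ H0) {T r : ℝ} (hT : T ∈ Icc 0 t) (hr : r ∈ Icc 0 T) {a : V}
    (ha : a ∈ H0) : Nt X H0 p (M T - M r) a ≤ nr1 (M T - M r) :=
  (hC.dv1r hM hS hp hT hr).nb a ha

/-- deletion of `a` for the target `q`, general removed set -/
theorem Cx.del_d (hC : Cx h H X M μ t) {D : Finset V} {q a : V} (hS : Sm X) (hq : q ∉ D)
    (ha : a ∉ D) (hqa : q ≠ a) {T : ℝ} (hT : T ∈ Icc 0 t) :
    bb h (insert a D) q T ≤ Real.exp (H q a T + 408 / 100000 * (M T) ^ 3) * bb h D q T := by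
  have h1 := hC.del_up (D := D) (u := q) (q := a) hq ha hqa hT
  refine h1.trans (mul_le_mul_of_nonneg_right (Real.exp_le_exp.2 ?_)
    (bb_nonneg hC.hh _ _ (hC.mem hT)))
  have ha' : a ∈ (insert q D)ᶜ := by
    rw [Finset.mem_compl, Finset.mem_insert]
    push Not
    exact ⟨hqa.symm, ha⟩
  have := hC.Y_d0 (p := q) hS (H0 := (insert q D)ᶜ) (by simp) hT ha'
  linarith

end Pool.Agent.RCG
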