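import Pool.Agent.RCGF.Em4

/-! The explicit polynomials of stage 1 and their checks (MP_73ccd0_lc, general graphs). -/

namespace Pool.Agent.RCG

open Set Finset Matrix Pool.Agent.RCRSHalf

set_option linter.unusedSectionVars false

section poly

variable {R : Type} [Add R] [Mul R] [QC R]

/-- bound of `1 / ((1 + s) μ)` -/
def gl : List R := [QC.q 9902 10000, QC.q (-10139) 10000, QC.q 7241 10000, QC.q (-2358) 10000]

/-- bound of `exp (.00408 m^3) / (1 + s)` -/
def bl : List R := [QC.q 10051 10000, QC.q (-9292) 10000, QC.q 6583 10000, QC.q (-2127) 10000]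

/-- bound of `exp (.00408 m^3 + kU) / (1 + s)` -/
def bKl : List R := [QC.q 10052 10000, QC.q (-9269) 10000, QC.q 6732 10000, QC.q (-2175) 10000]

/-- the clock -/
def clM (s : R) : R := QC.q 101 100 * s + QC.q 11 200 * (s * s)

/-- the clock rate -/
def clmu (s : R) : R := QC.q 101 100 + QC.q 11 100 * s

def c_g (s : R) : R := clmu s * ((QC.q 1 1 + s) * hor gl (clM s)) + QC.q (-1) 1
def c_b (s : R) : R :=
  (QC.q 1 1 + s) * hor bl (clM s)
    + ng (QC.q 1005 1000 * (QC.q 1 1 + QC.q 41 10000 * (clM s * (clM s * clM s))))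
def c_bK (m : R) : R := hor bKl m + ng (hor bl m * (QC.q 1 1 + QC.q 10138 10000 * kU m (QC.q 213 200)))

def Wl : List R := [QC.q 1 1, QC.q 0 1, QC.q 128 10000]

/-- `e^{pb1} - 1` at `T - m` -/
def pxl (T : R) : List R :=
  [T * (QC.q 2027 100000 + QC.q 414 100000 * (T * T)),
    QC.q (-2027) 100000 + QC.q (-1242) 100000 * (T * T),
    QC.q 1242 100000 * T, QC.q (-414) 100000]

/-- `nr1 (T - m)` -/
def nrl (T : R) : List R :=
  [T * T * (QC.q 1170 100000 + QC.q 76 100000 * (T * T)),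
    T * (QC.q (-2340) 100000 + QC.q (-304) 100000 * (T * T)),
    QC.q 1170 100000 + QC.q 456 100000 * (T * T), QC.q (-304) 100000 * T, QC.q 76 100000]

/-- `kU m m + qU m T` -/
def dUl (T : R) : List R :=
  [QC.q 0 1, QC.q 0 1, QC.q 126 10000 * (T * T), QC.q 135 10000 + QC.q 18 10000 * (T * (T * T)),
    QC.q 0 1, QC.q 73 10000]

/-- `kU m T + qU m m` -/
def dVl (T : R) : List R :=
  [QC.q 0 1, QC.q 0 1, T * (QC.q 202 10000 + QC.q 50 10000 * (T * T)), QC.q (-67) 10000,
    QC.q 126 10000 + QC.q 23 10000 * T, QC.q 0 1, QC.q 18 10000]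

def ownl (T : R) : List R := lsc (QC.q 103 100) (lmul gl (lmul Wl (dUl T)))
def own2l (T : R) : List R := lsc (QC.q 10542 10000) (lmul gl (lmul Wl (dVl T)))
def nupl (T : R) : List R := lmul (pxl T) bKl
def nul (T : R) : List R := lmul (nrl T) bKl

/-- bound of `exp (.0202 log (1 + t)) - 1` -/
def eqT (T : R) : R := QC.q 2035 100000 * hint gl T

/-- the coefficient of the own error -/
def KoT (T : R) : R :=
  (QC.q 1 1 + eqT T) * hint (ownl T) T
    + QC.q 50 1 * (eqT T * (hint (nul T) T + QC.q 1 50 * hint (own2l T) T))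

/-- crude bound of the excess of `W` -/
def wT (T : R) : R := QC.q 103 10000 * (T * T)

def c_W (T : R) : R :=
  wT T + ng ((QC.q 1 1 + eqT T) * hint (nupl T) T + QC.q 1 50 * KoT T)

/-- exponent in the A-lemma -/
def fel (T : R) : List R :=
  [QC.q 0 1, QC.q 1 50, QC.q 103 10000 + T * (QC.q 202 10000 + QC.q 50 10000 * (T * T)),
    QC.q (-262) 100000, QC.q 126 10000 + QC.q 23 10000 * T, QC.q 0 1, QC.q 18 10000]

/-- `exp (m / 50 + .00408 m^3)` -/
def rl : List R := [QC.q 1 1, QC.q 2027 100000, QC.q 0 1, QC.q 414 100000]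

def nAl (T : R) : List R :=
  ladd (lsc (QC.q 206 10000) (lmul gl (lmul (fel T) [QC.q 1 1, QC.q 41 1000])))
    (lmul (nrl T) (lmul bKl rl))

/-- the A-factor excess -/
def alT (T : R) : R := T * T * (QC.q 6 10000 + QC.q 34 10000 * T)

def c_A (T : R) : R :=
  (QC.q 1 1 + alT T) * (QC.q 1 1 + ng ((QC.q 1 1 + eqT T) * hint (nAl T) T)) + QC.q (-1) 1

def c_fe (m T : R) : R := QC.q 79 1000 * m + ng (hor (fel T) m)

/-- exponent of the outer error -/
def fdl (T : R) : List R :=
  [QC.q 0 1, QC.q 0 1, QC.q 103 10000 + T * (QC.q 406 10000 + QC.q 112 10000 * (T * T)),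
    QC.q (-952) 100000, QC.q 126 10000 + QC.q 44 10000 * T, QC.q 0 1, QC.q 18 10000]

def c_fd (m T : R) : R := QC.q 79 1000 * (m * m) + ng (hor (fdl T) m)

/-- exponent of the inner error -/
def fcl (T : R) : List R :=
  [QC.q 0 1, QC.q 0 1, QC.q 109 10000 + T * (QC.q 202 10000 + QC.q 50 10000 * (T * T)),
    QC.q (-33) 10000, QC.q 126 10000 + QC.q 23 10000 * T, QC.q 0 1, QC.q 18 10000]

def c_fc (m T : R) : R := QC.q 57 1000 * (m * m) + ng (hor (fcl T) m)

def del (T : R) : List R := lmul (fdl T) [QC.q 1 1, QC.q 0 1, QC.q 41 1000]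
def chl (T : R) : List R := lmul (fcl T) [QC.q 1 1, QC.q 0 1, QC.q 3 100]
def Dpl (T : R) : List R := lsc (QC.q 103 100) (lmul gl (del T))
def Dl' (T : R) : List R := lI (Dpl T)
def Gl : List R := lsc (QC.q 101 100) (lI gl)
def psS (T : R) : List R :=
  lsc (QC.q 1045 1000) (lmul gl (ladd (Dl' T) (lmul (ladd Gl (Dl' T)) (chl T))))
def nhl (T : R) : List R :=
  lsc (QC.q 546 1000) (lmul [T * T, QC.q (-2) 1 * T, QC.q 1 1]
    (lmul bKl [QC.q 1 1, QC.q 0 1, QC.q 6 10000, QC.q 34 10000]))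
def ps4 (T : R) : List R := lsc (QC.q 1029 1000) (lmul (ladd Gl (Dl' T)) (nhl T))

/-- bound of the error of type `S` -/
def E1T (T : R) : R :=
  T * T * (T * T) * (QC.q 43 10000 + QC.q 26 10000 * T)
/-- bound of the error of type 4 -/
def E4T (T : R) : R :=
  T * T * (T * T) * (QC.q 473 10000 + T * (QC.q (-258) 10000 + QC.q 84 10000 * T))

def c_L (T : R) : R := QC.q 6954 10000 + ng (hint gl T)
def c_E1 (T : R) : R := E1T T + ng (hint (psS T) T)
def c_E4 (T : R) : R := E4T T + ng (hint (ps4 T) T)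

end poly

set_option maxRecDepth 100000 in
theorem ck_g : QE.nonnegB 30 0 0 0 (c_g QE.A) = true := by decide +kernel
set_option maxRecDepth 100000 in
theorem ck_b : QE.nonnegB 30 0 0 0 (c_b QE.A) = true := by decide +kernel

def T1Q : QE := QE.c 213 200 * QE.A

set_option maxRecDepth 100000 in
theorem ck_bK : QE.nonnegB 60 0 0 0 (c_bK T1Q) = true := by decide +kernel
set_option maxRecDepth 100000 in
theorem ck_L : QE.nonnegB 60 0 0 0 (c_L T1Q) = true := by decide +kernel
set_option maxRecDepth 100000 in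
theorem ck_gn : QE.nonnegB 60 0 0 0 (hor gl T1Q) = true := by decide +kernel
set_option maxRecDepth 100000 in
theorem ck_bn : QE.nonnegB 60 0 0 0 (hor bl T1Q) = true := by decide +kernel
set_option maxRecDepth 100000 in
theorem ck_bKn : QE.nonnegB 60 0 0 0 (hor bKl T1Q) = true := by decide +kernel
set_option maxRecDepth 100000 in
theorem ck_W : QE.nonnegB 60 0 0 0 (c_W T1Q) = true := by decide +kernel
set_option maxRecDepth 100000 in
theorem ck_A : QE.nonnegB 60 0 0 0 (c_A T1Q) = true := by decide +kernel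
set_option maxRecDepth 100000 in
theorem ck_fe : QE.nonnegB 12 6 0 0 (c_fe mQ TQ) = true := by decide +kernel
set_option maxRecDepth 100000 in
theorem ck_fd : QE.nonnegB 12 6 0 0 (c_fd mQ TQ) = true := by decide +kernel
set_option maxRecDepth 100000 in
theorem ck_fc : QE.nonnegB 12 6 0 0 (c_fc mQ TQ) = true := by decide +kernel
set_option maxRecDepth 100000 in
theorem ck_E1 : QE.nonnegB 60 0 0 0 (c_E1 T1Q) = true := by decide +kernel
set_option maxRecDepth 100000 in
theorem ck_E4 : QE.nonnegB 60 0 0 0 (c_E4 T1Q) = true := by decide +kernel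

end Pool.Agent.RCG
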