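import Pool.Agent.RCGF.Em5

/-! The hypotheses of stage 1 and elementary consequences (MP_73ccd0_lc, general graphs). -/

namespace Pool.Agent.RCG

open Set Finset Matrix Pool.Agent.RCRSHalf

set_option linter.unusedSectionVars false

variable {V : Type*} [Fintype V] [DecidableEq V]
variable {h : ℝ → V → V → ℝ} {H : V → V → ℝ → ℝ} {X : V → V → ℝ} {M μ : ℝ → ℝ} {t : ℝ}

/-- hypotheses of stage 1, `re` is the set of real vertices -/
structure S1 (re : V → Prop) (h : ℝ → V → V → ℝ) (H : V → V → ℝ → ℝ) (X : V → V → ℝ)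
    (M μ : ℝ → ℝ) (t : ℝ) : Prop where
  cx : Cx h H X M μ t
  clk : ∀ s ∈ Icc 0 t, M s = 101 / 100 * s + 11 / 200 * s ^ 2
  mu : ∀ s ∈ Icc 0 t, μ s = 101 / 100 + 11 / 100 * s
  sm : ∀ a b, X a b ≤ 1 / 50
  pd : ∀ p, re p ∨ ∃ c, ∀ r, r ≠ c → X p r = 0
  b_lo : ∀ p, re p → ∀ s ∈ Icc 0 t, 1 / (1 + s) ≤ bb h ∅ p s
  b_up : ∀ p, re p → ∀ s ∈ Icc 0 t, bb h ∅ p s ≤ 1005 / 1000 / (1 + s)
  rt : ∀ p q, re p → re q → p ≠ q → ∀ s ∈ Icc 0 t, dE h p q s ≤ 103 / 100 * X p q / (1 + s)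
  it : ∀ p q, re p → re q → p ≠ q → ∀ s ∈ Icc 0 t, ∀ E : ℝ → ℝ,
    (∀ r ∈ Icc 0 s, HasDerivAt E (dE h p q r) r) → E 0 = 0 →
    E s ≤ 101 / 100 * X p q * Real.log (1 + s)

variable {re : V → Prop}

theorem S1.sub (hS : S1 re h H X M μ t) {T : ℝ} (hT : T ∈ Icc 0 t) : S1 re h H X M μ T where
  cx := hS.cx.sub hT
  clk s hs := hS.clk s ⟨hs.1, hs.2.trans hT.2⟩
  mu s hs := hS.mu s ⟨hs.1, hs.2.trans hT.2⟩
  sm := hS.sm
  pd := hS.pd
  b_lo p hp s hs := hS.b_lo p hp s ⟨hs.1, hs.2.trans hT.2⟩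
  b_up p hp s hs := hS.b_up p hp s ⟨hs.1, hs.2.trans hT.2⟩
  rt p q hp hq hpq s hs := hS.rt p q hp hq hpq s ⟨hs.1, hs.2.trans hT.2⟩
  it p q hp hq hpq s hs := hS.it p q hp hq hpq s ⟨hs.1, hs.2.trans hT.2⟩

theorem S1.Mt (hS : S1 re h H X M μ t) : M t ≤ 213 / 200 := by
  have h1 := hS.cx.t0
  have h2 := hS.cx.t1
  rw [hS.clk t ⟨h1, le_rfl⟩]
  nlinarith

theorem S1.M_le (hS : S1 re h H X M μ t) {s : ℝ} (hs : s ∈ Icc 0 t) : M s ≤ 213 / 200 :=
  (hS.cx.mono ⟨hS.cx.t0, le_rfl⟩ s hs).trans hS.Mt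

theorem S1.cM_eq (hS : S1 re h H X M μ t) {s : ℝ} (hs : s ∈ Icc 0 t) : clM s = M s := by
  rw [hS.clk s hs]
  simp only [clM, QC.q]
  push_cast
  ring

theorem S1.cmu_eq (hS : S1 re h H X M μ t) {s : ℝ} (hs : s ∈ Icc 0 t) : clmu s = μ s := by
  rw [hS.mu s hs]
  simp only [clmu, QC.q]
  push_cast
  ring

theorem chk1 {n1 : ℕ} {e : QE} (h : QE.nonnegB n1 0 0 0 e = true) {s : ℝ} (hs : 0 ≤ s)
    (hs1 : s ≤ 1) : 0 ≤ QE.eval s 0 0 0 e :=
  QE.nonneg_of_check h hs hs1 (le_refl (0 : ℝ)) zero_le_one (le_refl (0 : ℝ)) zero_le_one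
    (le_refl (0 : ℝ)) zero_le_one

/-- check in the variable `T = 213/200 A` -/
theorem chkT {n1 : ℕ} {e : QE} (h : QE.nonnegB n1 0 0 0 e = true) {T : ℝ} (hT : 0 ≤ T)
    (hT1 : T ≤ 213 / 200) : ∃ x : ℝ, 0 ≤ QE.eval x 0 0 0 e ∧ QE.eval x 0 0 0 T1Q = T := by
  refine ⟨T / (213 / 200), chk1 h (by positivity) ((div_le_one (by norm_num)).2 hT1), ?_⟩
  simp only [T1Q, QE.eval]
  push_cast
  field_simp

theorem q_one : (QC.q 1 1 : ℝ) = 1 := by simp [QC.q]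
theorem q_zero : (QC.q 0 1 : ℝ) = 0 := by simp [QC.q]
theorem q_neg : (QC.q (-1) 1 : ℝ) = -1 := by simp [QC.q]

/-- `1 / (1 + s) ≤ μ g(M)` -/
theorem S1.g_ok (hS : S1 re h H X M μ t) {s : ℝ} (hs : s ∈ Icc 0 t) :
    1 / (1 + s) ≤ μ s * hor gl (M s) := by
  have h := chk1 ck_g hs.1 (hs.2.trans hS.cx.t1)
  have e : QE.eval s 0 0 0 (c_g QE.A) = c_g s := rfl
  rw [e] at h
  unfold c_g at h
  rw [hS.cM_eq hs, hS.cmu_eq hs, q_one, q_neg] at h
  have h1 : 0 < 1 + s := by linarith [hs.1]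
  rw [div_le_iff₀ h1]
  linarith

/-- chord bound of the exponential with a small right end -/
theorem exp_chord {y b : ℝ} (h0 : 0 ≤ y) (h1 : y ≤ b) (hb : b ≤ 1 / 4) :
    Real.exp y ≤ 1 + (1 + b * (1 / 2 + b * (1 / 6 + b / 18))) * y := by
  have hx := Real.exp_bound' h0 (h1.trans (hb.trans (by norm_num))) (n := 4) (by norm_num)
  simp only [Finset.sum_range_succ, Finset.sum_range_zero, Nat.factorial] at hx
  norm_num at hx
  have hb0 := h0.trans h1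
  have e2 : y ^ 2 ≤ b * y := by nlinarith
  have e3 : y ^ 3 ≤ b ^ 2 * y := by
    have : y ^ 3 = y * y ^ 2 := by ring
    rw [this]
    calc y * y ^ 2 ≤ y * (b * y) := mul_le_mul_of_nonneg_left e2 h0
      _ = b * y * y := by ring
      _ ≤ b * y * b := mul_le_mul_of_nonneg_left h1 (by positivity)
      _ = _ := by ring
  have e4 : y ^ 4 ≤ b ^ 3 * y := by
    have : y ^ 4 = y * y ^ 3 := by ring
    rw [this]
    calc y * y ^ 3 ≤ y * (b ^ 2 * y) := mul_le_mul_of_nonneg_left e3 h0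
      _ = b ^ 2 * y * y := by ring
      _ ≤ b ^ 2 * y * b := mul_le_mul_of_nonneg_left h1 (by positivity)
      _ = _ := by ring
  have e5 : 0 ≤ b ^ 3 * y := by positivity
  nlinarith

/-- `1.005 exp (.00408 M^3) / (1 + s) ≤ b(M)` -/
theorem S1.b_ok (hS : S1 re h H X M μ t) {s : ℝ} (hs : s ∈ Icc 0 t) :
    Real.exp (408 / 100000 * (M s) ^ 3) * (1005 / 1000 / (1 + s)) ≤ hor bl (M s) := by
  have h := chk1 ck_b hs.1 (hs.2.trans hS.cx.t1)
  have e : QE.eval s 0 0 0 (c_b QE.A) = c_b s := rfl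
  rw [e] at h
  unfold c_b at h
  rw [hS.cM_eq hs, q_one, add_ng] at h
  simp only [QC.q] at h
  push_cast at h
  have h1 : 0 < 1 + s := by linarith [hs.1]
  have hM0 := hS.cx.Mnn hs
  have hM1 := hS.M_le hs
  have h3 : (M s) ^ 3 ≤ (213 / 200) ^ 3 := pow_le_pow_left₀ hM0 hM1 3
  have h30 : 0 ≤ (M s) ^ 3 := pow_nonneg hM0 3
  set y := 408 / 100000 * (M s) ^ 3 with hy
  have hy0 : 0 ≤ y := by positivity
  have hy1 : y ≤ 493 / 100000 := by rw [hy]; norm_num at h3 ⊢; linarith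
  have he := exp_chord hy0 hy1 (by norm_num)
  have he2 : Real.exp y ≤ 1 + 41 / 10000 * (M s) ^ 3 := by
    refine he.trans ?_
    rw [hy]
    norm_num
    linarith
  rw [← mul_div_assoc, div_le_iff₀ h1]
  have e3 : M s * (M s * M s) = (M s) ^ 3 := by ring
  rw [e3] at h
  linarith

/-- `kU m T ≤ kU m (213/200)` -/
theorem kU_mono {m T : ℝ} (hm : 0 ≤ m) (hmT : m ≤ T) (hT : T ≤ 213 / 200) :
    kU m T ≤ kU m (QC.q 213 200) := by
  unfold kU
  have hT0 : 0 ≤ T := hm.trans hmT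
  simp only [QC.q]
  push_cast
  have h3 : T * T * T ≤ (213 / 200) * (213 / 200) * (213 / 200) := by
    have := pow_le_pow_left₀ hT0 hT 3
    nlinarith
  have hmm : 0 ≤ m * m := mul_nonneg hm hm
  refine mul_le_mul_of_nonneg_left ?_ hmm
  have h4 := mul_le_mul_of_nonneg_left hT hmm
  linarith

theorem kU_nonneg {m T : ℝ} (hm : 0 ≤ m) (hmT : m ≤ T) : 0 ≤ kU m T := by
  unfold kU
  have hT0 : 0 ≤ T := hm.trans hmT
  simp only [QC.q]
  push_cast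
  have h3 : 0 ≤ T * T * T := by positivity
  have hmm : 0 ≤ m * m := mul_nonneg hm hm
  have h4 := mul_nonneg hmm hT0
  refine mul_nonneg hmm ?_
  linarith

theorem kG_nonneg {m T : ℝ} (hm : 0 ≤ m) (hmT : m ≤ T) : 0 ≤ kG m T := by
  unfold kG
  have hT0 : 0 ≤ T := hm.trans hmT
  simp only [QC.q]
  push_cast
  have h3 : 0 ≤ T * T * T := by positivity
  have hmm : 0 ≤ m * m := mul_nonneg hm hm
  have h4 := mul_nonneg hmm hT0
  refine mul_nonneg hmm ?_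
  linarith

theorem qU_nonneg {m T : ℝ} (hm : 0 ≤ m) (hT : 0 ≤ T) : 0 ≤ qU m T := by
  unfold qU
  simp only [QC.q]
  push_cast
  positivity

theorem kU_le {m T : ℝ} (hm : 0 ≤ m) (hmT : m ≤ T) (hT : T ≤ 213 / 200) :
    kU m T ≤ 27 / 1000 := by
  refine (kU_mono hm hmT hT).trans ?_
  unfold kU
  simp only [QC.q]
  push_cast
  have h1 : m ≤ 213 / 200 := hmT.trans hT
  have h2 : m * m ≤ (213 / 200) * (213 / 200) := mul_le_mul h1 h1 hm (by norm_num)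
  have hmm : 0 ≤ m * m := mul_nonneg hm hm
  have e : m * m * (202 / 10000 * (213 / 200) + -67 / 10000 * m
      + 50 / 10000 * (213 / 200 * (213 / 200) * (213 / 200)) + 23 / 10000 * (m * m * (213 / 200)))
      ≤ 27 / 1000 := by
    have h3 : 202 / 10000 * (213 / 200) + -67 / 10000 * m
      + 50 / 10000 * (213 / 200 * (213 / 200) * (213 / 200)) + 23 / 10000 * (m * m * (213 / 200))
      ≤ 2756 / 100000 + 245 / 100000 * (m * m) - 67 / 10000 * m := by norm_num; linarith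
    refine (mul_le_mul_of_nonneg_left h3 hmm).trans ?_
    nlinarith [mul_nonneg hmm hm, mul_nonneg hm (sub_nonneg.2 h1), mul_nonneg hmm (sub_nonneg.2 h1),
      mul_nonneg hmm hmm, mul_nonneg (mul_nonneg hmm hm) (sub_nonneg.2 h1)]
  norm_num at e ⊢
  linarith

/-- `b(m) exp (kU) ≤ bK(m)` -/
theorem bK_ok {m T : ℝ} (hm : 0 ≤ m) (hmT : m ≤ T) (hT : T ≤ 213 / 200)
    (hb : 0 ≤ hor bl m) : hor bl m * Real.exp (kU m T) ≤ hor bKl m := by
  obtain ⟨x, h, e1⟩ := chkT ck_bK hm (hmT.trans hT)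
  have e : QE.eval x 0 0 0 (c_bK T1Q) = c_bK (QE.eval x 0 0 0 T1Q) := rfl
  rw [e, e1] at h
  unfold c_bK at h
  rw [add_ng, q_one] at h
  have k0 := kU_nonneg hm hmT
  have k1 := kU_le hm hmT hT
  have k2 := kU_mono hm hmT hT
  have h3 : Real.exp (kU m T) ≤ 1 + (QC.q 10138 10000 : ℝ) * kU m (QC.q 213 200) := by
    refine (exp_chord k0 k1 (by norm_num)).trans ?_
    have h4 : (1 + 27 / 1000 * (1 / 2 + 27 / 1000 * (1 / 6 + 27 / 1000 / 18))) * kU m T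
        ≤ (QC.q 10138 10000 : ℝ) * kU m (QC.q 213 200) := by
      refine mul_le_mul ?_ k2 k0 ?_
      · simp only [QC.q]; norm_num
      · simp only [QC.q]; norm_num
    linarith
  have := mul_le_mul_of_nonneg_left h3 hb
  linarith

end Pool.Agent.RCG
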