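import Pool.Agent.RCGF.Em6

/-! The own gain at stage 1 (MP_73ccd0_lc, general graphs). -/

namespace Pool.Agent.RCG

open Set Finset Matrix Pool.Agent.RCRSHalf

set_option linter.unusedSectionVars false

variable {V : Type*} [Fintype V] [DecidableEq V]
variable {h : ℝ → V → V → ℝ} {H : V → V → ℝ → ℝ} {X : V → V → ℝ} {M μ : ℝ → ℝ} {t : ℝ}
variable {re : V → Prop}

theorem gl_nn {m : ℝ} (hm : 0 ≤ m) (h1 : m ≤ 213 / 200) : 0 ≤ hor gl m := by
  obtain ⟨x, h, e1⟩ := chkT ck_gn hm h1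
  rw [ev_hor, e1] at h
  exact h

theorem bl_nn {m : ℝ} (hm : 0 ≤ m) (h1 : m ≤ 213 / 200) : 0 ≤ hor bl m := by
  obtain ⟨x, h, e1⟩ := chkT ck_bn hm h1
  rw [ev_hor, e1] at h
  exact h

theorem bKl_nn {m : ℝ} (hm : 0 ≤ m) (h1 : m ≤ 213 / 200) : 0 ≤ hor bKl m := by
  obtain ⟨x, h, e1⟩ := chkT ck_bKn hm h1
  rw [ev_hor, e1] at h
  exact h

/-- an antiderivative with nonnegative integrand is monotone -/
theorem hint_mono {cs : List ℝ} {a b : ℝ} (hab : a ≤ b) (h : ∀ m ∈ Icc a b, 0 ≤ hor cs m) :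
    hint cs a ≤ hint cs b := by
  have := nonneg_of_forward (U := fun x => hint cs x - hint cs a) (U' := fun x => hor cs x)
    (a := a) (s := b) (fun x _ => (hint_deriv cs x).sub_const _) (by simp)
    (fun x hx _ => h x hx) b ⟨hab, le_rfl⟩
  linarith

theorem hint_nonneg {cs : List ℝ} {b : ℝ} (hb : 0 ≤ b) (h : ∀ m ∈ Icc 0 b, 0 ≤ hor cs m) :
    0 ≤ hint cs b := by
  have := hint_mono hb h
  rwa [hint_zero] at this

theorem LG_max {T : ℝ} (hT : 0 ≤ T) (h1 : T ≤ 213 / 200) : hint gl T ≤ 6954 / 10000 := by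
  obtain ⟨x, h, e1⟩ := chkT ck_L hT h1
  have e : QE.eval x 0 0 0 (c_L T1Q) = c_L (QE.eval x 0 0 0 T1Q) := rfl
  rw [e, e1] at h
  unfold c_L at h
  rw [add_ng] at h
  simp only [QC.q] at h
  push_cast at h
  linarith

theorem LG_nn {T : ℝ} (hT : 0 ≤ T) (h1 : T ≤ 213 / 200) : 0 ≤ hint gl T :=
  hint_nonneg hT fun m hm => gl_nn hm.1 (hm.2.trans h1)

theorem eqT_eq (T : ℝ) : eqT T = 2035 / 100000 * hint gl T := by
  unfold eqT; simp only [QC.q]; push_cast; ring

/-- derivative of a clock polynomial -/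
theorem S1.hd (hS : S1 re h H X M μ t) (cs : List ℝ) {s : ℝ} (hs : s ∈ Icc 0 t) :
    HasDerivAt (fun s => hint cs (M s)) (hor cs (M s) * μ s) s :=
  (hint_deriv cs (M s)).comp s (hS.cx.Md s hs)

theorem S1.log_le (hS : S1 re h H X M μ t) {s : ℝ} (hs : s ∈ Icc 0 t) :
    Real.log (1 + s) ≤ hint gl (M s) := by
  have key := nonneg_of_forward (U := fun s => hint gl (M s) - Real.log (1 + s))
    (U' := fun s => hor gl (M s) * μ s - 1 / (1 + s)) (a := 0) (s := t)
    (fun r hr => by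
      have h1 : (1 : ℝ) + r ≠ 0 := by linarith [hr.1]
      have h2 : HasDerivAt (fun s : ℝ => Real.log (1 + s)) (1 / (1 + r)) r :=
        ((hasDerivAt_id r).const_add 1).log h1
      exact (hS.hd gl hr).sub h2)
    (by simp [hS.cx.M0, hint_zero])
    (fun r hr _ => by
      have := hS.g_ok hr
      linarith) s hs
  linarith

theorem S1.log_nn (hS : S1 re h H X M μ t) {s : ℝ} (hs : s ∈ Icc 0 t) :
    0 ≤ Real.log (1 + s) := Real.log_nonneg (by linarith [hs.1])

theorem S1.rate (hS : S1 re h H X M μ t) {p q : V} (hp : re p) (hq : re q) (hpq : p ≠ q) {s : ℝ}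
    (hs : s ∈ Icc 0 t) : dE h p q s ≤ X p q * (μ s * (103 / 100 * hor gl (M s))) := by
  have h1 := hS.rt p q hp hq hpq s hs
  have h2 := hS.g_ok hs
  have hx := hS.cx.hX.nonneg p q
  calc dE h p q s ≤ 103 / 100 * X p q / (1 + s) := h1
    _ = 103 / 100 * X p q * (1 / (1 + s)) := by ring
    _ ≤ 103 / 100 * X p q * (μ s * hor gl (M s)) := mul_le_mul_of_nonneg_left h2 (by positivity)
    _ = _ := by ring

theorem S1.E_nn (hS : S1 re h H X M μ t) {p q : V} {E : ℝ → ℝ}
    (hE : ∀ s ∈ Icc 0 t, HasDerivAt E (dE h p q s) s) (hE0 : E 0 = 0) {s : ℝ} (hs : s ∈ Icc 0 t) :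
    0 ≤ E s :=
  nonneg_of_forward (U := E) (U' := dE h p q) (a := 0) (s := t) hE (by rw [hE0])
    (fun r hr _ => dE_nonneg hS.cx.hh p q (hS.cx.mem hr)) s hs

theorem S1.E_le (hS : S1 re h H X M μ t) {p q : V} (hp : re p) (hq : re q) (hpq : p ≠ q)
    {E : ℝ → ℝ} (hE : ∀ s ∈ Icc 0 t, HasDerivAt E (dE h p q s) s) (hE0 : E 0 = 0) {s : ℝ}
    (hs : s ∈ Icc 0 t) : E s ≤ X p q * (101 / 100 * hint gl (M s)) := by
  have h1 := hS.it p q hp hq hpq s hs E (fun r hr => hE r ⟨hr.1, hr.2.trans hs.2⟩) hE0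
  have h2 := hS.log_le hs
  have hx := hS.cx.hX.nonneg p q
  have := mul_le_mul_of_nonneg_left h2 hx
  linarith

/-- `exp E - 1` -/
theorem S1.eE (hS : S1 re h H X M μ t) {p q : V} (hp : re p) (hq : re q) (hpq : p ≠ q)
    {E : ℝ → ℝ} (hE : ∀ s ∈ Icc 0 t, HasDerivAt E (dE h p q s) s) (hE0 : E 0 = 0) :
    Real.exp (E t) - 1 ≤ X p q * (50 * eqT (M t)) := by
  have ht : t ∈ Icc 0 t := ⟨hS.cx.t0, le_rfl⟩
  have h0 := hS.E_nn hE hE0 ht
  have h1 := hS.E_le hp hq hpq hE hE0 ht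
  have hx := hS.cx.hX.nonneg p q
  have hx1 := hS.sm p q
  have hM0 := hS.cx.Mnn ht
  have hL := LG_max hM0 hS.Mt
  have hL0 := LG_nn hM0 hS.Mt
  have h2 : E t ≤ 1405 / 100000 := by
    have : X p q * (101 / 100 * hint gl (M t)) ≤ 1 / 50 * (101 / 100 * (6954 / 10000)) :=
      mul_le_mul hx1 (by linarith) (by linarith) (by norm_num)
    norm_num at this ⊢
    linarith
  have h3 := exp_chord h0 h2 (by norm_num)
  rw [eqT_eq]
  have h4 := mul_nonneg hx hL0
  norm_num at h3
  nlinarith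

theorem S1.eE1 (hS : S1 re h H X M μ t) {p q : V} (hp : re p) (hq : re q) (hpq : p ≠ q)
    {E : ℝ → ℝ} (hE : ∀ s ∈ Icc 0 t, HasDerivAt E (dE h p q s) s) (hE0 : E 0 = 0) :
    Real.exp (E t) ≤ 1 + eqT (M t) := by
  have ht : t ∈ Icc 0 t := ⟨hS.cx.t0, le_rfl⟩
  have h1 := hS.eE hp hq hpq hE hE0
  have hx1 := hS.sm p q
  have hL0 := LG_nn (hS.cx.Mnn ht) hS.Mt
  have h2 : 0 ≤ eqT (M t) := by rw [eqT_eq]; positivity
  nlinarith

/-- the crude bound of `W` -/
theorem S1.W_crude (hS : S1 re h H X M μ t) {p q : V} (hpq : p ≠ q) {s : ℝ} (hs : s ∈ Icc 0 t) :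
    Wr h p q s ≤ hor Wl (M s) := by
  have hC := hS.cx
  have hN := hC.N_d hS.Mt hS.sm (H0 := ({p} : Finset V)ᶜ) (p := p) (by simp) hs (r := 0)
    ⟨le_rfl, hs.1⟩ (a := q) (by simpa using hpq.symm)
  rw [hC.M0, sub_zero] at hN
  have hM0 := hC.Mnn hs
  have hM1 := hS.M_le hs
  set n := Nt X ({p} : Finset V)ᶜ p (M s) q with hn
  have h2 : (M s) ^ 2 ≤ (213 / 200) ^ 2 := pow_le_pow_left₀ hM0 hM1 2
  have h20 : 0 ≤ (M s) ^ 2 := by positivity
  have h4 : (M s) ^ 4 ≤ (213 / 200) ^ 2 * (M s) ^ 2 := by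
    have : (M s) ^ 4 = (M s) ^ 2 * (M s) ^ 2 := by ring
    rw [this]; exact mul_le_mul_of_nonneg_right h2 h20
  have hn1 : nr1 (M s) ≤ 12563 / 1000000 * (M s) ^ 2 := by unfold nr1; norm_num at h4 ⊢; linarith
  have hn2 : n ≤ 12563 / 1000000 * (M s) ^ 2 := hN.trans hn1
  have hn3 : n ≤ 1425 / 100000 := by norm_num at h2; linarith
  have h1n : 0 < 1 - n := by linarith
  have hW := hC.W_sup hpq hs (by linarith)
  refine hW.trans ?_
  rw [inv_le_iff_one_le_mul₀ h1n]
  have e : hor Wl (M s) = 1 + 128 / 10000 * (M s) ^ 2 := by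
    simp only [hor, Wl, QC.q]; push_cast; ring
  rw [e]
  have hn0 : 0 ≤ 128 / 10000 * (M s) ^ 2 := by positivity
  nlinarith [mul_le_mul_of_nonneg_left hn3 hn0]

theorem dU_eq (m T : ℝ) : hor (dUl T) m = kU m m + qU m T := by
  simp only [hor, dUl, QC.q, kU, qU]; push_cast; ring

theorem dV_eq (m T : ℝ) : hor (dVl T) m = kU m T + qU m m := by
  simp only [hor, dVl, QC.q, kU, qU]; push_cast; ring

theorem nrl_eq (m T : ℝ) : hor (nrl T) m = nr1 (T - m) := by
  simp only [hor, nrl, QC.q, nr1]; push_cast; ring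

theorem qU_max {m : ℝ} (hm : 0 ≤ m) (h1 : m ≤ 213 / 200) : qU m m ≤ 189 / 10000 := by
  have h4 : m ^ 4 ≤ (213 / 200) ^ 4 := pow_le_pow_left₀ hm h1 4
  have h6 : m ^ 6 ≤ (213 / 200) ^ 6 := pow_le_pow_left₀ hm h1 6
  have e : qU m m = 126 / 10000 * m ^ 4 + 18 / 10000 * m ^ 6 := by
    simp only [QC.q, qU]; push_cast; ring
  rw [e]
  norm_num at h4 h6 ⊢
  linarith

/-- `e^{-H} b_{q|p} ≤ b(M)` -/
theorem S1.beta (hS : S1 re h H X M μ t) {p q : V} (hq : re q) (hpq : p ≠ q) {s : ℝ}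
    (hs : s ∈ Icc 0 t) : Real.exp (-H p q s) * bb h {p} q s ≤ hor bl (M s) := by
  have hC := hS.cx
  have h1 := hC.del_d (D := ∅) (q := q) (a := p) hS.sm (by simp) (by simp) hpq.symm hs
  rw [insert_empty_eq, hC.hh.Hsymm q p] at h1
  refine le_trans ?_ (hS.b_ok hs)
  have h2 := hS.b_up q hq s hs
  calc Real.exp (-H p q s) * bb h {p} q s
      ≤ Real.exp (-H p q s) * (Real.exp (H p q s + 408 / 100000 * M s ^ 3) *
        (1005 / 1000 / (1 + s))) := by
        refine mul_le_mul_of_nonneg_left (h1.trans ?_) (Real.exp_pos _).le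
        exact mul_le_mul_of_nonneg_left h2 (Real.exp_pos _).le
    _ = Real.exp (408 / 100000 * M s ^ 3) * (1005 / 1000 / (1 + s)) := by
        rw [← mul_assoc, ← Real.exp_add]; congr 2; ring

/-- row sums of the rates against a bounded function -/
theorem Cx.row_rate (hC : Cx h H X M μ t) {S : Finset V} {f : V → ℝ} {b : ℝ} {q : V} {s : ℝ}
    (hs : s ∈ Icc 0 t) (hf : ∀ w ∈ S, f w ≤ b) (hb : 0 ≤ b) :
    ∑ w ∈ S, h s q w * f w ≤ μ s * b := by
  calc ∑ w ∈ S, h s q w * f w ≤ ∑ w ∈ S, (μ s * X q w) * b := by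
        refine Finset.sum_le_sum fun w hw => ?_
        calc h s q w * f w ≤ h s q w * b := mul_le_mul_of_nonneg_left (hf w hw) (hC.hh.nonneg _ _ _)
          _ ≤ _ := mul_le_mul_of_nonneg_right (hC.le s hs q w) hb
    _ = μ s * ((∑ w ∈ S, X q w) * b) := by
        rw [Finset.sum_mul, Finset.mul_sum]
        exact Finset.sum_congr rfl fun w _ => by ring
    _ ≤ μ s * (1 * b) := mul_le_mul_of_nonneg_left
        (mul_le_mul_of_nonneg_right (hC.hX.row_le q S) hb) (hC.μ0 s hs)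
    _ = _ := by ring

/-- The own gain with a given bound of the N-part. -/
theorem S1.W_own (hS : S1 re h H X M μ t) {p q : V} (hp : re p) (hq : re q) (hpq : p ≠ q)
    {E : ℝ → ℝ} (hE : ∀ s ∈ Icc 0 t, HasDerivAt E (dE h p q s) s) (hE0 : E 0 = 0)
    {Γ2 g2 : ℝ → ℝ} (hΓ2 : ∀ s ∈ Icc 0 t, HasDerivAt Γ2 (g2 s) s)
    (hg2 : ∀ s ∈ Icc 0 t, ∑ w ∈ ({p, q} : Finset V)ᶜ, h s q w *
          ex (lw h ∅ s) {p, q, w} (fun F => RCG.tgt h p t F s - RCG.tgt h p t (insert w F) s)
      ≤ bb h {q} p t * g2 s) :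
    Wr h p q t ≤ Real.exp (-E t) * (1 + Real.exp (E t) * (Γ2 t - Γ2 0) + X p q * KoT (M t)) := by
  have hC := hS.cx
  have ht : t ∈ Icc 0 t := ⟨hC.t0, le_rfl⟩
  have hM := hS.Mt
  have hT0 := hC.Mnn ht
  set T := M t with hT
  have hx := hC.hX.nonneg p q
  have mem : ∀ s ∈ Icc 0 t, 0 ≤ M s ∧ M s ≤ T ∧ M s ≤ 213 / 200 := fun s hs =>
    ⟨hC.Mnn hs, hC.mono ht s hs, hS.M_le hs⟩
  have hbK : ∀ m ∈ Icc 0 T, 0 ≤ hor (nul T) m := fun m hm => by
    unfold nul
    rw [hor_lmul, nrl_eq]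
    exact mul_nonneg (nr1_nonneg _) (bKl_nn hm.1 (hm.2.trans hM))
  have key := hC.own_outer hpq hE hE0 (K := fun T s => kU (M s) (M T))
    (Q := fun T s => qU (M s) (M T)) (β := fun s => hor bl (M s))
    (d := fun s => kU (clM s) (clM s) + qU (clM s) T) (d' := fun s => kU (clM s) T + qU (clM s) (clM s))
    (w := fun s => hor Wl (M s)) (ν := hint (nul T) T) (ν' := Γ2 t - Γ2 0)
    (δ := X p q * hint (ownl T) T) (δ' := X p q * hint (own2l T) T)
    (fun T' hT' s hs => hC.exU hM hS.sm (by simp) (by simp) hT' hs)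
    (fun T' hT' s hs => hC.exL hM hS.sm (by simp) (by simp) hT' hs)
    (fun s hs => by rw [hS.cM_eq hs])
    (by unfold kU qU clM; fun_prop)
    (fun T' hT' s hs => by
      have hs' : s ∈ Icc 0 t := ⟨hs.1, hs.2.trans hT'.2⟩
      rw [hS.cM_eq hs']
      have h1 := hC.mono hT' s hs
      have h2 := hC.mono ht T' hT'
      have h3 := hC.Mnn hs'
      have : kU (M s) (M T') ≤ kU (M s) T := by
        unfold kU
        simp only [QC.q]
        push_cast
        have h4 : 0 ≤ M T' := h3.trans h1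
        have h5 : M T' * M T' * M T' ≤ T * T * T := by
          have := pow_le_pow_left₀ h4 h2 3
          nlinarith
        have hmm : 0 ≤ M s * M s := mul_nonneg h3 h3
        have h6 := mul_le_mul_of_nonneg_left h2 hmm
        refine mul_le_mul_of_nonneg_left ?_ hmm
        linarith
      linarith)
    (by unfold kU qU clM; fun_prop)
    (fun s hs => by
      rw [hS.cM_eq hs]
      obtain ⟨a, b, c⟩ := mem s hs
      exact add_nonneg (kU_nonneg a b) (qU_nonneg a a))
    (fun s hs => hS.W_crude hpq hs) (fun s hs => hS.beta hq hpq hs) hΓ2 hg2 le_rfl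
    (fun T' hT' => ⟨fun s => hint (nul T) (M s), fun s => hor (nul T) (M s) * μ s,
      fun s hs => hS.hd _ ⟨hs.1, hs.2.trans hT'.2⟩, fun s hs => by
        have hs' : s ∈ Icc 0 t := ⟨hs.1, hs.2.trans hT'.2⟩
        obtain ⟨a, b, c⟩ := mem s hs'
        have h1 := hC.mono hT' s hs
        have h2 := hC.mono ht T' hT'
        obtain ⟨m0, m1⟩ := hC.m1 hM hT' hs
        have r1 := hC.row_rate (S := ({p, q} : Finset V)ᶜ) (q := q) hs'
          (f := fun w => Nt X ({p, q} : Finset V)ᶜ p (M T' - M s) w) (b := nr1 (T - M s))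
          (fun w hw => by
            refine (hC.N_d hM hS.sm (by simp) hT' hs hw).trans ?_
            unfold nr1
            have e2 := pow_le_pow_left₀ m0 (show M T' - M s ≤ T - M s by linarith) 2
            have e4 := pow_le_pow_left₀ m0 (show M T' - M s ≤ T - M s by linarith) 4
            linarith) (nr1_nonneg _)
        have r2 := bK_ok a h1 (h2.trans hM) (bl_nn a c)
        unfold nul
        beta_reduce
        rw [hor_lmul, nrl_eq]
        have r3 : 0 ≤ μ s * nr1 (T - M s) := mul_nonneg (hC.μ0 s hs') (nr1_nonneg _)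
        calc _ ≤ (μ s * nr1 (T - M s)) * (Real.exp (kU (M s) (M T')) * hor bl (M s)) :=
              mul_le_mul_of_nonneg_right r1 (mul_nonneg (Real.exp_pos _).le (bl_nn a c))
          _ = (μ s * nr1 (T - M s)) * (hor bl (M s) * Real.exp (kU (M s) (M T'))) := by ring
          _ ≤ (μ s * nr1 (T - M s)) * hor bKl (M s) := mul_le_mul_of_nonneg_left r2 r3
          _ = _ := by ring, by
        have h2 := hC.mono ht T' hT'
        have h3 := hC.Mnn hT'
        simp only [hC.M0, hint_zero, sub_zero]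
        exact hint_mono h2 fun m hm => hbK m ⟨h3.trans hm.1, hm.2⟩⟩)
    (J := fun s => X p q * hint (ownl T) (M s)) (J' := fun s => X p q * (hor (ownl T) (M s) * μ s))
    (fun s hs => (hS.hd _ hs).const_mul _) (by simp [hC.M0, hint_zero])
    (fun s hs => by
      rw [hS.cM_eq hs]
      obtain ⟨a, b, c⟩ := mem s hs
      exact add_nonneg (kU_nonneg a le_rfl) (qU_nonneg a hT0))
    (fun s hs => by
      rw [hS.cM_eq hs, ← dU_eq]
      obtain ⟨a, b, c⟩ := mem s hs
      have h1 := hS.rate hp hq hpq hs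
      have hd : 0 ≤ hor (dUl T) (M s) := by
        rw [dU_eq]; exact add_nonneg (kU_nonneg a le_rfl) (qU_nonneg a hT0)
      have hw : 0 ≤ hor Wl (M s) := by
        have e : hor Wl (M s) = 1 + 128 / 10000 * (M s) ^ 2 := by
          simp only [hor, Wl, QC.q]; push_cast; ring
        rw [e]; positivity
      unfold ownl
      rw [hor_lsc, hor_lmul, hor_lmul]
      calc dE h p q s * hor Wl (M s) * hor (dUl T) (M s)
          ≤ (X p q * (μ s * (103 / 100 * hor gl (M s)))) * hor Wl (M s) * hor (dUl T) (M s) := by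
            gcongr
        _ = _ := by simp only [QC.q]; push_cast; ring) (le_of_eq rfl)
    (L := fun s => X p q * hint (own2l T) (M s))
    (L' := fun s => X p q * (hor (own2l T) (M s) * μ s))
    (fun s hs => (hS.hd _ hs).const_mul _) (by simp [hC.M0, hint_zero])
    (fun s hs => by
      rw [hS.cM_eq hs, ← dV_eq]
      obtain ⟨a, b, c⟩ := mem s hs
      have h1 := hS.rate hp hq hpq hs
      have hd : 0 ≤ hor (dVl T) (M s) := by
        rw [dV_eq]; exact add_nonneg (kU_nonneg a b) (qU_nonneg a a)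
      have hd1 : hor (dVl T) (M s) ≤ 459 / 10000 := by
        rw [dV_eq]
        have := kU_le a b hM
        have := qU_max a c
        linarith
      have hw : 0 ≤ hor Wl (M s) := by
        have e : hor Wl (M s) = 1 + 128 / 10000 * (M s) ^ 2 := by
          simp only [hor, Wl, QC.q]; push_cast; ring
        rw [e]; positivity
      have he := exp_chord hd hd1 (by norm_num)
      have hg := gl_nn a c
      have hμ := hC.μ0 s hs
      unfold own2l
      rw [hor_lsc, hor_lmul, hor_lmul]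
      have he1 : 0 ≤ Real.exp (hor (dVl T) (M s)) - 1 := by
        linarith [Real.one_le_exp hd]
      calc dE h p q s * hor Wl (M s) * (Real.exp (hor (dVl T) (M s)) - 1)
          ≤ (X p q * (μ s * (103 / 100 * hor gl (M s)))) * hor Wl (M s)
            * ((1 + 459 / 10000 * (1 / 2 + 459 / 10000 * (1 / 6 + 459 / 10000 / 18)))
              * hor (dVl T) (M s)) := by
            refine mul_le_mul (mul_le_mul_of_nonneg_right h1 hw) (by linarith) he1 (by positivity)
        _ = (103 / 100 * (1 + 459 / 10000 * (1 / 2 + 459 / 10000 * (1 / 6 + 459 / 10000 / 18))))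
            * (X p q * μ s * hor gl (M s) * hor Wl (M s) * hor (dVl T) (M s)) := by ring
        _ ≤ 10542 / 10000 * (X p q * μ s * hor gl (M s) * hor Wl (M s) * hor (dVl T) (M s)) := by
            refine mul_le_mul_of_nonneg_right (by norm_num) (by positivity)
        _ = _ := by simp only [QC.q]; push_cast; ring) (le_of_eq rfl)
  have hEx := hS.eE hp hq hpq hE hE0
  have hEx1 := hS.eE1 hp hq hpq hE hE0
  have hE0' := hS.E_nn hE hE0 ht
  have hon : 0 ≤ hint (ownl T) T := hint_nonneg hT0 fun m hm => by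
    unfold ownl
    rw [hor_lsc, hor_lmul, hor_lmul, dU_eq]
    have a1 := gl_nn hm.1 (hm.2.trans hM)
    have a2 : hor Wl m = 1 + 128 / 10000 * m ^ 2 := by
      simp only [hor, Wl, QC.q]; push_cast; ring
    rw [a2]
    have a3 := add_nonneg (kU_nonneg hm.1 (le_refl m)) (qU_nonneg hm.1 hT0)
    have a4 : (0 : ℝ) ≤ QC.q 103 100 := by simp only [QC.q]; norm_num
    positivity
  have hon2 : 0 ≤ hint (own2l T) T := hint_nonneg hT0 fun m hm => by
    unfold own2l
    rw [hor_lsc, hor_lmul, hor_lmul, dV_eq]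
    have a1 := gl_nn hm.1 (hm.2.trans hM)
    have a2 : hor Wl m = 1 + 128 / 10000 * m ^ 2 := by
      simp only [hor, Wl, QC.q]; push_cast; ring
    rw [a2]
    have a3 := add_nonneg (kU_nonneg hm.1 hm.2) (qU_nonneg hm.1 hm.1)
    have a4 : (0 : ℝ) ≤ QC.q 10542 10000 := by simp only [QC.q]; norm_num
    positivity
  have hnu : 0 ≤ hint (nul T) T := hint_nonneg hT0 hbK
  have hx1 := hS.sm p q
  have hEE : Real.exp (-E t) * Real.exp (E t) = 1 := by
    rw [← Real.exp_add, neg_add_cancel, Real.exp_zero]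
  have hEp := Real.exp_pos (-E t)
  refine key.trans ?_
  have e1 : Real.exp (-E t) + (Γ2 t - Γ2 0) + X p q * hint (ownl T) T
      + (1 - Real.exp (-E t)) * (hint (nul T) T + X p q * hint (own2l T) T)
      = Real.exp (-E t) * (1 + Real.exp (E t) * (Γ2 t - Γ2 0)
        + (Real.exp (E t) * (X p q * hint (ownl T) T)
          + (Real.exp (E t) - 1) * (hint (nul T) T + X p q * hint (own2l T) T))) := by
    linear_combination (-(Γ2 t - Γ2 0) - X p q * hint (ownl T) T
      - (hint (nul T) T + X p q * hint (own2l T) T)) * hEE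
  rw [e1]
  refine mul_le_mul_of_nonneg_left ?_ hEp.le
  have h1 : Real.exp (E t) * (X p q * hint (ownl T) T)
      ≤ (1 + eqT T) * (X p q * hint (ownl T) T) :=
    mul_le_mul_of_nonneg_right hEx1 (by positivity)
  have h2 : (Real.exp (E t) - 1) * (hint (nul T) T + X p q * hint (own2l T) T)
      ≤ (X p q * (50 * eqT T)) * (hint (nul T) T + 1 / 50 * hint (own2l T) T) := by
    have hL0 := LG_nn hT0 hM
    have h3 : 0 ≤ eqT T := by rw [eqT_eq]; positivity
    refine mul_le_mul hEx ?_ (by positivity) (by positivity)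
    have := mul_le_mul_of_nonneg_right hx1 hon2
    linarith
  have e2 : X p q * KoT T = (1 + eqT T) * (X p q * hint (ownl T) T)
      + (X p q * (50 * eqT T)) * (hint (nul T) T + 1 / 50 * hint (own2l T) T) := by
    unfold KoT
    simp only [QC.q]
    push_cast
    ring
  rw [e2]
  linarith

end Pool.Agent.RCG
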