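import Pool.Agent.RCGF.Em7
import Pool.Agent.RCG.T1P

/-! The crude bound of the own gain and the A-lemma at stage 1 (MP_73ccd0_lc, general graphs). -/

namespace Pool.Agent.RCG

open Set Finset Matrix Pool.Agent.RCRSHalf

set_option linter.unusedSectionVars false

variable {V : Type*} [Fintype V] [DecidableEq V]
variable {h : ℝ → V → V → ℝ} {H : V → V → ℝ → ℝ} {X : V → V → ℝ} {M μ : ℝ → ℝ} {t : ℝ}
variable {re : V → Prop}

theorem exp_chord2 {y b : ℝ} (h0 : 0 ≤ y) (h1 : y ≤ b) (hb : b ≤ 1 / 4) :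
    Real.exp y ≤ 1 + y * (1 + y * (1 / 2 + b * (1 / 6 + b / 18))) := by
  have hx := Real.exp_bound' h0 (h1.trans (hb.trans (by norm_num))) (n := 4) (by norm_num)
  simp only [Finset.sum_range_succ, Finset.sum_range_zero, Nat.factorial] at hx
  norm_num at hx
  have hb0 := h0.trans h1
  have e0 : 0 ≤ y ^ 2 := by positivity
  have e3 : y ^ 3 ≤ b * y ^ 2 := by
    have : y ^ 3 = y * y ^ 2 := by ring
    rw [this]
    exact mul_le_mul_of_nonneg_right h1 e0
  have e4 : y ^ 4 ≤ b ^ 2 * y ^ 2 := by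
    have : y ^ 4 = y ^ 2 * y ^ 2 := by ring
    rw [this]
    exact mul_le_mul_of_nonneg_right (pow_le_pow_left₀ h0 h1 2) e0
  have e5 : 0 ≤ b ^ 2 * y ^ 2 := by positivity
  nlinarith

/-- crude upper bound of the N-part -/
theorem Cx.n_up (hC : Cx h H X M μ t) {p q : V} (hpq : p ≠ q) {s : ℝ} (hs : s ∈ Icc 0 t) {K : ℝ}
    (hK : Exq (cru2 h H X M ({p, q} : Finset V)ᶜ p t q s) s K) :
    ∑ w ∈ ({p, q} : Finset V)ᶜ, h s q w *
          ex (lw h ∅ s) {p, q, w} (fun F => RCG.tgt h p t F s - RCG.tgt h p t (insert w F) s)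
      ≤ bb h {q} p t * ((∑ w ∈ ({p, q} : Finset V)ᶜ, h s q w *
        Pt H X M ({p, q} : Finset V)ᶜ p t w s) *
        (Real.exp K * (Real.exp (-H p q s) * bb h {p} q s))) := by
  have hh := hC.hh
  have ht : t ∈ Icc 0 t := ⟨hC.t0, le_rfl⟩
  have hI := hC.inf ht (w := p) (H0 := ({p, q} : Finset V)ᶜ) (by simp)
    (subset_rfl : ({p, q} : Finset V)ᶜ ⊆ _) le_rfl
  have h1 := n_simple hh hC.ht hI hs
  have hc : 0 ≤ ∑ w ∈ ({p, q} : Finset V)ᶜ, h s q w *
      Pt H X M ({p, q} : Finset V)ᶜ p t w s :=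
    Finset.sum_nonneg fun w hw => mul_nonneg (hh.nonneg _ _ _) (hI.P0 w hw s hs)
  have hex := hC.ex2_up (Finset.notMem_empty p) (Finset.notMem_empty q) hpq ht hs
      (B := K) (by rw [compl_pair_eq]; exact hK)
  simp only [insert_empty_eq] at hex
  refine h1.trans ((mul_le_mul_of_nonneg_left hex hc).trans (le_of_eq ?_))
  rw [Real.exp_add]
  ring

/-- crude bound of the own gain -/
theorem S1.W_gen (hS : S1 re h H X M μ t) {p q : V} (hp : re p) (hq : re q) (hpq : p ≠ q)
    {E : ℝ → ℝ} (hE : ∀ s ∈ Icc 0 t, HasDerivAt E (dE h p q s) s) (hE0 : E 0 = 0) :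
    Wr h p q t ≤ Real.exp (-E t) * (1 + wT (M t)) := by
  have hC := hS.cx
  have ht : t ∈ Icc 0 t := ⟨hC.t0, le_rfl⟩
  have hM := hS.Mt
  have hT0 := hC.Mnn ht
  have key := hS.W_own hp hq hpq hE hE0 (Γ2 := fun s => hint (nupl (M t)) (M s))
    (g2 := fun s => hor (nupl (M t)) (M s) * μ s) (fun s hs => hS.hd _ hs) (fun s hs => by
      have hMs := hC.Mnn hs
      have hMt := hC.mono ht s hs
      have h1 := hC.n_up hpq hs (hC.exU hM hS.sm (by simp) (by simp) ht hs)
      refine h1.trans (mul_le_mul_of_nonneg_left ?_ (bb_nonneg hC.hh _ _ hC.ht))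
      obtain ⟨m0, m1⟩ := hC.m1 hM ht hs
      have hb := hS.beta hq hpq hs
      have hbn := bl_nn hMs (hS.M_le hs)
      have r2 := bK_ok hMs hMt hM hbn
      set m := M t - M s with hm
      have pe : hor (pxl (M t)) (M s) = 2027 / 100000 * m + 414 / 100000 * m ^ 3 := by
        rw [hm]; simp only [hor, pxl, QC.q]; push_cast; ring
      have m3 : 0 ≤ m ^ 3 := pow_nonneg m0 3
      have m3' : m ^ 3 ≤ (213 / 200) ^ 3 := pow_le_pow_left₀ m0 m1 3
      have r1 := hC.row_rate (S := ({p, q} : Finset V)ᶜ) (q := q) hs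
          (f := fun w => Pt H X M ({p, q} : Finset V)ᶜ p t w s)
          (b := 2027 / 100000 * m + 414 / 100000 * m ^ 3)
          (fun w hw => by
            have y1 := hC.Y_d (p := p) hS.sm (by simp) ht hs hw
            have y2 := hC.dH p w hs.1 hs.2 le_rfl
            have y3 := mul_le_mul_of_nonneg_left (hS.sm p w) m0
            have y4 : H p w t - H p w s + Yt X ({p, q} : Finset V)ᶜ p m w
                ≤ 1 / 50 * m + 408 / 100000 * m ^ 3 := by linarith
            have y5 : 1 / 50 * m + 408 / 100000 * m ^ 3 ≤ 2623 / 100000 := by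
              norm_num at m3'; linarith
            have y6 := exp_chord (y := 1 / 50 * m + 408 / 100000 * m ^ 3) (by positivity) y5
              (by norm_num)
            have y7 := Real.exp_le_exp.2 y4
            show Real.exp (H p w t - H p w s + Yt X ({p, q} : Finset V)ᶜ p m w) - 1 ≤ _
            norm_num at y6
            linarith) (by positivity)
      have hμ := hC.μ0 s hs
      unfold nupl
      rw [hor_lmul, pe]
      calc _ ≤ (μ s * (2027 / 100000 * m + 414 / 100000 * m ^ 3))
            * (Real.exp (kU (M s) (M t)) * hor bl (M s)) := by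
            refine mul_le_mul r1 (mul_le_mul_of_nonneg_left hb (Real.exp_pos _).le) ?_
              (by positivity)
            exact mul_nonneg (Real.exp_pos _).le (mul_nonneg (Real.exp_pos _).le
              (bb_nonneg hC.hh _ _ (hC.mem hs)))
        _ = (μ s * (2027 / 100000 * m + 414 / 100000 * m ^ 3))
            * (hor bl (M s) * Real.exp (kU (M s) (M t))) := by ring
        _ ≤ (μ s * (2027 / 100000 * m + 414 / 100000 * m ^ 3)) * hor bKl (M s) :=
            mul_le_mul_of_nonneg_left r2 (by positivity)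
        _ = _ := by ring)
  refine key.trans (mul_le_mul_of_nonneg_left ?_ (Real.exp_pos _).le)
  simp only [hC.M0, hint_zero, sub_zero]
  have hEx1 := hS.eE1 hp hq hpq hE hE0
  obtain ⟨x, hc, e1⟩ := chkT ck_W hT0 hM
  have e : QE.eval x 0 0 0 (c_W T1Q) = c_W (QE.eval x 0 0 0 T1Q) := by
    simp only [c_W, wT, KoT, eqT, ownl, own2l, nupl, nul, dUl, dVl, Wl, gl, bKl, pxl, nrl, ev_add,
      ev_mul, ev_ng, ev_hint, map_lsc, map_lmul, List.map_cons, List.map_nil, ev_q]
  rw [e, e1] at hc
  unfold c_W at hc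
  rw [add_ng, q_one] at hc
  have hx := hC.hX.nonneg p q
  have hx1 := hS.sm p q
  have hnup : 0 ≤ hint (nupl (M t)) (M t) := hint_nonneg hT0 fun m hm => by
    have pe : hor (pxl (M t)) m = 2027 / 100000 * (M t - m) + 414 / 100000 * (M t - m) ^ 3 := by
      simp only [hor, pxl, QC.q]; push_cast; ring
    unfold nupl
    rw [hor_lmul, pe]
    have h0 : 0 ≤ M t - m := by linarith [hm.2]
    have := bKl_nn hm.1 (hm.2.trans hM)
    positivity
  have hL0 := LG_nn hT0 hM
  have hKo : 0 ≤ KoT (M t) := by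
    have h3 : 0 ≤ eqT (M t) := by rw [eqT_eq]; positivity
    have hon : 0 ≤ hint (ownl (M t)) (M t) := hint_nonneg hT0 fun m hm => by
      unfold ownl
      rw [hor_lsc, hor_lmul, hor_lmul, dU_eq]
      have a1 := gl_nn hm.1 (hm.2.trans hM)
      have a2 : hor Wl m = 1 + 128 / 10000 * m ^ 2 := by
        simp only [hor, Wl, QC.q]; push_cast; ring
      rw [a2]
      have a3 := add_nonneg (kU_nonneg hm.1 (le_refl m)) (qU_nonneg hm.1 hT0)
      have a4 : (0 : ℝ) ≤ QC.q 103 100 := by simp only [QC.q]; norm_num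
      positivity
    have hon2 : 0 ≤ hint (own2l (M t)) (M t) := hint_nonneg hT0 fun m hm => by
      unfold own2l
      rw [hor_lsc, hor_lmul, hor_lmul, dV_eq]
      have a1 := gl_nn hm.1 (hm.2.trans hM)
      have a2 : hor Wl m = 1 + 128 / 10000 * m ^ 2 := by
        simp only [hor, Wl, QC.q]; push_cast; ring
      rw [a2]
      have a3 := add_nonneg (kU_nonneg hm.1 hm.2) (qU_nonneg hm.1 hm.1)
      have a4 : (0 : ℝ) ≤ QC.q 10542 10000 := by simp only [QC.q]; norm_num
      positivity
    have hnu : 0 ≤ hint (nul (M t)) (M t) := hint_nonneg hT0 fun m hm => by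
      unfold nul
      rw [hor_lmul, nrl_eq]
      exact mul_nonneg (nr1_nonneg _) (bKl_nn hm.1 (hm.2.trans hM))
    unfold KoT
    simp only [QC.q]
    push_cast
    positivity
  have h1 := mul_le_mul_of_nonneg_right hEx1 hnup
  have h2 := mul_le_mul_of_nonneg_right hx1 hKo
  simp only [QC.q] at hc
  push_cast at hc
  linarith

theorem wT_eq (m : ℝ) : wT m = 103 / 10000 * m ^ 2 := by
  simp only [wT, QC.q]; push_cast; ring

theorem alT_eq (m : ℝ) : alT m = m ^ 2 * (6 / 10000 + 34 / 10000 * m) := by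
  simp only [alT, QC.q]; push_cast; ring

theorem alT_nonneg {m : ℝ} (hm : 0 ≤ m) : 0 ≤ alT m := by rw [alT_eq]; positivity

theorem fe_eq (m T : ℝ) : hor (fel T) m
    = wT m + m / 50 + 408 / 100000 * m ^ 3 + kU m T + qU m m := by
  rw [wT_eq]; simp only [hor, fel, QC.q, kU, qU]; push_cast; ring

/-- the A-lemma -/
theorem S1.A (hS : S1 re h H X M μ t) {d p q : V} (hp : re p) (hq : re q)
    (hpq : p ≠ q) (hpd : p ≠ d) (hqd : q ≠ d)
    {E : ℝ → ℝ} (hE : ∀ s ∈ Icc 0 t, HasDerivAt E (dE h p q s) s) (hE0 : E 0 = 0) :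
    bb h {q, d} p t ≤ Real.exp (E t) * (1 + alT (M t)) * bb h {d} p t := by
  have hC := hS.cx
  have ht : t ∈ Icc 0 t := ⟨hC.t0, le_rfl⟩
  have hM := hS.Mt
  have hT0 := hC.Mnn ht
  have mem : ∀ s ∈ Icc 0 t, 0 ≤ M s ∧ M s ≤ M t ∧ M s ≤ 213 / 200 := fun s hs =>
    ⟨hC.Mnn hs, hC.mono ht s hs, hS.M_le hs⟩
  have rr : ∀ s ∈ Icc 0 t, ∀ D : Finset V, q ∉ D → d ∉ D → bb h (insert d D) q s
      ≤ Real.exp (M s / 50 + 408 / 100000 * M s ^ 3) * bb h D q s := fun s hs D h1 h2 => by
    refine (hC.del_d hS.sm h1 h2 hqd hs).trans (mul_le_mul_of_nonneg_right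
      (Real.exp_le_exp.2 ?_) (bb_nonneg hC.hh _ _ (hC.mem hs)))
    have := hC.Hle q d hs
    have h3 := mul_le_mul_of_nonneg_left (hS.sm q d) (mem s hs).1
    linarith
  have rle : ∀ s ∈ Icc 0 t, Real.exp (M s / 50 + 408 / 100000 * M s ^ 3) ≤ hor rl (M s) := by
    intro s hs
    obtain ⟨a, b, c⟩ := mem s hs
    have m3 : 0 ≤ M s ^ 3 := pow_nonneg a 3
    have m3' : M s ^ 3 ≤ (213 / 200) ^ 3 := pow_le_pow_left₀ a c 3
    have y6 := exp_chord (y := M s / 50 + 408 / 100000 * M s ^ 3) (b := 2623 / 100000)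
      (by positivity) (by norm_num at m3'; linarith) (by norm_num)
    refine y6.trans ?_
    have e : hor rl (M s) = 1 + 2027 / 100000 * M s + 414 / 100000 * M s ^ 3 := by
      simp only [hor, rl, QC.q]; push_cast; ring
    rw [e]
    norm_num
    linarith
  have hnA : ∀ m ∈ Icc 0 (M t), 0 ≤ hor (nAl (M t)) m := fun m hm => by
    have a1 := gl_nn hm.1 (hm.2.trans hM)
    have a2 := bKl_nn hm.1 (hm.2.trans hM)
    have a3 := kU_nonneg hm.1 hm.2
    have a4 := qU_nonneg hm.1 hm.1
    unfold nAl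
    rw [hor_ladd, hor_lsc, hor_lmul, hor_lmul, hor_lmul, hor_lmul, nrl_eq, fe_eq, wT_eq]
    have m0 := hm.1
    have n0 := nr1_nonneg (M t - m)
    have e1 : hor rl m = 1 + 2027 / 100000 * m + 414 / 100000 * m ^ 3 := by
      simp only [hor, rl, QC.q]; push_cast; ring
    have e2 : hor [QC.q 1 1, QC.q 41 1000] m = 1 + 41 / 1000 * m := by
      simp only [hor, QC.q]; push_cast; ring
    have e3 : (0 : ℝ) ≤ QC.q 206 10000 := by simp only [QC.q]; norm_num
    rw [e1, e2]
    positivity
  have hnA0 := hint_nonneg hT0 hnA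
  have e0 : (insert q ({d} : Finset V)) = {q, d} := rfl
  have key := hC.A_E2 (D := {d}) (p := p) (q := q) (by simpa using hpd) (by simpa using hqd) hpq ht
    hE hE0 (K := fun s => kU (M s) (M t)) (Q := fun s => qU (M s) (M s))
    (r := fun s => Real.exp (M s / 50 + 408 / 100000 * M s ^ 3))
    (β := fun s => hor bl (M s) * Real.exp (M s / 50 + 408 / 100000 * M s ^ 3))
    (w := fun s => wT (M s)) (ε := fun s => hor (fel (M t)) (M s) * (1 + 41 / 1000 * M s))
    (n := hint (nAl (M t)) (M t)) (α := alT (M t))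
    (fun s hs => hC.exU hM hS.sm (by simp) (by simp) ht hs)
    (fun s hs => hC.exL hM hS.sm (by simp) (by simp) hs ⟨hs.1, le_rfl⟩)
    (fun s hs => by
      have := rr s hs {p} (by simpa using hpq.symm) (by simpa using hpd.symm)
      rwa [Finset.pair_comm d p] at this)
    (fun s hs => by
      obtain ⟨a, b, c⟩ := mem s hs
      have h1 := hC.del_d (D := {d}) (q := q) (a := p) hS.sm (by simpa using hqd)
        (by simpa using hpd) hpq.symm hs
      have h2 := rr s hs ∅ (by simp) (by simp)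
      rw [insert_empty_eq] at h2
      replace h2 := h2.trans (mul_le_mul_of_nonneg_left (hS.b_up q hq s hs) (Real.exp_pos _).le)
      rw [hC.hh.Hsymm q p] at h1
      have h3 := hS.b_ok hs
      calc Real.exp (-H p q s) * bb h {p, d} q s
          ≤ Real.exp (-H p q s) * (Real.exp (H p q s + 408 / 100000 * M s ^ 3) *
            (Real.exp (M s / 50 + 408 / 100000 * M s ^ 3) * (1005 / 1000 / (1 + s)))) := by
            refine mul_le_mul_of_nonneg_left (h1.trans ?_) (Real.exp_pos _).le
            exact mul_le_mul_of_nonneg_left h2 (Real.exp_pos _).le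
        _ = (Real.exp (408 / 100000 * M s ^ 3) * (1005 / 1000 / (1 + s))) *
            Real.exp (M s / 50 + 408 / 100000 * M s ^ 3) := by
            have : Real.exp (-H p q s) * Real.exp (H p q s + 408 / 100000 * M s ^ 3)
                = Real.exp (408 / 100000 * M s ^ 3) := by
              rw [← Real.exp_add]; congr 1; ring
            rw [← mul_assoc, this]; ring
        _ ≤ _ := mul_le_mul_of_nonneg_right h3 (Real.exp_pos _).le)
    (fun s hs => (hS.sub hs).W_gen hp hq hpq (fun r hr => hE r ⟨hr.1, hr.2.trans hs.2⟩) hE0)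
    (fun s hs => by
      obtain ⟨a, b, c⟩ := mem s hs
      have k0 := kU_nonneg a b
      have k1 := qU_nonneg a a
      have w0 : 0 ≤ wT (M s) := by rw [wT_eq]; positivity
      have f0 : 0 ≤ hor (fel (M t)) (M s) := by rw [fe_eq]; positivity
      obtain ⟨x, y, hc, e1, e2⟩ := chk2 ck_fe a b hM
      have e : QE.eval x y 0 0 (c_fe mQ TQ) = c_fe (QE.eval x y 0 0 mQ) (QE.eval x y 0 0 TQ) := rfl
      rw [e, e1, e2] at hc
      unfold c_fe at hc
      rw [add_ng] at hc
      simp only [QC.q] at hc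
      push_cast at hc
      have f1 : hor (fel (M t)) (M s) ≤ 79 / 1000 * M s := by linarith
      have f2 : hor (fel (M t)) (M s) ≤ 842 / 10000 := by linarith
      have he := exp_chord2 f0 f2 (by norm_num)
      have g1 : (1 + wT (M s)) * (Real.exp (M s / 50 + 408 / 100000 * M s ^ 3)
          * Real.exp (kU (M s) (M t) + qU (M s) (M s))) ≤ Real.exp (hor (fel (M t)) (M s)) := by
        have h1 : 1 + wT (M s) ≤ Real.exp (wT (M s)) := by
          linarith [Real.add_one_le_exp (wT (M s))]
        calc _ ≤ Real.exp (wT (M s)) * (Real.exp (M s / 50 + 408 / 100000 * M s ^ 3)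
          * Real.exp (kU (M s) (M t) + qU (M s) (M s))) :=
              mul_le_mul_of_nonneg_right h1 (by positivity)
          _ = _ := by
              rw [← Real.exp_add, ← Real.exp_add, fe_eq]; congr 1; ring
      refine g1.trans (he.trans ?_)
      have h3 : hor (fel (M t)) (M s) * (1 / 2 + 842 / 10000 * (1 / 6 + 842 / 10000 / 18))
          ≤ 41 / 1000 * M s := by norm_num; linarith
      have h4 := mul_le_mul_of_nonneg_left h3 f0
      linarith)
    (Z := fun s => hint (nAl (M t)) (M s)) (Z' := fun s => hor (nAl (M t)) (M s) * μ s)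
    (fun s hs => hS.hd _ hs)
    (fun s hs => by
      obtain ⟨a, b, c⟩ := mem s hs
      have k0 := kU_nonneg a b
      have k1 := qU_nonneg a a
      have w0 : 0 ≤ wT (M s) := by rw [wT_eq]; positivity
      have f0 : 0 ≤ hor (fel (M t)) (M s) := by rw [fe_eq]; positivity
      have g0 := gl_nn a c
      have hμ := hC.μ0 s hs
      have h1 := hS.rate hp hq hpq hs
      have hE1 : Real.exp (-E s) ≤ 1 := Real.exp_le_one_iff.2 (by
        linarith [hS.E_nn hE hE0 hs])
      have hx1 := hS.sm p q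
      obtain ⟨m0, m1⟩ := hC.m1 hM ht hs
      have r1 := hC.row_rate (S := (insert p (insert q {d}))ᶜ) (q := q) hs
          (f := fun w => Nt X (insert p (insert q {d}))ᶜ p (M t - M s) w) (b := nr1 (M t - M s))
          (fun w hw => hC.N_d hM hS.sm (by simp) ht hs hw) (nr1_nonneg _)
      have r2 := bK_ok a b hM (bl_nn a c)
      have r3 := rle s hs
      have p1 : dE h p q s * Real.exp (-E s) * (hor (fel (M t)) (M s) * (1 + 41 / 1000 * M s))
          ≤ (1 / 50 * (μ s * (103 / 100 * hor gl (M s)))) * 1 *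
            (hor (fel (M t)) (M s) * (1 + 41 / 1000 * M s)) := by
        have h2 : dE h p q s ≤ 1 / 50 * (μ s * (103 / 100 * hor gl (M s))) :=
          h1.trans (mul_le_mul_of_nonneg_right hx1 (by positivity))
        refine mul_le_mul_of_nonneg_right (mul_le_mul h2 hE1 (Real.exp_pos _).le
          (by positivity)) (by positivity)
      have p2 : (∑ w ∈ (insert p (insert q {d}))ᶜ, h s q w *
          Nt X (insert p (insert q {d}))ᶜ p (M t - M s) w) *
          (Real.exp (kU (M s) (M t)) * (hor bl (M s) *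
            Real.exp (M s / 50 + 408 / 100000 * M s ^ 3)))
          ≤ (μ s * nr1 (M t - M s)) * (hor bKl (M s) * hor rl (M s)) := by
        have q1 : Real.exp (kU (M s) (M t)) * (hor bl (M s) *
            Real.exp (M s / 50 + 408 / 100000 * M s ^ 3)) ≤ hor bKl (M s) * hor rl (M s) := by
          calc _ = (hor bl (M s) * Real.exp (kU (M s) (M t))) *
                Real.exp (M s / 50 + 408 / 100000 * M s ^ 3) := by ring
            _ ≤ _ := mul_le_mul r2 r3 (Real.exp_pos _).le (bKl_nn a c)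
        have hbn := bl_nn a c
        refine mul_le_mul r1 q1 (by positivity) ?_
        exact mul_nonneg hμ (nr1_nonneg _)
      refine (add_le_add p1 p2).trans (le_of_eq ?_)
      unfold nAl
      beta_reduce
      rw [hor_ladd, hor_lsc, hor_lmul, hor_lmul, hor_lmul, hor_lmul, nrl_eq]
      have e2 : hor [QC.q 1 1, QC.q 41 1000] (M s) = 1 + 41 / 1000 * M s := by
        simp only [hor, QC.q]; push_cast; ring
      rw [e2]
      simp only [QC.q]
      push_cast
      ring)
    (by simp only [hC.M0, hint_zero, sub_zero]; exact le_rfl) (alT_nonneg hT0)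
    (by
      obtain ⟨x, hc, e1⟩ := chkT ck_A hT0 hM
      have e : QE.eval x 0 0 0 (c_A T1Q) = c_A (QE.eval x 0 0 0 T1Q) := by
        simp only [c_A, alT, eqT, nAl, fel, rl, gl, bKl, nrl, ev_add,
          ev_mul, ev_ng, ev_hint, map_lsc, map_lmul, map_ladd, List.map_cons, List.map_nil, ev_q]
      rw [e, e1] at hc
      unfold c_A at hc
      rw [add_ng, q_one, q_neg] at hc
      have h1 := mul_le_mul_of_nonneg_right (hS.eE1 hp hq hpq hE hE0) hnA0
      have h2 := alT_nonneg hT0
      nlinarith)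
  exact key

end Pool.Agent.RCG
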