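import Pool.Agent.RCGF.T1Y

/-! The N-part of an edge in the clock variable (MP_73ccd0_lc, general graphs). -/

namespace Pool.Agent.RCG

open Set Finset Matrix Pool.Agent.RCRSHalf

set_option linter.unusedSectionVars false

variable {V : Type*} [Fintype V] [DecidableEq V]
variable {h : ℝ → V → V → ℝ} {H : V → V → ℝ → ℝ} {X : V → V → ℝ} {M μ : ℝ → ℝ} {t : ℝ}

/-- the outer integral in the clock variable -/
theorem Cx.t1_clock (hC : Cx h H X M μ t) {P R P' R' S I c n : ℝ → ℝ} {y z : ℝ}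
    (hz : 0 ≤ z)
    (hP : ∀ s ∈ Icc 0 t, HasDerivAt P (P' s) s) (hP0 : P 0 = 0)
    (hR : ∀ s ∈ Icc 0 t, HasDerivAt R (R' s) s) (hR0 : R 0 = 0)
    (hPn : ∀ s ∈ Icc 0 t, 0 ≤ P' s) (hRn : ∀ s ∈ Icc 0 t, 0 ≤ R' s)
    (hRc : ContinuousOn R' (Icc 0 t))
    (hI : ∀ s ∈ Icc 0 t, HasDerivAt I (P' s * Real.exp (-P s + R s)) s) (hI0 : I 0 = 0)
    (hS : ∀ r ∈ Icc 0 t, HasDerivAt S (P' r * Real.exp (P t - P r + R r) * (1 + c r)
      + Real.exp (P t + R r) * n r) r)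
    {γ γ' G D D' δ ch nh e1 Ψ ψ : ℝ → ℝ} {e2 : ℝ}
    (hδ0 : ∀ m ∈ Icc 0 (M t), 0 ≤ δ m) (hδc : Continuous δ)
    (hPr : ∀ s ∈ Icc 0 t, P' s ≤ y * (μ s * γ (M s)))
    (hRr : ∀ s ∈ Icc 0 t, R' s ≤ z * (μ s * γ' (M s)))
    (hRG : ∀ s ∈ Icc 0 t, R s ≤ z * G (M s))
    (hD : ∀ m, HasDerivAt D (D' m) m) (hD0 : D 0 = 0)
    (hD' : ∀ m ∈ Icc 0 (M t), γ' m * δ m ≤ D' m)
    (he1 : ∀ s ∈ Icc 0 t, Real.exp (P t - P s + R s) ≤ e1 (M s))
    (he2 : ∀ s ∈ Icc 0 t, Real.exp (P t + R s) ≤ e2)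
    (hc : ∀ s ∈ Icc 0 t, c s ≤ ch (M s)) (hch : ∀ m ∈ Icc 0 (M t), 0 ≤ ch m)
    (hn : ∀ s ∈ Icc 0 t, n s ≤ μ s * nh (M s)) (hnh : ∀ m ∈ Icc 0 (M t), 0 ≤ nh m)
    (hΨ : ∀ m, HasDerivAt Ψ (ψ m) m)
    (hψ : ∀ m ∈ Icc 0 (M t), y * z * (γ m * e1 m * (D m + (G m + D m) * ch m))
      + z * ((G m + D m) * (e2 * nh m)) ≤ ψ m) :
    ∃ Γ g : ℝ → ℝ, (∀ s ∈ Icc 0 t, HasDerivAt Γ (g s) s) ∧
      (∀ s ∈ Icc 0 t, R' s * Real.exp (-R s) * (1 + δ (M s)) * (S t - S s) ≤ g s) ∧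
      Γ t - Γ 0 = uI P I t + (Ψ (M t) - Ψ 0) := by
  have hMmem : ∀ s ∈ Icc 0 t, M s ∈ Icc 0 (M t) := fun s hs =>
    ⟨hC.Mnn hs, hC.mono ⟨hC.t0, le_rfl⟩ s hs⟩
  have hMc : ContinuousOn M (Icc 0 t) := hC.M_cont
  have hRcont : ContinuousOn R (Icc 0 t) := fun s hs => (hR s hs).continuousAt.continuousWithinAt
  have hcont : ContinuousOn (fun s => R' s * Real.exp (-R s) * (1 + δ (M s))) (Icc 0 t) := by
    refine (hRc.mul ?_).mul ?_
    · exact Real.continuous_exp.comp_continuousOn hRcont.neg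
    · exact continuousOn_const.add (hδc.comp_continuousOn hMc)
  obtain ⟨Φ, hΦ0, hΦ⟩ := exists_prim' hC.t0 hcont
  have hRnn : ∀ s ∈ Icc 0 t, 0 ≤ R s := fun s hs => by
    have := nonneg_of_forward (U := R) (a := 0) (s := t) hR (by rw [hR0])
      (fun r hr _ => hRn r hr) s hs
    exact this
  -- the bound of `Φ`
  have hΦD : ∀ s ∈ Icc 0 t, Φ s - (1 - Real.exp (-R s)) ≤ z * D (M s) := by
    intro s hs
    have key := nonneg_of_forward
      (U := fun s => z * D (M s) - (Φ s - (1 - Real.exp (-R s))))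
      (U' := fun s => z * (D' (M s) * μ s) - (R' s * Real.exp (-R s) * (1 + δ (M s))
        - (0 - Real.exp (-R s) * (-R' s))))
      (a := 0) (s := t) (fun r hr => ?_) ?_ (fun r hr _ => ?_) s hs
    · linarith
    · exact (((hD (M r)).comp r (hC.Md r hr)).const_mul z).sub ((hΦ r hr).sub
        ((hasDerivAt_const r (1 : ℝ)).sub (hR r hr).neg.exp))
    · simp [hC.M0, hD0, hΦ0, hR0]
    · have hm := hMmem r hr
      have h1 : R' r * Real.exp (-R r) * δ (M r) ≤ z * (D' (M r) * μ r) := by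
        have he : Real.exp (-R r) ≤ 1 := Real.exp_le_one_iff.2 (by linarith [hRnn r hr])
        have hδ := hδ0 _ hm
        have hμ := hC.μ0 r hr
        calc R' r * Real.exp (-R r) * δ (M r) ≤ R' r * 1 * δ (M r) := by
              have := hRn r hr
              gcongr
          _ = R' r * δ (M r) := by ring
          _ ≤ (z * (μ r * γ' (M r))) * δ (M r) := mul_le_mul_of_nonneg_right (hRr r hr) hδ
          _ = z * μ r * (γ' (M r) * δ (M r)) := by ring
          _ ≤ z * μ r * D' (M r) := mul_le_mul_of_nonneg_left (hD' _ hm) (mul_nonneg hz hμ)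
          _ = _ := by ring
      linarith
  have hDnn : ∀ s ∈ Icc 0 t, 0 ≤ Φ s - (1 - Real.exp (-R s)) := by
    intro s hs
    have key := nonneg_of_forward
      (U := fun s => Φ s - (1 - Real.exp (-R s)))
      (U' := fun s => R' s * Real.exp (-R s) * (1 + δ (M s))
        - (0 - Real.exp (-R s) * (-R' s)))
      (a := 0) (s := t) (fun r hr => ?_) ?_ (fun r hr _ => ?_) s hs
    · exact key
    · exact (hΦ r hr).sub ((hasDerivAt_const r (1 : ℝ)).sub (hR r hr).neg.exp)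
    · simp [hΦ0, hR0]
    · have hm := hMmem r hr
      have h1 : 0 ≤ R' r * Real.exp (-R r) * δ (M r) :=
        mul_nonneg (mul_nonneg (hRn r hr) (Real.exp_pos _).le) (hδ0 _ hm)
      linarith
  have hres := t1_outer (t := t) (δ := fun s => δ (M s)) (Er := fun s => Ψ (M s))
    (Er' := fun s => ψ (M s) * μ s) hP hP0 hI hI0 hS hΦ hΦ0
    (fun s hs => (hΨ (M s)).comp s (hC.Md s hs)) (fun s hs => by
      have hm := hMmem s hs
      have hμ := hC.μ0 s hs
      have hp0 := hPn s hs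
      have hx0 := hDnn s hs
      have hx1 := hΦD s hs
      have hR1 := hRnn s hs
      have hRg := hRG s hs
      have he1' := he1 s hs
      have he2' := he2 s hs
      have hcc := hc s hs
      have hcn := hch _ hm
      have hnn := hn s hs
      have hnhn := hnh _ hm
      have hPP := hPr s hs
      have hE1 := Real.exp_pos (P t - P s + R s)
      have hE2 := Real.exp_pos (P t + R s)
      have h1e : 1 - Real.exp (-R s) ≤ R s := by linarith [Real.add_one_le_exp (-R s)]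
      have h1e0 : 0 ≤ 1 - Real.exp (-R s) := by
        have : Real.exp (-R s) ≤ 1 := Real.exp_le_one_iff.2 (by linarith)
        linarith
      have hΦ1 : Φ s ≤ z * (G (M s) + D (M s)) := by linarith
      have hΦn : 0 ≤ Φ s := by linarith
      -- `P' e ≤ y μ γ e1`
      have hPe : P' s * Real.exp (P t - P s + R s) ≤ y * (μ s * γ (M s)) * e1 (M s) :=
        mul_le_mul hPP he1' hE1.le (hp0.trans hPP)
      have hPe0 : 0 ≤ P' s * Real.exp (P t - P s + R s) := mul_nonneg hp0 hE1.le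
      have a1 : (Φ s - (1 - Real.exp (-R s))) * (P' s * Real.exp (P t - P s + R s))
          ≤ (z * D (M s)) * (y * (μ s * γ (M s)) * e1 (M s)) :=
        mul_le_mul hx1 hPe hPe0 (hx0.trans hx1)
      have a2 : P' s * Real.exp (P t - P s + R s) * c s
          ≤ (y * (μ s * γ (M s)) * e1 (M s)) * ch (M s) :=
        (mul_le_mul_of_nonneg_left hcc hPe0).trans (mul_le_mul_of_nonneg_right hPe hcn)
      have a3 : Real.exp (P t + R s) * n s ≤ e2 * (μ s * nh (M s)) :=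
        (mul_le_mul_of_nonneg_left hnn hE2.le).trans
          (mul_le_mul_of_nonneg_right he2' (mul_nonneg hμ hnhn))
      have a4 : 0 ≤ (y * (μ s * γ (M s)) * e1 (M s)) * ch (M s) + e2 * (μ s * nh (M s)) := by
        have b1 : 0 ≤ y * (μ s * γ (M s)) * e1 (M s) := hPe0.trans hPe
        have b2 : 0 ≤ e2 := hE2.le.trans he2'
        have b3 := mul_nonneg hμ hnhn
        positivity
      have a5 : Φ s * (P' s * Real.exp (P t - P s + R s) * c s + Real.exp (P t + R s) * n s)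
          ≤ (z * (G (M s) + D (M s))) *
            ((y * (μ s * γ (M s)) * e1 (M s)) * ch (M s) + e2 * (μ s * nh (M s))) :=
        (mul_le_mul_of_nonneg_left (add_le_add a2 a3) hΦn).trans
          (mul_le_mul_of_nonneg_right hΦ1 a4)
      have a6 := mul_le_mul_of_nonneg_right (hψ _ hm) hμ
      calc _ ≤ (z * D (M s)) * (y * (μ s * γ (M s)) * e1 (M s))
            + (z * (G (M s) + D (M s))) *
            ((y * (μ s * γ (M s)) * e1 (M s)) * ch (M s) + e2 * (μ s * nh (M s))) :=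
            add_le_add a1 a5
        _ = (y * z * (γ (M s) * e1 (M s) * (D (M s) + (G (M s) + D (M s)) * ch (M s)))
            + z * ((G (M s) + D (M s)) * (e2 * nh (M s)))) * μ s := by ring
        _ ≤ ψ (M s) * μ s := a6)
  obtain ⟨Γ, g, hΓ, hg, hΓt⟩ := hres
  refine ⟨Γ, g, hΓ, hg, ?_⟩
  rw [hΓt]
  simp only [hC.M0]

/-- collecting the terms -/
theorem t1_collect {S : Finset V} {F : V → ℝ → ℝ} {b : ℝ} {α v : V → ℝ}
    (hF : ∀ w ∈ S, ∃ Γ g : ℝ → ℝ, (∀ s ∈ Icc 0 t, HasDerivAt Γ (g s) s) ∧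
      (∀ s ∈ Icc 0 t, F w s ≤ b * ((1 + α w) * g s)) ∧ Γ t - Γ 0 = v w) :
    ∃ Γ g : ℝ → ℝ, (∀ s ∈ Icc 0 t, HasDerivAt Γ (g s) s) ∧
      (∀ s ∈ Icc 0 t, ∑ w ∈ S, F w s ≤ b * g s) ∧ Γ t - Γ 0 = ∑ w ∈ S, (1 + α w) * v w := by
  choose! Γ g h1 h2 h3 using hF
  refine ⟨fun s => ∑ w ∈ S, (1 + α w) * Γ w s, fun s => ∑ w ∈ S, (1 + α w) * g w s,
    fun s hs => ?_, fun s hs => ?_, ?_⟩
  · exact HasDerivAt.fun_sum fun w hw => (h1 w hw s hs).const_mul _
  · rw [Finset.mul_sum]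
    exact Finset.sum_le_sum fun w hw => h2 w hw s hs
  · rw [← Finset.sum_sub_distrib]
    refine Finset.sum_congr rfl fun w hw => ?_
    rw [← h3 w hw]; ring

end Pool.Agent.RCG
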