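import Pool.Agent.RCGF.Em8
import Pool.Agent.RCGF.T1Z

/-! The N-part of an edge at stage 1 (MP_73ccd0_lc, general graphs). -/

namespace Pool.Agent.RCG

open Set Finset Matrix Pool.Agent.RCRSHalf

set_option linter.unusedSectionVars false

variable {V : Type*} [Fintype V] [DecidableEq V]
variable {h : ℝ → V → V → ℝ} {H : V → V → ℝ → ℝ} {X : V → V → ℝ} {M μ : ℝ → ℝ} {t : ℝ}
variable {re : V → Prop}

theorem hor_cont (cs : List ℝ) : Continuous fun m => hor cs m := by
  induction cs with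
  | nil => simpa only [hor] using continuous_const
  | cons c cs ih => simp only [hor]; fun_prop

theorem fd_eq (m T : ℝ) : hor (fdl T) m
    = wT m + qU m m + kG m T + 408 / 100000 * m ^ 3 := by
  rw [wT_eq]; simp only [hor, fdl, QC.q, kG, qU]; push_cast; ring

theorem fc_eq (m T : ℝ) : hor (fcl T) m = wT m + alT m + qU m m + kU m T := by
  rw [wT_eq, alT_eq]; simp only [hor, fcl, QC.q, kU, qU]; push_cast; ring

theorem del_eq (m T : ℝ) : hor (del T) m = hor (fdl T) m * (1 + 41 / 1000 * m ^ 2) := by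
  unfold del
  rw [hor_lmul]
  congr 1
  simp only [hor, QC.q]; push_cast; ring

theorem chl_eq (m T : ℝ) : hor (chl T) m = hor (fcl T) m * (1 + 3 / 100 * m ^ 2) := by
  unfold chl
  rw [hor_lmul]
  congr 1
  simp only [hor, QC.q]; push_cast; ring

theorem fd_nn {m T : ℝ} (hm : 0 ≤ m) (hmT : m ≤ T) : 0 ≤ hor (fdl T) m := by
  rw [fd_eq, wT_eq]
  have := kG_nonneg hm hmT
  have := qU_nonneg hm hm
  positivity

theorem fc_nn {m T : ℝ} (hm : 0 ≤ m) (hmT : m ≤ T) : 0 ≤ hor (fcl T) m := by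
  rw [fc_eq, wT_eq]
  have := kU_nonneg hm hmT
  have := qU_nonneg hm hm
  have := alT_nonneg hm
  positivity

theorem del_nn {m T : ℝ} (hm : 0 ≤ m) (hmT : m ≤ T) : 0 ≤ hor (del T) m := by
  rw [del_eq]
  have := fd_nn hm hmT
  positivity

theorem chl_nn {m T : ℝ} (hm : 0 ≤ m) (hmT : m ≤ T) : 0 ≤ hor (chl T) m := by
  rw [chl_eq]
  have := fc_nn hm hmT
  positivity

theorem Gl_eq (m : ℝ) : hor Gl m = 101 / 100 * hint gl m := by
  unfold Gl
  rw [hor_lsc, hor_lI]
  simp only [QC.q]; push_cast; ring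

theorem Dl_eq (m T : ℝ) : hor (Dl' T) m = hint (Dpl T) m := by
  unfold Dl'
  rw [hor_lI]

theorem Dp_eq (m T : ℝ) : hor (Dpl T) m = 103 / 100 * (hor gl m * hor (del T) m) := by
  unfold Dpl
  rw [hor_lsc, hor_lmul]
  simp only [QC.q]; push_cast; ring

theorem nhl_eq (m T : ℝ) : hor (nhl T) m
    = 546 / 1000 * ((T - m) ^ 2 * (hor bKl m * (1 + alT m))) := by
  unfold nhl
  rw [hor_lsc, hor_lmul, hor_lmul, alT_eq]
  have e1 : hor [T * T, QC.q (-2) 1 * T, QC.q 1 1] m = (T - m) ^ 2 := by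
    simp only [hor, QC.q]; push_cast; ring
  have e2 : hor [QC.q 1 1, QC.q 0 1, QC.q 6 10000, QC.q 34 10000] m
      = 1 + m ^ 2 * (6 / 10000 + 34 / 10000 * m) := by
    simp only [hor, QC.q]; push_cast; ring
  rw [e1, e2]
  simp only [QC.q]; push_cast; ring

theorem psS_eq (m T : ℝ) : hor (psS T) m = 1045 / 1000 * (hor gl m * (hint (Dpl T) m
    + (101 / 100 * hint gl m + hint (Dpl T) m) * hor (chl T) m)) := by
  unfold psS
  rw [hor_lsc, hor_lmul, hor_ladd, hor_lmul, hor_ladd, Gl_eq, Dl_eq]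
  simp only [QC.q]; push_cast; ring

theorem ps4_eq (m T : ℝ) : hor (ps4 T) m = 1029 / 1000 * ((101 / 100 * hint gl m
    + hint (Dpl T) m) * hor (nhl T) m) := by
  unfold ps4
  rw [hor_lsc, hor_lmul, hor_ladd, Gl_eq, Dl_eq]
  simp only [QC.q]; push_cast; ring

/-- the exponent of the outer error -/
theorem del_ok {m T : ℝ} (hm : 0 ≤ m) (hmT : m ≤ T) (hT : T ≤ 213 / 200) :
    (1 + wT m) * Real.exp (qU m m + kG m T + 408 / 100000 * m ^ 3) ≤ 1 + hor (del T) m := by
  obtain ⟨x, y, hc, e1, e2⟩ := chk2 ck_fd hm hmT hT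
  have e : QE.eval x y 0 0 (c_fd mQ TQ) = c_fd (QE.eval x y 0 0 mQ) (QE.eval x y 0 0 TQ) := rfl
  rw [e, e1, e2] at hc
  unfold c_fd at hc
  rw [add_ng] at hc
  simp only [QC.q] at hc
  push_cast at hc
  have f0 := fd_nn hm hmT
  have m1 : m ≤ 213 / 200 := hmT.trans hT
  have mm : m * m ≤ (213 / 200) * (213 / 200) := mul_le_mul m1 m1 hm (by norm_num)
  have f2 : hor (fdl T) m ≤ 897 / 10000 := by norm_num at mm; linarith
  have he := exp_chord2 f0 f2 (by norm_num)
  have g1 : (1 + wT m) * Real.exp (qU m m + kG m T + 408 / 100000 * m ^ 3)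
      ≤ Real.exp (hor (fdl T) m) := by
    have h1 : 1 + wT m ≤ Real.exp (wT m) := by linarith [Real.add_one_le_exp (wT m)]
    calc _ ≤ Real.exp (wT m) * Real.exp (qU m m + kG m T + 408 / 100000 * m ^ 3) :=
          mul_le_mul_of_nonneg_right h1 (Real.exp_pos _).le
      _ = _ := by rw [← Real.exp_add, fd_eq]; congr 1; ring
  refine g1.trans (he.trans ?_)
  rw [del_eq]
  have h3 : hor (fdl T) m * (1 / 2 + 897 / 10000 * (1 / 6 + 897 / 10000 / 18))
      ≤ 41 / 1000 * m ^ 2 := by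
    have : m ^ 2 = m * m := by ring
    rw [this]; norm_num; linarith
  have h4 := mul_le_mul_of_nonneg_left h3 f0
  linarith

/-- the exponent of the inner error -/
theorem chl_ok {m T : ℝ} (hm : 0 ≤ m) (hmT : m ≤ T) (hT : T ≤ 213 / 200) :
    (1 + wT m) * (1 + alT m) * Real.exp (qU m m + kU m T) ≤ 1 + hor (chl T) m := by
  obtain ⟨x, y, hc, e1, e2⟩ := chk2 ck_fc hm hmT hT
  have e : QE.eval x y 0 0 (c_fc mQ TQ) = c_fc (QE.eval x y 0 0 mQ) (QE.eval x y 0 0 TQ) := rfl
  rw [e, e1, e2] at hc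
  unfold c_fc at hc
  rw [add_ng] at hc
  simp only [QC.q] at hc
  push_cast at hc
  have f0 := fc_nn hm hmT
  have m1 : m ≤ 213 / 200 := hmT.trans hT
  have mm : m * m ≤ (213 / 200) * (213 / 200) := mul_le_mul m1 m1 hm (by norm_num)
  have f2 : hor (fcl T) m ≤ 647 / 10000 := by norm_num at mm; linarith
  have he := exp_chord2 f0 f2 (by norm_num)
  have g1 : (1 + wT m) * (1 + alT m) * Real.exp (qU m m + kU m T)
      ≤ Real.exp (hor (fcl T) m) := by
    have h1 : 1 + wT m ≤ Real.exp (wT m) := by linarith [Real.add_one_le_exp (wT m)]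
    have h2 : 1 + alT m ≤ Real.exp (alT m) := by linarith [Real.add_one_le_exp (alT m)]
    have h3 := alT_nonneg hm
    calc _ ≤ Real.exp (wT m) * Real.exp (alT m) * Real.exp (qU m m + kU m T) :=
          mul_le_mul_of_nonneg_right (mul_le_mul h1 h2 (by linarith) (Real.exp_pos _).le)
            (Real.exp_pos _).le
      _ = _ := by rw [← Real.exp_add, ← Real.exp_add, fc_eq]; congr 1; ring
  refine g1.trans (he.trans ?_)
  rw [chl_eq]
  have h3 : hor (fcl T) m * (1 / 2 + 647 / 10000 * (1 / 6 + 647 / 10000 / 18))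
      ≤ 3 / 100 * m ^ 2 := by
    have : m ^ 2 = m * m := by ring
    rw [this]; norm_num; linarith
  have h4 := mul_le_mul_of_nonneg_left h3 f0
  linarith

/-- `exp (P t - P s + R s)` -/
theorem S1.e1 (hS : S1 re h H X M μ t) {u v w : V} (hu : re u) (hv : re v) (hw : re w)
    (huw : u ≠ w) (hvw : v ≠ w) {P R : ℝ → ℝ}
    (hP : ∀ s ∈ Icc 0 t, HasDerivAt P (dE h u w s) s)
    (hR : ∀ s ∈ Icc 0 t, HasDerivAt R (dE h w v s) s) (hR0 : R 0 = 0) {s : ℝ} (hs : s ∈ Icc 0 t) :
    Real.exp (P t - P s + R s) ≤ 10145 / 10000 := by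
  have ht : t ∈ Icc 0 t := ⟨hS.cx.t0, le_rfl⟩
  have hx1 := hS.sm u w
  have hz1 := hS.sm w v
  have hx := hS.cx.hX.nonneg u w
  have hz := hS.cx.hX.nonneg w v
  have hL0 := hS.log_nn hs
  -- P t - P s
  have key := nonneg_of_forward
    (U := fun r => 103 / 100 * X u w * (Real.log (1 + r) - Real.log (1 + s)) - (P r - P s))
    (U' := fun r => 103 / 100 * X u w * (1 / (1 + r)) - dE h u w r) (a := s) (s := t)
    (fun r hr => by
      have hr0 : r ∈ Icc 0 t := ⟨hs.1.trans hr.1, hr.2⟩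
      have h1 : (1 : ℝ) + r ≠ 0 := by linarith [hr0.1]
      have h2 : HasDerivAt (fun s : ℝ => Real.log (1 + s)) (1 / (1 + r)) r :=
        ((hasDerivAt_id r).const_add 1).log h1
      exact ((h2.sub_const _).const_mul _).sub ((hP r hr0).sub_const _))
    (by simp)
    (fun r hr _ => by
      have hr0 : r ∈ Icc 0 t := ⟨hs.1.trans hr.1, hr.2⟩
      have := hS.rt u w hu hw huw r hr0
      have e : 103 / 100 * X u w * (1 / (1 + r)) = 103 / 100 * X u w / (1 + r) := by ring
      linarith) t ⟨hs.2, le_rfl⟩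
  have h2 := hS.it w v hw hv hvw.symm s hs R (fun r hr => hR r ⟨hr.1, hr.2.trans hs.2⟩) hR0
  have hLt := hS.log_nn ht
  have hLm : Real.log (1 + s) ≤ Real.log (1 + t) :=
    Real.log_le_log (by linarith [hs.1]) (by linarith [hs.2])
  have h3 : P t - P s + R s ≤ 206 / 10000 * Real.log (1 + t) := by
    have a1 := mul_le_mul_of_nonneg_right hx1 (sub_nonneg.2 hLm)
    have a2 := mul_le_mul_of_nonneg_right hz1 hL0
    nlinarith
  have h4 : P t - P s + R s ≤ 14326 / 1000000 := by
    have := hS.log_le ht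
    have := LG_max (hS.cx.Mnn ht) hS.Mt
    linarith
  have h5 : Real.exp (P t - P s + R s) ≤ Real.exp (14326 / 1000000) := Real.exp_le_exp.2 h4
  refine h5.trans ?_
  refine (exp_chord (y := 14326 / 1000000) (b := 14326 / 1000000) (by norm_num) le_rfl
    (by norm_num)).trans (by norm_num)

theorem S1.e2 (hS : S1 re h H X M μ t) {u v w : V} (hu : re u) (hv : re v) (hw : re w)
    (huw : u ≠ w) (hvw : v ≠ w) {P R : ℝ → ℝ}
    (hP : ∀ s ∈ Icc 0 t, HasDerivAt P (dE h u w s) s) (hP0 : P 0 = 0)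
    (hR : ∀ s ∈ Icc 0 t, HasDerivAt R (dE h w v s) s) (hR0 : R 0 = 0) {s : ℝ} (hs : s ∈ Icc 0 t) :
    Real.exp (P t + R s) ≤ 1029 / 1000 := by
  have ht : t ∈ Icc 0 t := ⟨hS.cx.t0, le_rfl⟩
  have h1 := hS.E_le hu hw huw hP hP0 ht
  have h2 := hS.E_le hw hv hvw.symm hR hR0 hs
  have hx1 := hS.sm u w
  have hz1 := hS.sm w v
  have hx := hS.cx.hX.nonneg u w
  have hz := hS.cx.hX.nonneg w v
  have hL := LG_max (hS.cx.Mnn ht) hS.Mt
  have hL0 := LG_nn (hS.cx.Mnn ht) hS.Mt
  have hLs := LG_max (hS.cx.Mnn hs) (hS.M_le hs)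
  have hLs0 := LG_nn (hS.cx.Mnn hs) (hS.M_le hs)
  have a1 : X u w * (101 / 100 * hint gl (M t)) ≤ 1 / 50 * (101 / 100 * (6954 / 10000)) :=
    mul_le_mul hx1 (by linarith) (by linarith) (by norm_num)
  have a2 : X w v * (101 / 100 * hint gl (M s)) ≤ 1 / 50 * (101 / 100 * (6954 / 10000)) :=
    mul_le_mul hz1 (by linarith) (by linarith) (by norm_num)
  have h4 : P t + R s ≤ 281 / 10000 := by norm_num at a1 a2; linarith
  have h5 : Real.exp (P t + R s) ≤ Real.exp (281 / 10000) := Real.exp_le_exp.2 h4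
  refine h5.trans ?_
  refine (exp_chord (y := 281 / 10000) (b := 281 / 10000) (by norm_num) le_rfl
    (by norm_num)).trans (by norm_num)

/-- the N-part of one real vertex -/
theorem S1.T1w (hS : S1 re h H X M μ t) {u v w : V} (hu : re u) (hv : re v) (hw : re w)
    (huv : u ≠ v) (huw : u ≠ w) (hvw : v ≠ w) {P R I : ℝ → ℝ}
    (hP : ∀ s ∈ Icc 0 t, HasDerivAt P (dE h u w s) s) (hP0 : P 0 = 0)
    (hR : ∀ s ∈ Icc 0 t, HasDerivAt R (dE h w v s) s) (hR0 : R 0 = 0)
    (hI : ∀ s ∈ Icc 0 t, HasDerivAt I (dE h u w s * Real.exp (-P s + R s)) s) (hI0 : I 0 = 0) :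
    ∃ Γ g : ℝ → ℝ, (∀ s ∈ Icc 0 t, HasDerivAt Γ (g s) s) ∧
      (∀ s ∈ Icc 0 t, h s v w * ex (lw h ∅ s) {u, v, w}
        (fun F => RCG.tgt h u t F s - RCG.tgt h u t (insert w F) s)
        ≤ bb h {v} u t * ((1 + alT (M t)) * g s)) ∧
      Γ t - Γ 0 = uI P I t + (X u w * X w v * hint (psS (M t)) (M t)
        + X w v * (NA X ({u, v, w} : Finset V)ᶜ w u * hint (ps4 (M t)) (M t))) := by
  have hC := hS.cx
  have hh := hC.hh
  have ht : t ∈ Icc 0 t := ⟨hC.t0, le_rfl⟩
  have hM := hS.Mt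
  have hT0 := hC.Mnn ht
  have mem : ∀ s ∈ Icc 0 t, 0 ≤ M s ∧ M s ≤ M t ∧ M s ≤ 213 / 200 := fun s hs =>
    ⟨hC.Mnn hs, hC.mono ht s hs, hS.M_le hs⟩
  set N0 := NA X ({u, v, w} : Finset V)ᶜ w u with hN0
  have hN00 : 0 ≤ N0 := NA_nonneg hC.hX _ _ _
  have hx := hC.hX.nonneg u w
  have hz := hC.hX.nonneg w v
  have hPc : ContinuousOn P (Icc 0 t) := fun s hs => (hP s hs).continuousAt.continuousWithinAt
  have hRc : ContinuousOn R (Icc 0 t) := fun s hs => (hR s hs).continuousAt.continuousWithinAt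
  have hd1 : ContinuousOn (fun s => dE h u w s) (Icc 0 t) :=
    (dE_cont hh u w).mono (Icc_subset_Icc le_rfl hC.t1)
  have hd2 : ContinuousOn (fun s => dE h w v s) (Icc 0 t) :=
    (dE_cont hh w v).mono (Icc_subset_Icc le_rfl hC.t1)
  have hMc : ContinuousOn M (Icc 0 t) := hC.M_cont
  have hμc : ContinuousOn μ (Icc 0 t) := by
    have : ContinuousOn (fun s : ℝ => 101 / 100 + 11 / 100 * s) (Icc 0 t) := by fun_prop
    exact this.congr fun s hs => hS.mu s hs
  obtain ⟨S, -, hSd⟩ := exists_prim' hC.t0 (g := fun r => dE h u w r *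
      Real.exp (P t - P r + R r) * (1 + hor (chl (M t)) (M r))
      + Real.exp (P t + R r) * (μ r * (N0 * hor (nhl (M t)) (M r)))) (by
    have c1 : ContinuousOn (fun r => hor (chl (M t)) (M r)) (Icc 0 t) :=
      (hor_cont (chl (M t))).comp_continuousOn hMc
    have c2 : ContinuousOn (fun r => hor (nhl (M t)) (M r)) (Icc 0 t) :=
      (hor_cont (nhl (M t))).comp_continuousOn hMc
    have c3 : ContinuousOn (fun r => Real.exp (P t - P r + R r)) (Icc 0 t) :=
      Real.continuous_exp.comp_continuousOn ((continuousOn_const.sub hPc).add hRc)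
    have c4 : ContinuousOn (fun r => Real.exp (P t + R r)) (Icc 0 t) :=
      Real.continuous_exp.comp_continuousOn (continuousOn_const.add hRc)
    exact ((hd1.mul c3).mul (continuousOn_const.add c1)).add
      (c4.mul (hμc.mul (continuousOn_const.mul c2))))
  -- the term
  have hterm := hC.t1x huv huw hvw (P := P) (R := R) (K := fun s => kG (M s) (M t))
    (Q := fun s => qU (M s) (M s)) (Qr := fun s => qU (M s) (M s))
    (C := fun s => kU (M s) (M t)) (w1 := fun s => wT (M s)) (w2 := fun s => wT (M s))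
    (αw := fun s => alT (M s)) (δ := fun s => hor (del (M t)) (M s))
    (c := fun s => hor (chl (M t)) (M s)) (n := fun s => μ s * (N0 * hor (nhl (M t)) (M s)))
    (S := S) (αu := alT (M t))
    (fun s hs r hr => ⟨Pt2 H X M ({u, v, w} : Finset V)ᶜ u w t,
      fun a x => Nt2 X ({u, v, w} : Finset V)ᶜ u w (M t - M x) a,
      hC.ginf huw (by simp) (by simp) ht ⟨hs.1.trans hr.1, hr.2⟩ hr.1,
      hC.exG hM huw hS.sm (by simp) (by simp) (by simp) ht hs⟩)
    (fun s hs => hC.pp_lo hvw hs (hC.exL hM hS.sm (by simp) (by simp) hs ⟨hs.1, le_rfl⟩))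
    (fun s hs => hC.pp_lo huw hs (hC.exL hM hS.sm (by simp) (by simp) hs ⟨hs.1, le_rfl⟩))
    (fun r hr => by
      have e0 : insert u (insert w ({v} : Finset V)) = {u, v, w} := by
        ext z; simp only [Finset.mem_insert, Finset.mem_singleton]; tauto
      have h1 := hC.ex2_up (D := {v}) (p := u) (q := w) (by simpa using huv)
        (by simpa using hvw.symm) huw ht hr (B := kU (M r) (M t))
        (hC.exU hM hS.sm (by simp) (by simp) ht hr)
      have e1 : insert w ({v} : Finset V) = {v, w} := Finset.pair_comm w v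
      have e2 : insert u ({v} : Finset V) = {u, v} := rfl
      rw [e1, e2] at h1
      have h2 := mul_le_mul_of_nonneg_left h1 (Real.exp_pos (H u w r)).le
      unfold Xw
      refine h2.trans (le_of_eq ?_)
      rw [← mul_assoc, ← Real.exp_add]
      congr 2
      ring)
    (fun r hr => (hS.sub hr).W_gen hu hw huw (fun x hx => hP x ⟨hx.1, hx.2.trans hr.2⟩) hP0)
    (fun r hr => (hS.sub hr).W_gen hw hv hvw.symm
      (fun x hx => hR x ⟨hx.1, hx.2.trans hr.2⟩) hR0)
    (fun r hr => by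
      have := (hS.sub hr).A (d := u) (p := w) (q := v) hw hv hvw.symm huw.symm huv.symm
        (fun x hx => hR x ⟨hx.1, hx.2.trans hr.2⟩) hR0
      rwa [Finset.pair_comm v u] at this)
    (fun r hr => alT_nonneg (mem r hr).1)
    (by
      have := hS.A (d := v) (p := u) (q := w) hu hw huw huv hvw.symm hP hP0
      rwa [Finset.pair_comm w v] at this)
    (alT_nonneg hT0)
    (fun s hs => by
      obtain ⟨a, b, c⟩ := mem s hs
      refine le_trans ?_ (del_ok a b hM)
      have hY := hC.Y_d0 (H0 := ({v, w} : Finset V)ᶜ) (p := v) hS.sm (by simp) hs (a := u)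
        (by simp [huv, huw])
      have w0 : 0 ≤ wT (M s) := by rw [wT_eq]; positivity
      refine mul_le_mul_of_nonneg_left (Real.exp_le_exp.2 ?_) (by linarith)
      linarith)
    (fun r hr => by
      obtain ⟨a, b, c⟩ := mem r hr
      exact chl_ok a b hM)
    (fun r hr => by
      obtain ⟨a, b, c⟩ := mem r hr
      have hy := hC.ysrc (H0 := ({u, v, w} : Finset V)ᶜ) (p := u) (q := w) (by simp) ht hr
      have hb := hS.beta (p := u) (q := w) hw huw hr
      have hy0 := hC.yw_nonneg (H0 := ({u, v, w} : Finset V)ᶜ) (u := u) (w := w) (by simp) hr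
      have hb0 : 0 ≤ Real.exp (-H u w r) * bb h {u} w r :=
        mul_nonneg (Real.exp_pos _).le (bb_nonneg hh _ _ (hC.mem hr))
      have hα := alT_nonneg a
      have hμ := hC.μ0 r hr
      have hbn := bl_nn a c
      have r2 := bK_ok a b hM hbn
      rw [nhl_eq]
      calc yw h X M ({u, v, w} : Finset V)ᶜ u w t r * (Real.exp (-H u w r) * bb h {u} w r)
            * ((1 + alT (M r)) * Real.exp (kU (M r) (M t)))
          ≤ (μ r * (546 / 1000 * (M t - M r) ^ 2 * N0)) * hor bl (M r)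
            * ((1 + alT (M r)) * Real.exp (kU (M r) (M t))) := by
            refine mul_le_mul_of_nonneg_right ?_ (by positivity)
            exact mul_le_mul hy hb hb0 (by positivity)
        _ = (μ r * (546 / 1000 * (M t - M r) ^ 2 * N0)) * (1 + alT (M r))
            * (hor bl (M r) * Real.exp (kU (M r) (M t))) := by ring
        _ ≤ (μ r * (546 / 1000 * (M t - M r) ^ 2 * N0)) * (1 + alT (M r)) * hor bKl (M r) :=
            mul_le_mul_of_nonneg_left r2 (by positivity)
        _ = _ := by ring)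
    hSd
  -- the outer integral
  have hDn : ∀ m ∈ Icc 0 (M t), 0 ≤ hint (Dpl (M t)) m := fun m hm =>
    hint_nonneg hm.1 fun m' hm' => by
      rw [Dp_eq]
      have a1 := gl_nn hm'.1 (hm'.2.trans (hm.2.trans hM))
      have a2 := del_nn hm'.1 (hm'.2.trans hm.2)
      positivity
  obtain ⟨Γ, g, hΓ, hg, hΓt⟩ := hC.t1_clock (P := P) (R := R) (P' := dE h u w) (R' := dE h w v)
    (S := S) (I := I) (c := fun s => hor (chl (M t)) (M s))
    (n := fun s => μ s * (N0 * hor (nhl (M t)) (M s))) (y := X u w) (z := X w v) hz hP hP0 hR hR0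
    (fun s hs => dE_nonneg hh u w (hC.mem hs)) (fun s hs => dE_nonneg hh w v (hC.mem hs)) hd2 hI hI0
    hSd (γ := fun m => 103 / 100 * hor gl m) (γ' := fun m => 103 / 100 * hor gl m)
    (G := fun m => 101 / 100 * hint gl m) (D := fun m => hint (Dpl (M t)) m)
    (D' := fun m => hor (Dpl (M t)) m) (δ := fun m => hor (del (M t)) m)
    (ch := fun m => hor (chl (M t)) m) (nh := fun m => N0 * hor (nhl (M t)) m)
    (e1 := fun _ => 10145 / 10000) (e2 := 1029 / 1000)
    (Ψ := fun m => X u w * X w v * hint (psS (M t)) m + X w v * (N0 * hint (ps4 (M t)) m))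
    (ψ := fun m => X u w * X w v * hor (psS (M t)) m + X w v * (N0 * hor (ps4 (M t)) m))
    (fun m hm => del_nn hm.1 hm.2) (hor_cont _)
    (fun s hs => hS.rate hu hw huw hs) (fun s hs => hS.rate hw hv hvw.symm hs)
    (fun s hs => hS.E_le hw hv hvw.symm hR hR0 hs) (fun m => hint_deriv _ m) (hint_zero _)
    (fun m hm => by rw [Dp_eq]; exact le_of_eq (by ring))
    (fun s hs => hS.e1 hu hv hw huw hvw hP hR hR0 hs)
    (fun s hs => hS.e2 hu hv hw huw hvw hP hP0 hR hR0 hs) (fun s hs => le_rfl)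
    (fun m hm => chl_nn hm.1 hm.2) (fun s hs => le_rfl)
    (fun m hm => by
      rw [nhl_eq]
      have := bKl_nn hm.1 (hm.2.trans hM)
      have := alT_nonneg hm.1
      positivity)
    (fun m => ((hint_deriv _ m).const_mul _).add (((hint_deriv _ m).const_mul _).const_mul _))
    (fun m hm => by
      rw [psS_eq, ps4_eq]
      have a1 := gl_nn hm.1 (hm.2.trans hM)
      have a2 := LG_nn hm.1 (hm.2.trans hM)
      have a3 := hDn m hm
      have a4 := chl_nn hm.1 hm.2
      have a5 : 0 ≤ hor gl m * (hint (Dpl (M t)) m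
        + (101 / 100 * hint gl m + hint (Dpl (M t)) m) * hor (chl (M t)) m) := by positivity
      have a6 : X u w * X w v * (103 / 100 * hor gl m * (10145 / 10000) * (hint (Dpl (M t)) m
          + (101 / 100 * hint gl m + hint (Dpl (M t)) m) * hor (chl (M t)) m))
          ≤ X u w * X w v * (1045 / 1000 * (hor gl m * (hint (Dpl (M t)) m
          + (101 / 100 * hint gl m + hint (Dpl (M t)) m) * hor (chl (M t)) m))) := by
        refine mul_le_mul_of_nonneg_left ?_ (mul_nonneg hx hz)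
        linarith
      refine (add_le_add a6 (le_of_eq ?_))
      ring)
  refine ⟨Γ, g, hΓ, fun s hs => ?_, ?_⟩
  · refine (hterm s hs).trans (mul_le_mul_of_nonneg_left ?_ (bb_nonneg hh _ _ hC.ht))
    refine mul_le_mul_of_nonneg_left (hg s hs) ?_
    have := alT_nonneg hT0
    linarith
  · rw [hΓt]
    simp only [hint_zero, mul_zero, add_zero, sub_zero]

end Pool.Agent.RCG
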