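import Pool.Agent.RCG.FamY
import Pool.Agent.RCG.T1P

/-! The explicit layer of the N-part of an edge, group form (MP_73ccd0_lc, general graphs). -/

namespace Pool.Agent.RCG

open Set Finset Matrix Pool.Agent.RCRSHalf

set_option linter.unusedSectionVars false

variable {V : Type*} [Fintype V] [DecidableEq V]
variable {h : ℝ → V → V → ℝ} {H : V → V → ℝ → ℝ} {X : V → V → ℝ} {M μ : ℝ → ℝ} {t : ℝ}

/-- A term of the N-part of the edge `(u, v)`, all exponents in terms of `P = E_uw`, `R = E_vw`. -/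
theorem Cx.t1x (hC : Cx h H X M μ t) {u v w : V} (huv : u ≠ v) (huw : u ≠ w) (hvw : v ≠ w)
    {P R K Q Qr C w1 w2 αw δ c n S : ℝ → ℝ} {αu : ℝ}
    (hK : ∀ s ∈ Icc 0 t, ∀ r ∈ Icc s t, ∃ Pg Ng : V → ℝ → ℝ,
      GInf h ({u, v, w} : Finset V)ᶜ u w t r s Pg Ng ∧
      Exq (fun x => ru2 (h x) ({u, v, w} : Finset V)ᶜ
        (fun a => Pt H X M ({u, v, w} : Finset V)ᶜ v s a x)
        (fun a => Nt X ({u, v, w} : Finset V)ᶜ v (M s - M x) a)
        (fun a => Pg a x) (fun a => Ng a x)) s (K s))
    (hQ : ∀ s ∈ Icc 0 t, Real.exp (-Q s) * (bb h {w} v s * bb h {v} w s)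
      ≤ Real.exp (H v w s) * pp h v w s)
    (hQr : ∀ r ∈ Icc 0 t, Real.exp (-Qr r) * (bb h {w} u r * bb h {u} w r)
      ≤ Real.exp (H u w r) * pp h u w r)
    (hCr : ∀ r ∈ Icc 0 t, Real.exp (H u w r) * Xw h {v} u w t r
      ≤ Real.exp (C r) * (bb h {v, w} u t * bb h {u, v} w r))
    (hW1 : ∀ r ∈ Icc 0 t, Wr h u w r ≤ Real.exp (-P r) * (1 + w1 r))
    (hW2 : ∀ s ∈ Icc 0 t, Wr h w v s ≤ Real.exp (-R s) * (1 + w2 s))
    (hAw : ∀ r ∈ Icc 0 t, bb h {u, v} w r ≤ Real.exp (R r) * (1 + αw r) * bb h {u} w r)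
    (hAw0 : ∀ r ∈ Icc 0 t, 0 ≤ αw r)
    (hAu : bb h {v, w} u t ≤ Real.exp (P t) * (1 + αu) * bb h {v} u t) (hAu0 : 0 ≤ αu)
    (hδ : ∀ s ∈ Icc 0 t, (1 + w2 s) * Real.exp (Q s + K s
      + Yt X ({v, w} : Finset V)ᶜ v (M s) u) ≤ 1 + δ s)
    (hc : ∀ r ∈ Icc 0 t, (1 + w1 r) * (1 + αw r) * Real.exp (Qr r + C r) ≤ 1 + c r)
    (hn : ∀ r ∈ Icc 0 t, yw h X M ({u, v, w} : Finset V)ᶜ u w t r *
      (Real.exp (-H u w r) * bb h {u} w r) * ((1 + αw r) * Real.exp (C r)) ≤ n r)
    (hS : ∀ r ∈ Icc 0 t, HasDerivAt S (dE h u w r * Real.exp (P t - P r + R r) * (1 + c r)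
      + Real.exp (P t + R r) * n r) r) :
    ∀ s ∈ Icc 0 t, h s v w * ex (lw h ∅ s) {u, v, w}
        (fun F => RCG.tgt h u t F s - RCG.tgt h u t (insert w F) s)
      ≤ bb h {v} u t * ((1 + αu) *
        (dE h w v s * Real.exp (-R s) * (1 + δ s) * (S t - S s))) := by
  intro s hs
  have hh := hC.hh
  have mem : ∀ r ∈ Icc s t, r ∈ Icc 0 t := fun r hr => ⟨hs.1.trans hr.1, hr.2⟩
  choose! Pg Ng hG hKK using hK s hs
  have key := hC.N_grp huv huw hvw hs (Pg := Pg) (Ng := Ng) hG (K := fun _ => K s) hKK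
    (Q := Q s) (At := Real.exp (P t) * (1 + αu)) (Qr := Qr) (Cr := fun r => Real.exp (C r))
    (Ar := fun r => Real.exp (R r) * (1 + αw r))
    (hQ s hs) (fun r hr => hQr r (mem r hr)) (fun r hr => hCr r (mem r hr))
    (fun r hr => hAw r (mem r hr))
    (fun r hr => mul_nonneg (Real.exp_pos _).le (by linarith [hAw0 r (mem r hr)]))
    (fun r _ => (Real.exp_pos _).le) hAu
    (Ψ := fun r => Real.exp (K s - P t) * S r)
    (ψ := fun r => Real.exp (K s - P t) * (dE h u w r * Real.exp (P t - P r + R r) * (1 + c r)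
      + Real.exp (P t + R r) * n r))
    (fun r hr => (hS r (mem r hr)).const_mul _) (fun r hr => by
      have hr0 := mem r hr
      have hr1 := hC.mem hr0
      have hd := dE_nonneg hh u w hr1
      have hα := hAw0 r hr0
      have e1 : Real.exp (K s - P t) * (dE h u w r * Real.exp (P t - P r + R r) * (1 + c r)
          + Real.exp (P t + R r) * n r)
          = dE h u w r * (Real.exp (-P r) * (Real.exp (R r) * Real.exp (K s))) * (1 + c r)
            + Real.exp (R r) * Real.exp (K s) * n r := by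
        have e2 : Real.exp (P t - P r + R r) = Real.exp (P t) * (Real.exp (-P r) * Real.exp (R r)) := by
          rw [← Real.exp_add, ← Real.exp_add]; congr 1; ring
        have e3 : Real.exp (P t + R r) = Real.exp (P t) * Real.exp (R r) := Real.exp_add _ _
        have e4 : Real.exp (K s - P t) * Real.exp (P t) = Real.exp (K s) := by
          rw [← Real.exp_add]; congr 1; ring
        rw [e2, e3]
        linear_combination (dE h u w r * (Real.exp (-P r) * Real.exp (R r)) * (1 + c r)
          + Real.exp (R r) * n r) * e4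
      rw [e1]
      have hK0 := (Real.exp_pos (K s)).le
      have hRe := (Real.exp_pos (R r)).le
      have h1 : dE h u w r * Wr h u w r * Real.exp (Qr r) *
          (Real.exp (R r) * (1 + αw r) * Real.exp (C r) * Real.exp (K s))
          ≤ dE h u w r * (Real.exp (-P r) * (Real.exp (R r) * Real.exp (K s))) * (1 + c r) := by
        calc _ ≤ dE h u w r * (Real.exp (-P r) * (1 + w1 r)) * Real.exp (Qr r) *
              (Real.exp (R r) * (1 + αw r) * Real.exp (C r) * Real.exp (K s)) := by
              have := hW1 r hr0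
              gcongr
          _ = dE h u w r * (Real.exp (-P r) * (Real.exp (R r) * Real.exp (K s))) *
              ((1 + w1 r) * (1 + αw r) * Real.exp (Qr r + C r)) := by
              rw [Real.exp_add]; ring
          _ ≤ _ := by
              refine mul_le_mul_of_nonneg_left (hc r hr0) ?_
              positivity
      have h2 : yw h X M ({u, v, w} : Finset V)ᶜ u w t r *
          (Real.exp (-H u w r) * bb h {u} w r) *
          (Real.exp (R r) * (1 + αw r) * Real.exp (C r) * Real.exp (K s))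
          ≤ Real.exp (R r) * Real.exp (K s) * n r := by
        calc _ = Real.exp (R r) * Real.exp (K s) * (yw h X M ({u, v, w} : Finset V)ᶜ u w t r *
              (Real.exp (-H u w r) * bb h {u} w r) * ((1 + αw r) * Real.exp (C r))) := by ring
          _ ≤ _ := mul_le_mul_of_nonneg_left (hn r hr0) (by positivity)
      linarith)
  refine key.trans (mul_le_mul_of_nonneg_left ?_ (bb_nonneg hh _ _ (hC.mem ⟨hC.t0, le_rfl⟩)))
  have hSS : 0 ≤ Real.exp (K s - P t) * S t - Real.exp (K s - P t) * S s := by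
    have hd : ∀ r ∈ Icc s t, 0 ≤ dE h u w r * Real.exp (P t - P r + R r) * (1 + c r)
        + Real.exp (P t + R r) * n r := by
      intro r hr
      have hr0 := mem r hr
      have hr1 := hC.mem hr0
      have hd := dE_nonneg hh u w hr1
      have hα := hAw0 r hr0
      have hw0 : 0 ≤ 1 + w1 r := by
        have h1 := (Wr_pos hh huw hr1).le.trans (hW1 r hr0)
        by_contra hneg
        push Not at hneg
        have := mul_neg_of_pos_of_neg (Real.exp_pos (-P r)) hneg
        linarith
      have hc0 : 0 ≤ 1 + c r := le_trans (by positivity) (hc r hr0)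
      have hn0 : 0 ≤ n r := le_trans (by
        have h1 := hC.yw_nonneg (H0 := ({u, v, w} : Finset V)ᶜ) (u := u) (w := w) (by simp) hr0
        have h2 := bb_nonneg hh {u} w hr1
        positivity) (hn r hr0)
      positivity
    have := nonneg_of_forward (U := fun r => S r - S s) (a := s) (s := t)
      (fun r hr => (hS r (mem r hr)).sub_const _) (by simp) (fun r hr _ => hd r hr) t
      ⟨hs.2, le_rfl⟩
    have h2 := mul_nonneg (Real.exp_pos (K s - P t)).le this
    have h3 : Real.exp (K s - P t) * (S t - S s) = Real.exp (K s - P t) * S t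
      - Real.exp (K s - P t) * S s := by ring
    have h4 : 0 ≤ Real.exp (K s - P t) * (S t - S s) := h2
    linarith
  have hs1 := hC.mem hs
  have hd := dE_nonneg hh w v hs1
  have hSS' : 0 ≤ S t - S s := by
    have h3 : Real.exp (K s - P t) * S t - Real.exp (K s - P t) * S s
        = Real.exp (K s - P t) * (S t - S s) := by ring
    rw [h3] at hSS
    exact nonneg_of_mul_nonneg_right hSS (Real.exp_pos _)
  have e4 : Real.exp (P t) * Real.exp (K s - P t) = Real.exp (K s) := by
    rw [← Real.exp_add]; congr 1; ring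
  calc Real.exp (P t) * (1 + αu) * (dE h w v s * Wr h w v s *
        Real.exp (Q s + Yt X ({v, w} : Finset V)ᶜ v (M s) u)) *
        (Real.exp (K s - P t) * S t - Real.exp (K s - P t) * S s)
      = (1 + αu) * (dE h w v s * Wr h w v s *
        Real.exp (Q s + Yt X ({v, w} : Finset V)ᶜ v (M s) u)) * Real.exp (K s) * (S t - S s) := by
        linear_combination ((1 + αu) * (dE h w v s * Wr h w v s *
        Real.exp (Q s + Yt X ({v, w} : Finset V)ᶜ v (M s) u)) * (S t - S s)) * e4
    _ ≤ (1 + αu) * (dE h w v s * (Real.exp (-R s) * (1 + w2 s)) *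
        Real.exp (Q s + Yt X ({v, w} : Finset V)ᶜ v (M s) u)) * Real.exp (K s) * (S t - S s) := by
        have := hW2 s hs
        gcongr
    _ = (1 + αu) * (dE h w v s * Real.exp (-R s) * ((1 + w2 s) * Real.exp (Q s + K s
      + Yt X ({v, w} : Finset V)ᶜ v (M s) u)) * (S t - S s)) := by
        have e5 : Real.exp (Q s + K s + Yt X ({v, w} : Finset V)ᶜ v (M s) u)
            = Real.exp (Q s + Yt X ({v, w} : Finset V)ᶜ v (M s) u) * Real.exp (K s) := by
          rw [← Real.exp_add]; congr 1; ring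
        rw [e5]; ring
    _ ≤ _ := by
        have := hδ s hs
        gcongr

section calculus

variable {P R P' R' S I Φ Er Er' c n δ : ℝ → ℝ}

/-- The outer integral: main term plus error. -/
theorem t1_outer (hP : ∀ s ∈ Icc 0 t, HasDerivAt P (P' s) s) (hP0 : P 0 = 0)
    (hI : ∀ s ∈ Icc 0 t, HasDerivAt I (P' s * Real.exp (-P s + R s)) s) (hI0 : I 0 = 0)
    (hS : ∀ r ∈ Icc 0 t, HasDerivAt S (P' r * Real.exp (P t - P r + R r) * (1 + c r)
      + Real.exp (P t + R r) * n r) r)
    (hΦ : ∀ s ∈ Icc 0 t, HasDerivAt Φ (R' s * Real.exp (-R s) * (1 + δ s)) s) (hΦ0 : Φ 0 = 0)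
    (hE : ∀ s ∈ Icc 0 t, HasDerivAt Er (Er' s) s)
    (hle : ∀ s ∈ Icc 0 t, (Φ s - (1 - Real.exp (-R s))) * (P' s * Real.exp (P t - P s + R s))
      + Φ s * (P' s * Real.exp (P t - P s + R s) * c s + Real.exp (P t + R s) * n s) ≤ Er' s) :
    ∃ Γ g : ℝ → ℝ, (∀ s ∈ Icc 0 t, HasDerivAt Γ (g s) s) ∧
      (∀ s ∈ Icc 0 t, R' s * Real.exp (-R s) * (1 + δ s) * (S t - S s) ≤ g s) ∧
      Γ t - Γ 0 = uI P I t + (Er t - Er 0) := by
  refine ⟨fun s => Φ s * (S t - S s) + Real.exp (P t) * (I s + Real.exp (-P s)) + Er s,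
    fun s => (R' s * Real.exp (-R s) * (1 + δ s)) * (S t - S s)
      + Φ s * (0 - (P' s * Real.exp (P t - P s + R s) * (1 + c s) + Real.exp (P t + R s) * n s))
      + Real.exp (P t) * (P' s * Real.exp (-P s + R s) + Real.exp (-P s) * (-P' s)) + Er' s,
    fun s hs => ?_, fun s hs => ?_, ?_⟩
  · exact (((hΦ s hs).mul ((hasDerivAt_const s (S t)).sub (hS s hs))).add
      (((hI s hs).add (hP s hs).neg.exp).const_mul _)).add (hE s hs)
  · have e1 : Real.exp (P t) * (P' s * Real.exp (-P s + R s) + Real.exp (-P s) * (-P' s))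
        = (1 - Real.exp (-R s)) * (P' s * Real.exp (P t - P s + R s)) := by
      have e2 : Real.exp (P t - P s + R s)
          = Real.exp (P t) * (Real.exp (-P s) * Real.exp (R s)) := by
        rw [← Real.exp_add, ← Real.exp_add]; congr 1; ring
      have e3 : Real.exp (-P s + R s) = Real.exp (-P s) * Real.exp (R s) := Real.exp_add _ _
      have e4 : Real.exp (-R s) * Real.exp (R s) = 1 := by
        rw [← Real.exp_add, neg_add_cancel, Real.exp_zero]
      rw [e2, e3]
      linear_combination (P' s * Real.exp (P t) * Real.exp (-P s)) * e4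
    have := hle s hs
    beta_reduce
    rw [e1]
    linarith
  · simp only [hΦ0, hP0, hI0, sub_self, mul_zero, neg_zero, Real.exp_zero, zero_add, zero_mul]
    unfold uI
    have e4 : Real.exp (P t) * Real.exp (-P t) = 1 := by
      rw [← Real.exp_add, add_neg_cancel, Real.exp_zero]
    linear_combination e4

end calculus

end Pool.Agent.RCG
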