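import Pool.Agent.RCGF.T1X
import Pool.Agent.RCG.Sup2
import Pool.Agent.RCG.Jint

/-! The explicit layer of the N-part of an edge, group form: explicit exponents
(MP_73ccd0_lc, general graphs). -/

namespace Pool.Agent.RCG

open Set Finset Matrix Pool.Agent.RCRSHalf

set_option linter.unusedSectionVars false

variable {V : Type*} [Fintype V] [DecidableEq V]
variable {h : ℝ → V → V → ℝ} {H : V → V → ℝ → ℝ} {X : V → V → ℝ} {M μ : ℝ → ℝ} {t : ℝ}

/-- sup of the closure exponent -/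
theorem Cx.Y_sup (hC : Cx h H X M μ t) {H0 : Finset V} {p : V} (hp : p ∉ H0) {T r : ℝ}
    (hT : T ∈ Icc 0 t) (hr : r ∈ Icc 0 T) {a : V} (ha : a ∈ H0) :
    Yt X H0 p (M T - M r) a ≤ 9174 / 100000 * (M T - M r) ^ 3 := by
  have hm := hC.mm hT hr
  have h1 := (hC.tv hp hT hr).YR a ha
  have h2 := rh_two hC.hX hp a
  have e2 : ((rm X H0) ^ 2 *ᵥ Rh X H0 p) a = (rm X H0 *ᵥ (rm X H0 *ᵥ Rh X H0 p)) a := by
    rw [pow_two, ← Matrix.mulVec_mulVec]
  rw [e2] at h1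
  have h3 := G3_le' hm
  have hG := G3_nonneg hm.1
  have hm3 : 0 ≤ (M T - M r) ^ 3 := pow_nonneg hm.1 3
  calc Yt X H0 p (M T - M r) a ≤ G3 (M T - M r) * (rm X H0 *ᵥ (rm X H0 *ᵥ Rh X H0 p)) a := h1
    _ ≤ G3 (M T - M r) * (526 / 1000) := mul_le_mul_of_nonneg_left h2 hG
    _ ≤ (1744 / 10000 * (M T - M r) ^ 3) * (526 / 1000) :=
        mul_le_mul_of_nonneg_right h3 (by norm_num)
    _ ≤ _ := by linarith

theorem Cx.Y_sup0 (hC : Cx h H X M μ t) {H0 : Finset V} {p : V} (hp : p ∉ H0) {T : ℝ}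
    (hT : T ∈ Icc 0 t) {a : V} (ha : a ∈ H0) :
    Yt X H0 p (M T) a ≤ 9174 / 100000 * (M T) ^ 3 := by
  have := hC.Y_sup hp hT (r := 0) ⟨le_rfl, hT.1⟩ ha
  simpa only [hC.M0, sub_zero] using this

/-- deletion of one vertex, value form -/
theorem Cx.beta (hC : Cx h H X M μ t) {p q : V} (hpq : p ≠ q) {T : ℝ} (hT : T ∈ Icc 0 t) :
    Real.exp (-H p q T) * bb h {p} q T
      ≤ Real.exp (9174 / 100000 * (M T) ^ 3) * bb h ∅ q T := by
  have h1 := hC.del_up (D := ∅) (u := q) (q := p) (by simp) (by simp) hpq.symm hT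
  simp only [insert_empty_eq] at h1
  have h2 := hC.Y_sup0 (H0 := ({q} : Finset V)ᶜ) (p := q) (by simp) hT (a := p) (by simpa using hpq)
  rw [hC.hh.Hsymm q p] at h1
  have hb := bb_nonneg hC.hh ∅ q (hC.mem hT)
  calc Real.exp (-H p q T) * bb h {p} q T
      ≤ Real.exp (-H p q T) * (Real.exp (H p q T + Yt X ({q} : Finset V)ᶜ q (M T) p)
        * bb h ∅ q T) := mul_le_mul_of_nonneg_left h1 (Real.exp_pos _).le
    _ = Real.exp (Yt X ({q} : Finset V)ᶜ q (M T) p) * bb h ∅ q T := by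
        rw [← mul_assoc, ← Real.exp_add]; congr 2; ring
    _ ≤ _ := mul_le_mul_of_nonneg_right (Real.exp_le_exp.2 h2) hb

/-- walk form from `q` to the target `p` with one inner edge -/
noncomputable def NA (X : V → V → ℝ) (H0 : Finset V) (q p : V) : ℝ :=
  ∑ c ∈ H0, X q c * (rm X H0 *ᵥ Rh X H0 p) c

theorem NA_nonneg (hX : Wt X) (H0 : Finset V) (q p : V) : 0 ≤ NA X H0 q p := by
  refine Finset.sum_nonneg fun c _ => mul_nonneg (hX.nonneg _ _) ?_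
  exact mulVec_nonneg (hX.rm_nonneg H0) (fun b => Rh_nonneg hX H0 p b) c

/-- the sources of `q` for the target `p` -/
theorem Cx.ysrc (hC : Cx h H X M μ t) {H0 : Finset V} {p q : V} (hp : p ∉ H0) {T r : ℝ}
    (hT : T ∈ Icc 0 t) (hr : r ∈ Icc 0 T) :
    ∑ c ∈ H0, h r q c * Nt X H0 p (M T - M r) c
      ≤ μ r * (546 / 1000 * (M T - M r) ^ 2 * NA X H0 q p) := by
  have hm := hC.mm hT hr
  have htv := hC.tv hp hT hr
  have hr' : r ∈ Icc 0 t := ⟨hr.1, hr.2.trans hT.2⟩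
  have hR0 : ∀ c, 0 ≤ (rm X H0 *ᵥ Rh X H0 p) c := fun c =>
    mulVec_nonneg (hC.hX.rm_nonneg H0) (fun b => Rh_nonneg hC.hX H0 p b) c
  unfold NA
  rw [Finset.mul_sum, Finset.mul_sum]
  refine Finset.sum_le_sum fun c hc => ?_
  have h1 := htv.NR c hc
  rw [pow_one] at h1
  have h2 := htv.N0 c hc
  have h3 := hC.le r hr' q c
  have h4 := B2_le hm
  have hμ := hC.μ0 r hr'
  have hx := hC.hX.nonneg q c
  have hR := hR0 c
  calc h r q c * Nt X H0 p (M T - M r) c ≤ (μ r * X q c) * Nt X H0 p (M T - M r) c :=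
        mul_le_mul_of_nonneg_right h3 h2
    _ ≤ (μ r * X q c) * (B2 (M T - M r) * (rm X H0 *ᵥ Rh X H0 p) c) :=
        mul_le_mul_of_nonneg_left h1 (mul_nonneg hμ hx)
    _ ≤ (μ r * X q c) * ((546 / 1000 * (M T - M r) ^ 2) * (rm X H0 *ᵥ Rh X H0 p) c) := by
        refine mul_le_mul_of_nonneg_left (mul_le_mul_of_nonneg_right h4 hR) (mul_nonneg hμ hx)
    _ = _ := by ring

/-- A term of the N-part of the edge `(u, v)`, integrated exponents. -/
theorem Cx.t1y (hC : Cx h H X M μ t) {u v w : V} (huv : u ≠ v) (huw : u ≠ w) (hvw : v ≠ w)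
    {P R K Q Qr C w1 w2 αw δ c n S a : ℝ → ℝ} {αu : ℝ}
    (hK : ∀ s ∈ Icc 0 t, ∀ r ∈ Icc s t, ∃ Pg Ng : V → ℝ → ℝ,
      GInf h ({u, v, w} : Finset V)ᶜ u w t r s Pg Ng ∧
      Exq (fun x => ru2 (h x) ({u, v, w} : Finset V)ᶜ
        (fun a => Pt H X M ({u, v, w} : Finset V)ᶜ v s a x)
        (fun a => Nt X ({u, v, w} : Finset V)ᶜ v (M s - M x) a)
        (fun a => Pg a x) (fun a => Ng a x)) s (K s))
    (hQ : ∀ s ∈ Icc 0 t, Exq (crl2 h H X M ({v, w} : Finset V)ᶜ v s w s) s (Q s))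
    (hQr : ∀ r ∈ Icc 0 t, Exq (crl2 h H X M ({u, w} : Finset V)ᶜ u r w r) r (Qr r))
    (hCr : ∀ r ∈ Icc 0 t, Exq (cru2 h H X M ({u, v, w} : Finset V)ᶜ u t w r) r (C r))
    (ha : ∀ r ∈ Icc 0 t, bb h ∅ w r ≤ a r)
    (hW1 : ∀ r ∈ Icc 0 t, Wr h u w r ≤ Real.exp (-P r) * (1 + w1 r))
    (hW2 : ∀ s ∈ Icc 0 t, Wr h w v s ≤ Real.exp (-R s) * (1 + w2 s))
    (hAw : ∀ r ∈ Icc 0 t, bb h {u, v} w r ≤ Real.exp (R r) * (1 + αw r) * bb h {u} w r)
    (hAw0 : ∀ r ∈ Icc 0 t, 0 ≤ αw r)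
    (hAu : bb h {v, w} u t ≤ Real.exp (P t) * (1 + αu) * bb h {v} u t) (hAu0 : 0 ≤ αu)
    (hδ : ∀ s ∈ Icc 0 t, (1 + w2 s) * Real.exp (Q s + K s
      + 9174 / 100000 * (M s) ^ 3) ≤ 1 + δ s) (hw2 : ∀ s ∈ Icc 0 t, 0 ≤ 1 + w2 s)
    (hc : ∀ r ∈ Icc 0 t, (1 + w1 r) * (1 + αw r) * Real.exp (Qr r + C r) ≤ 1 + c r)
    (hn : ∀ r ∈ Icc 0 t, μ r * (546 / 1000 * (M t - M r) ^ 2 * NA X ({u, v, w} : Finset V)ᶜ w u) *
      (Real.exp (9174 / 100000 * (M r) ^ 3) * a r) *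
      ((1 + αw r) * Real.exp (C r)) ≤ n r)
    (hS : ∀ r ∈ Icc 0 t, HasDerivAt S (dE h u w r * Real.exp (P t - P r + R r) * (1 + c r)
      + Real.exp (P t + R r) * n r) r) :
    ∀ s ∈ Icc 0 t, h s v w * ex (lw h ∅ s) {u, v, w}
        (fun F => RCG.tgt h u t F s - RCG.tgt h u t (insert w F) s)
      ≤ bb h {v} u t * ((1 + αu) *
        (dE h w v s * Real.exp (-R s) * (1 + δ s) * (S t - S s))) := by
  have ht : t ∈ Icc 0 t := ⟨hC.t0, le_rfl⟩
  refine hC.t1x huv huw hvw (K := K) (P := P) (w1 := w1) (w2 := w2) (αw := αw) (αu := αu)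
    (Q := Q) (Qr := Qr) (C := C) hK ?_ ?_ ?_ hW1 hW2 hAw hAw0 hAu hAu0 ?_ hc ?_ hS
  · intro s hs
    exact hC.pp_lo hvw hs (hQ s hs)
  · intro r hr
    exact hC.pp_lo huw hr (hQr r hr)
  · intro r hr
    have e0 : insert u (insert w ({v} : Finset V)) = {u, v, w} := by
      ext z; simp only [Finset.mem_insert, Finset.mem_singleton]; tauto
    have h1 := hC.ex2_up (D := {v}) (p := u) (q := w) (by simpa using huv) (by simpa using hvw.symm)
      huw ht hr (B := C r) (by rw [e0]; exact hCr r hr)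
    have e1 : insert w ({v} : Finset V) = {v, w} := Finset.pair_comm w v
    have e2 : insert u ({v} : Finset V) = {u, v} := rfl
    rw [e1, e2] at h1
    have h2 := mul_le_mul_of_nonneg_left h1 (Real.exp_pos (H u w r)).le
    unfold Xw
    refine h2.trans (le_of_eq ?_)
    rw [← mul_assoc, ← Real.exp_add]
    congr 2
    ring
  · intro s hs
    refine le_trans (mul_le_mul_of_nonneg_left (Real.exp_le_exp.2 ?_) (hw2 s hs)) (hδ s hs)
    have := hC.Y_sup0 (H0 := ({v, w} : Finset V)ᶜ) (p := v) (by simp) hs (a := u)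
      (by simp [huv, huw])
    linarith
  · intro r hr
    refine le_trans ?_ (hn r hr)
    have hy := hC.ysrc (H0 := ({u, v, w} : Finset V)ᶜ) (p := u) (q := w) (by simp) ht hr
    have hb := hC.beta huw hr
    have hy0 := hC.yw_nonneg (H0 := ({u, v, w} : Finset V)ᶜ) (u := u) (w := w) (by simp) hr
    have hb0 : 0 ≤ Real.exp (-H u w r) * bb h {u} w r :=
      mul_nonneg (Real.exp_pos _).le (bb_nonneg hC.hh _ _ (hC.mem hr))
    have hα := hAw0 r hr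
    have h1 : Real.exp (-H u w r) * bb h {u} w r ≤ Real.exp (9174 / 100000 * (M r) ^ 3) * a r :=
      hb.trans (mul_le_mul_of_nonneg_left (ha r hr) (Real.exp_pos _).le)
    have h2 : yw h X M ({u, v, w} : Finset V)ᶜ u w t r
        ≤ μ r * (546 / 1000 * (M t - M r) ^ 2 * NA X ({u, v, w} : Finset V)ᶜ w u) := hy
    refine mul_le_mul_of_nonneg_right ?_ (by positivity)
    exact mul_le_mul h2 h1 hb0 (hy0.trans h2)

end Pool.Agent.RCG
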